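import Pool.Agent.Y979.AE.Route

/-!
# A configuration of `2 m` points with `m ^ 2` adjacent pairs

The points lie close to two skew segments. The spheres that touch the two segments in given points
contain no other points of the configuration.
-/

set_option autoImplicit false

namespace Pool.Agent.Y979.AE

noncomputable section

/-- the square of the Euclidean distance to `(c, ch)` -/
def Qf {k : ℕ} (c : Fin k → ℝ) (ch : ℝ) (x : Fin k → ℝ) (h : ℝ) : ℝ :=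
  ∑ j, (x j - c j) ^ 2 + (h - ch) ^ 2

/-- the hyperbolic centre of a Euclidean sphere -/
theorem exists_center {k : ℕ} (c : Fin k → ℝ) (ch R2 : ℝ) (h2 : R2 < ch ^ 2) :
    ∃ z : HS k, ∀ y : HS k, F z y = (Qf c ch y.1.1 y.1.2 - R2) / (y.1.2 * z.1.2) +
      2 * ch / z.1.2 := by
  have hpos : 0 < ch ^ 2 - R2 := by linarith
  refine ⟨⟨(c, √(ch ^ 2 - R2)), Real.sqrt_pos.mpr hpos⟩, fun y => ?_⟩
  have hy := y.2
  have hz : 0 < √(ch ^ 2 - R2) := Real.sqrt_pos.mpr hpos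
  have hz2 : √(ch ^ 2 - R2) ^ 2 = ch ^ 2 - R2 := Real.sq_sqrt hpos.le
  unfold F Qf
  simp only
  have : ∑ i, (c i - y.1.1 i) ^ 2 = ∑ i, (y.1.1 i - c i) ^ 2 :=
    Finset.sum_congr rfl fun i _ => by ring
  rw [this]
  set S := ∑ i, (y.1.1 i - c i) ^ 2
  set r := √(ch ^ 2 - R2)
  rw [div_add_div _ _ (mul_pos hy hz).ne' hz.ne', div_eq_div_iff (mul_pos hz hy).ne'
    (by positivity)]
  rw [hz2]
  ring

theorem Qf_perturb {k : ℕ} (c : Fin k → ℝ) (ch : ℝ) {X x : Fin k → ℝ} {H h η : ℝ}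
    (hη1 : η ≤ 1 / 2) (hX : ∀ j, |X j - c j| ≤ 1 / 4) (hH : |H - ch| ≤ 1 / 4)
    (hx : ∀ j, X j ≤ x j ∧ x j < X j + η) (hh : H ≤ h ∧ h < H + η) :
    |Qf c ch x h - Qf c ch X H| ≤ (k + 1) * η := by
  have key : ∀ a b : ℝ, |a| ≤ 1 / 4 → a ≤ b → b < a + η → |b ^ 2 - a ^ 2| ≤ η := by
    intro a b h1 h2 h3
    rw [abs_le] at h1 ⊢
    constructor <;> nlinarith
  have e : Qf c ch x h - Qf c ch X H =
      ∑ j, ((x j - c j) ^ 2 - (X j - c j) ^ 2) + ((h - ch) ^ 2 - (H - ch) ^ 2) := by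
    unfold Qf
    rw [Finset.sum_sub_distrib]
    ring
  rw [e]
  have h1 : |∑ j, ((x j - c j) ^ 2 - (X j - c j) ^ 2)| ≤ k * η := by
    refine (Finset.abs_sum_le_sum_abs _ _).trans ?_
    have : ∑ j : Fin k, |(x j - c j) ^ 2 - (X j - c j) ^ 2| ≤ ∑ _j : Fin k, η :=
      Finset.sum_le_sum fun j _ => key _ _ (hX j) (by linarith [(hx j).1]) (by linarith [(hx j).2])
    refine this.trans (le_of_eq ?_)
    rw [Finset.sum_const, Finset.card_univ, Fintype.card_fin, nsmul_eq_mul]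
  have h2 : |(h - ch) ^ 2 - (H - ch) ^ 2| ≤ η :=
    key _ _ hH (by linarith [hh.1]) (by linarith [hh.2])
  refine (abs_add_le _ _).trans ?_
  linarith

variable {n : ℕ}

/-- horizontal offsets of the cluster points -/
def off (n m : ℕ) (pb : Fin m × Bool) (j : Fin (n + 2)) : ℝ :=
  if j = (if pb.2 then 1 else 0) then ((pb.1 : ℕ) : ℝ) / (8 * m) else 0

/-- vertical offsets of the cluster points -/
def hoff (b : Bool) : ℝ := if b then 1 / 8 else -(1 / 8)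

/-- the side of the tiny cubes -/
def eta (n m : ℕ) : ℝ := 1 / (2048 * (n + 3) * (m : ℝ) ^ 2)

/-- a tiny cube in the unit window -/
def tcu (w : ℝ) (m : ℕ) (pb : Fin m × Bool) : Set (HS (n + 2)) :=
  {z | (∀ j, w / 2 + off n m pb j ≤ z.1.1 j ∧ z.1.1 j < w / 2 + off n m pb j + eta n m) ∧
    3 / 2 + hoff pb.2 ≤ z.1.2 ∧ z.1.2 < 3 / 2 + hoff pb.2 + eta n m}

/-- the unit window -/
def unitBox (w : ℝ) : Set (HS (n + 2)) :=
  {z | (∀ j, 0 ≤ z.1.1 j ∧ z.1.1 j < w) ∧ 1 ≤ z.1.2 ∧ z.1.2 < 2}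

theorem off_nonneg {m : ℕ} (pb : Fin m × Bool) (j : Fin (n + 2)) : 0 ≤ off n m pb j := by
  unfold off
  by_cases h : j = (if pb.2 then 1 else 0)
  · rw [if_pos h]; positivity
  · rw [if_neg h]

theorem frac_bound {m : ℕ} (p : Fin m) : 0 ≤ ((p : ℕ) : ℝ) / (8 * m) ∧ ((p : ℕ) : ℝ) / (8 * m) ≤ 1 / 8 := by
  have hm : 0 < m := lt_of_le_of_lt (Nat.zero_le _) p.2
  have hm' : (0 : ℝ) < m := by exact_mod_cast hm
  have h1 : ((p : ℕ) : ℝ) ≤ m := by exact_mod_cast p.2.le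
  constructor
  · positivity
  · rw [div_le_iff₀ (by positivity)]
    linarith

theorem off_le {m : ℕ} (pb : Fin m × Bool) (j : Fin (n + 2)) : off n m pb j ≤ 1 / 8 := by
  have := frac_bound pb.1
  unfold off
  by_cases h : j = (if pb.2 then 1 else 0)
  · rw [if_pos h]; exact this.2
  · rw [if_neg h]; norm_num

theorem eta_pos {m : ℕ} (hm : 0 < m) : 0 < eta n m := by
  have hm' : (0 : ℝ) < m := by exact_mod_cast hm
  unfold eta
  positivity

theorem eta_bound {m : ℕ} (hm : 0 < m) : (n + 3) * eta n m * (2048 * (m : ℝ) ^ 2) = 1 := by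
  have hm' : (0 : ℝ) < m := by exact_mod_cast hm
  unfold eta
  field_simp

theorem eta_le {m : ℕ} (hm : 0 < m) : (n + 3) * eta n m ≤ 1 / 2048 := by
  have hm' : (1 : ℝ) ≤ m := by exact_mod_cast hm
  have h1 := eta_bound (n := n) hm
  have h2 := eta_pos (n := n) hm
  have h3 : (1 : ℝ) ≤ (m : ℝ) ^ 2 := by nlinarith
  have h4 : 0 ≤ (n + 3) * eta n m := by positivity
  nlinarith

/-- the horizontal position of the centre of the sphere -/
def cc (n : ℕ) (w s t : ℝ) (j : Fin (n + 2)) : ℝ :=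
  w / 2 + (if j = 0 then s else 0) + (if j = 1 then t else 0)

theorem zero_ne_one' : (0 : Fin (n + 2)) ≠ 1 := by
  intro h
  have := congrArg Fin.val h
  simp at this

theorem succ_succ_ne_one (j : Fin n) : j.succ.succ ≠ (1 : Fin (n + 2)) := by
  intro h
  have := congrArg Fin.val h
  simp at this

theorem cc_zero (w s t : ℝ) : cc n w s t 0 = w / 2 + s := by
  simp [cc]

theorem cc_one (w s t : ℝ) : cc n w s t 1 = w / 2 + t := by
  simp [cc, zero_ne_one'.symm]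

theorem cc_succ (w s t : ℝ) (j : Fin n) : cc n w s t j.succ.succ = w / 2 := by
  have e1 : j.succ.succ ≠ (0 : Fin (n + 2)) := Fin.succ_ne_zero _
  simp [cc, e1, succ_succ_ne_one]

theorem cc_range {w s t : ℝ} (hs0 : 0 ≤ s) (hs1 : s ≤ 1 / 8) (ht0 : 0 ≤ t) (ht1 : t ≤ 1 / 8)
    (j : Fin (n + 2)) : w / 2 ≤ cc n w s t j ∧ cc n w s t j ≤ w / 2 + 1 / 8 := by
  refine Fin.cases ?_ (fun j => ?_) j
  · rw [cc_zero]; constructor <;> linarith
  · refine Fin.cases ?_ (fun j => ?_) j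
    · show w / 2 ≤ cc n w s t 1 ∧ cc n w s t 1 ≤ w / 2 + 1 / 8
      rw [cc_one]; constructor <;> linarith
    · rw [cc_succ]; constructor <;> linarith

theorem Qf_X (w s t u : ℝ) {m : ℕ} (p : Fin m) :
    Qf (cc n w s t) (3 / 2 + u) (fun j => w / 2 + off n m (p, false) j) (3 / 2 + hoff false) =
      (((p : ℕ) : ℝ) / (8 * m) - s) ^ 2 + t ^ 2 + (1 / 8 + u) ^ 2 := by
  unfold Qf
  rw [Fin.sum_univ_succ, Fin.sum_univ_succ]
  have e0 : off n m (p, false) 0 = ((p : ℕ) : ℝ) / (8 * m) := by simp [off]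
  have e1 : off n m (p, false) (Fin.succ 0) = 0 := by simp [off]
  have e2 : ∀ j : Fin n, off n m (p, false) j.succ.succ = 0 := by
    intro j
    simp [off, Fin.succ_ne_zero]
  have e3 : cc n w s t (Fin.succ 0) = w / 2 + t := cc_one w s t
  have e4 : ∑ j : Fin n, ((w / 2 + off n m (p, false) j.succ.succ) -
      cc n w s t j.succ.succ) ^ 2 = 0 := by
    apply Finset.sum_eq_zero
    intro j _
    rw [e2, cc_succ]; ring
  rw [e4]
  beta_reduce
  rw [e0, e1, cc_zero, e3]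
  have e5 : hoff false = -(1 / 8) := rfl
  rw [e5]
  ring

theorem Qf_Y (w s t u : ℝ) {m : ℕ} (q : Fin m) :
    Qf (cc n w s t) (3 / 2 + u) (fun j => w / 2 + off n m (q, true) j) (3 / 2 + hoff true) =
      (((q : ℕ) : ℝ) / (8 * m) - t) ^ 2 + s ^ 2 + (1 / 8 - u) ^ 2 := by
  unfold Qf
  rw [Fin.sum_univ_succ, Fin.sum_univ_succ]
  have e0 : off n m (q, true) 0 = 0 := by simp [off]
  have e1 : off n m (q, true) (Fin.succ 0) = ((q : ℕ) : ℝ) / (8 * m) := by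
    have : (Fin.succ 0 : Fin (n + 2)) = 1 := rfl
    simp [off]
  have e2 : ∀ j : Fin n, off n m (q, true) j.succ.succ = 0 := by
    intro j
    simp [off, succ_succ_ne_one]
  have e3 : cc n w s t (Fin.succ 0) = w / 2 + t := cc_one w s t
  have e4 : ∑ j : Fin n, ((w / 2 + off n m (q, true) j.succ.succ) -
      cc n w s t j.succ.succ) ^ 2 = 0 := by
    apply Finset.sum_eq_zero
    intro j _
    rw [e2, cc_succ]; ring
  rw [e4]
  beta_reduce
  rw [e0, e1, cc_zero, e3]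
  have e5 : hoff true = 1 / 8 := rfl
  rw [e5]
  ring

theorem sep {m : ℕ} (hm : 0 < m) {r r' : Fin m} (hrr : r ≠ r') :
    32 * ((n + 3) * eta n m) ≤
      (((r' : ℕ) : ℝ) / (8 * m) - ((r : ℕ) : ℝ) / (8 * m)) ^ 2 := by
  have hm' : (0 : ℝ) < m := by exact_mod_cast hm
  have hηm := eta_bound (n := n) hm
  have e1 : (((r' : ℕ) : ℝ) / (8 * m) - ((r : ℕ) : ℝ) / (8 * m)) ^ 2 =
      (((r' : ℕ) : ℝ) - ((r : ℕ) : ℝ)) ^ 2 / (64 * (m : ℝ) ^ 2) := by
    field_simp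
    ring
  have e2 : 1 ≤ (((r' : ℕ) : ℝ) - ((r : ℕ) : ℝ)) ^ 2 := by
    have e3 : ((r' : ℕ) : ℤ) - ((r : ℕ) : ℤ) ≠ 0 := by
      intro h
      apply hrr
      apply Fin.ext
      omega
    have e4 : 1 ≤ (((r' : ℕ) : ℤ) - ((r : ℕ) : ℤ)) ^ 2 := by
      have := sq_pos_of_ne_zero e3
      omega
    have e5 : ((1 : ℤ) : ℝ) ≤ (((((r' : ℕ) : ℤ) - ((r : ℕ) : ℤ)) ^ 2 : ℤ) : ℝ) := by
      exact_mod_cast e4
    push_cast at e5
    exact e5
  rw [e1, le_div_iff₀ (by positivity)]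
  linarith

theorem pert {w s t u : ℝ} (hs0 : 0 ≤ s) (hs1 : s ≤ 1 / 8) (ht0 : 0 ≤ t) (ht1 : t ≤ 1 / 8)
    (hu : |u| ≤ 1 / 32) {m : ℕ} (hm : 0 < m) (pb : Fin m × Bool) {a : HS (n + 2)}
    (ha : a ∈ tcu w m pb) :
    |Qf (cc n w s t) (3 / 2 + u) a.1.1 a.1.2 -
      Qf (cc n w s t) (3 / 2 + u) (fun j => w / 2 + off n m pb j) (3 / 2 + hoff pb.2)| ≤
      (n + 3) * eta n m := by
  have hη0 := eta_pos (n := n) hm
  have hη1 := eta_le (n := n) hm
  have hn0 : (0 : ℝ) ≤ n := Nat.cast_nonneg n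
  have hη2 : eta n m ≤ 1 / 6144 := by nlinarith
  obtain ⟨hu2, hu3⟩ := abs_le.mp hu
  have := Qf_perturb (cc n w s t) (3 / 2 + u) (X := fun j => w / 2 + off n m pb j) (x := a.1.1)
    (H := 3 / 2 + hoff pb.2) (h := a.1.2) (η := eta n m) (by linarith) (fun j => ?_) ?_ ha.1 ha.2
  · push_cast at this
    linarith
  · have e1 := off_nonneg pb j
    have e2 := off_le pb j
    obtain ⟨e3, e4⟩ := cc_range (w := w) hs0 hs1 ht0 ht1 j
    rw [abs_le]; constructor <;> linarith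
  · rw [abs_le]
    unfold hoff
    cases pb.2 <;> simp only [if_true, Bool.false_eq_true, if_false] <;> constructor <;> linarith

theorem far {w s t v : ℝ} (hw : 1 ≤ w) (hs0 : 0 ≤ s) (hs1 : s ≤ 1 / 8) (ht0 : 0 ≤ t)
    (ht1 : t ≤ 1 / 8) (hv : |v| ≤ 1 / 16) {a : HS (n + 2)} (ha : a ∉ unitBox w) :
    (9 : ℝ) / 64 ≤ Qf (cc n w s t) (3 / 2 + v) a.1.1 a.1.2 := by
  by_contra hcon
  push Not at hcon
  apply ha
  obtain ⟨hv1, hv2⟩ := abs_le.mp hv
  have hQj : ∀ j, (a.1.1 j - cc n w s t j) ^ 2 < 9 / 64 := by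
    intro j
    refine lt_of_le_of_lt ?_ hcon
    have e1 : (a.1.1 j - cc n w s t j) ^ 2 ≤ ∑ j, (a.1.1 j - cc n w s t j) ^ 2 :=
      Finset.single_le_sum (f := fun j => (a.1.1 j - cc n w s t j) ^ 2) (fun _ _ => sq_nonneg _)
        (Finset.mem_univ j)
    unfold Qf
    have := sq_nonneg (a.1.2 - (3 / 2 + v))
    linarith
  have hQh : (a.1.2 - (3 / 2 + v)) ^ 2 < 9 / 64 := by
    refine lt_of_le_of_lt ?_ hcon
    unfold Qf
    have : 0 ≤ ∑ j, (a.1.1 j - cc n w s t j) ^ 2 := Finset.sum_nonneg fun _ _ => sq_nonneg _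
    linarith
  have hroot : ∀ r : ℝ, r ^ 2 < 9 / 64 → |r| < 3 / 8 := by
    intro r hr
    have : r ^ 2 < (3 / 8) ^ 2 := by norm_num; linarith
    exact abs_lt_of_sq_lt_sq this (by norm_num)
  refine ⟨fun j => ?_, ?_, ?_⟩
  · have := abs_lt.mp (hroot _ (hQj j))
    obtain ⟨e3, e4⟩ := cc_range (w := w) hs0 hs1 ht0 ht1 j
    constructor <;> linarith [this.1, this.2]
  · have := abs_lt.mp (hroot _ hQh)
    linarith [this.1, this.2]
  · have := abs_lt.mp (hroot _ hQh)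
    linarith [this.1, this.2]

/-- the numerical core: the shift of the centre -/
theorem shift_core {e R0 u A B xh yh η : ℝ} (hη0 : 0 < η) (hη2 : η ≤ 1 / 6144)
    (he0 : 0 < e) (he : e ≤ 1 / 2048) (hηe : η ≤ e) (hR0 : R0 ≤ 1 / 20) (hu : |u| ≤ 1 / 32)
    (hA : |A - R0| ≤ e) (hB : |B - R0| ≤ e) (hxh : 11 / 8 ≤ xh ∧ xh < 11 / 8 + η)
    (hyh : 13 / 8 ≤ yh ∧ yh < 13 / 8 + η) :
    ∃ τ : ℝ, |τ| ≤ 1 / 32 ∧ B - 2 * τ * (yh - (3 / 2 + u)) + τ ^ 2 =
        A - 2 * τ * (xh - (3 / 2 + u)) + τ ^ 2 ∧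
      A - 2 * τ * (xh - (3 / 2 + u)) + τ ^ 2 ≤ 1 / 10 ∧
      ∀ h C : ℝ, (|h - xh| ≤ η ∨ |h - yh| ≤ η) → R0 + 31 * e ≤ C →
        A - 2 * τ * (xh - (3 / 2 + u)) + τ ^ 2 < C - 2 * τ * (h - (3 / 2 + u)) + τ ^ 2 := by
  have hgap : 1 / 8 ≤ yh - xh := by linarith [hxh.2, hyh.1]
  have hden : 0 < 2 * (yh - xh) := by linarith
  obtain ⟨hA1, hA2⟩ := abs_le.mp hA
  obtain ⟨hB1, hB2⟩ := abs_le.mp hB
  obtain ⟨hu1, hu2⟩ := abs_le.mp hu
  obtain ⟨τ, hτ⟩ : ∃ τ, τ = (B - A) / (2 * (yh - xh)) := ⟨_, rfl⟩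
  have hτeq : 2 * τ * (yh - xh) = B - A := by
    rw [hτ]
    field_simp
  have hτ1 : |τ| ≤ 8 * e := by
    rw [hτ, abs_div, abs_of_pos hden, div_le_iff₀ hden, abs_le]
    constructor <;> nlinarith
  have hτ32 : |τ| ≤ 1 / 256 := by linarith
  obtain ⟨hτ2, hτ3⟩ := abs_le.mp hτ32
  have hsmall : ∀ r : ℝ, |r| ≤ η → |2 * τ * r| ≤ e := by
    intro r hr
    rw [abs_mul, abs_mul, abs_two]
    have a2 := abs_nonneg τ
    have a3 := abs_nonneg r
    nlinarith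
  refine ⟨τ, by linarith, by linarith, ?_, ?_⟩
  · have h6 : |2 * τ * (xh - (3 / 2 + u))| ≤ 1 / 256 := by
      rw [abs_mul, abs_mul, abs_two]
      have a1 := abs_nonneg τ
      have a2 := abs_nonneg (xh - (3 / 2 + u))
      have a3 : |xh - (3 / 2 + u)| ≤ 1 / 4 := by
        rw [abs_le]; constructor <;> linarith [hxh.1, hxh.2]
      nlinarith
    have h7 : τ ^ 2 ≤ 1 / 256 := by nlinarith
    have := (abs_le.mp h6).1
    linarith
  · intro h C hh hC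
    rcases hh with hh | hh
    · have h8 := (abs_le.mp (hsmall _ hh)).2
      have : 2 * τ * (h - (3 / 2 + u)) = 2 * τ * (h - xh) + 2 * τ * (xh - (3 / 2 + u)) := by ring
      linarith
    · have h8 := (abs_le.mp (hsmall _ hh)).2
      have h9 : 2 * τ * (h - (3 / 2 + u)) = 2 * τ * (h - yh) + 2 * τ * (yh - xh) +
        2 * τ * (xh - (3 / 2 + u)) := by ring
      rw [h9, hτeq]
      linarith

theorem unique_of_encard {A B : Set (HS (n + 2))} (h : (A ∩ B).encard = 1) {x a : HS (n + 2)}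
    (hx : x ∈ A) (hxB : x ∈ B) (ha : a ∈ A) (haB : a ∈ B) : a = x := by
  rw [Set.encard_eq_one] at h
  obtain ⟨v, hv⟩ := h
  have m1 : a ∈ A ∩ B := ⟨ha, haB⟩
  have m2 : x ∈ A ∩ B := ⟨hx, hxB⟩
  rw [hv, Set.mem_singleton_iff] at m1 m2
  rw [m1, m2]

theorem unit_cluster {A : Set (HS (n + 2))} {w : ℝ} (hw : 1 ≤ w) {m : ℕ} (hm : 0 < m)
    (h1 : ∀ pb : Fin m × Bool, (A ∩ tcu w m pb).encard = 1)
    (h2 : ∀ a ∈ A, a ∈ unitBox w → ∃ pb : Fin m × Bool, a ∈ tcu w m pb) {p q : Fin m}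
    {x y : HS (n + 2)} (hxA : x ∈ A) (hx : x ∈ tcu w m (p, false)) (hyA : y ∈ A)
    (hy : y ∈ tcu w m (q, true)) :
    ∃ z, F z x = F z y ∧ ∀ a ∈ A, a ≠ x → a ≠ y → F z x < F z a := by
  obtain ⟨s, hs⟩ : ∃ s : ℝ, s = ((p : ℕ) : ℝ) / (8 * m) := ⟨_, rfl⟩
  obtain ⟨t, ht⟩ : ∃ t : ℝ, t = ((q : ℕ) : ℝ) / (8 * m) := ⟨_, rfl⟩
  obtain ⟨hs0, hs1⟩ := frac_bound p
  obtain ⟨ht0, ht1⟩ := frac_bound q
  rw [← hs] at hs0 hs1
  rw [← ht] at ht0 ht1
  obtain ⟨u, hu⟩ : ∃ u : ℝ, u = 2 * (s ^ 2 - t ^ 2) := ⟨_, rfl⟩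
  have hu1 : |u| ≤ 1 / 32 := by
    rw [hu, abs_le]; constructor <;> nlinarith
  obtain ⟨e, he⟩ : ∃ e : ℝ, e = (n + 3) * eta n m := ⟨_, rfl⟩
  have hη0 := eta_pos (n := n) hm
  have hη1 := eta_le (n := n) hm
  have hn0 : (0 : ℝ) ≤ n := Nat.cast_nonneg n
  have he0 : 0 < e := by rw [he]; positivity
  have hηe : eta n m ≤ e := by rw [he]; nlinarith
  have hη2 : eta n m ≤ 1 / 6144 := by nlinarith
  rw [← he] at hη1
  obtain ⟨R0, hR0⟩ : ∃ R0 : ℝ, R0 = t ^ 2 + (1 / 8 + u) ^ 2 := ⟨_, rfl⟩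
  have hR0' : R0 = s ^ 2 + (1 / 8 - u) ^ 2 := by rw [hR0, hu]; ring
  have hR0le : R0 ≤ 1 / 20 := by
    obtain ⟨hu2, hu3⟩ := abs_le.mp hu1
    rw [hR0]; nlinarith
  have hPx := pert hs0 hs1 ht0 ht1 hu1 hm _ hx
  have hPy := pert hs0 hs1 ht0 ht1 hu1 hm _ hy
  rw [Qf_X, ← he, ← hs, sub_self] at hPx
  rw [Qf_Y, ← he, ← ht, sub_self] at hPy
  have eX : (0 : ℝ) ^ 2 + t ^ 2 + (1 / 8 + u) ^ 2 = R0 := by rw [hR0]; ring
  have eY : (0 : ℝ) ^ 2 + s ^ 2 + (1 / 8 - u) ^ 2 = R0 := by rw [hR0']; ring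
  rw [eX] at hPx
  rw [eY] at hPy
  have hxh : 11 / 8 ≤ x.1.2 ∧ x.1.2 < 11 / 8 + eta n m := by
    have := hx.2
    have e5 : hoff ((p, false) : Fin m × Bool).2 = -(1 / 8) := rfl
    rw [e5] at this
    constructor <;> linarith [this.1, this.2]
  have hyh : 13 / 8 ≤ y.1.2 ∧ y.1.2 < 13 / 8 + eta n m := by
    have := hy.2
    have e5 : hoff ((q, true) : Fin m × Bool).2 = 1 / 8 := rfl
    rw [e5] at this
    constructor <;> linarith [this.1, this.2]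
  obtain ⟨τ, hτ1, hτ2, hτ3, hτ4⟩ := shift_core hη0 hη2 he0 hη1 hηe hR0le hu1 hPx hPy hxh hyh
  have hshift : ∀ a : HS (n + 2), Qf (cc n w s t) (3 / 2 + (u + τ)) a.1.1 a.1.2 =
      Qf (cc n w s t) (3 / 2 + u) a.1.1 a.1.2 - 2 * τ * (a.1.2 - (3 / 2 + u)) + τ ^ 2 := by
    intro a
    unfold Qf
    ring
  obtain ⟨hu2, hu3⟩ := abs_le.mp hu1
  obtain ⟨hτ5, hτ6⟩ := abs_le.mp hτ1
  obtain ⟨R2, hR2⟩ : ∃ R2 : ℝ, R2 = Qf (cc n w s t) (3 / 2 + u) x.1.1 x.1.2 -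
    2 * τ * (x.1.2 - (3 / 2 + u)) + τ ^ 2 := ⟨_, rfl⟩
  rw [← hR2] at hτ2 hτ3 hτ4
  obtain ⟨z, hz⟩ := exists_center (cc n w s t) (3 / 2 + (u + τ)) R2 (by nlinarith)
  refine ⟨z, ?_, ?_⟩
  · rw [hz x, hz y, hshift x, hshift y, hτ2, ← hR2]
    ring
  · intro a haA hax hay
    have hmain : R2 < Qf (cc n w s t) (3 / 2 + (u + τ)) a.1.1 a.1.2 := by
      by_cases hbox : a ∈ unitBox w
      · obtain ⟨⟨p', b⟩, hpb⟩ := h2 a haA hbox
        rw [hshift a]
        have hPa := pert hs0 hs1 ht0 ht1 hu1 hm _ hpb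
        rw [← he] at hPa
        cases b with
        | false =>
          have hne : p ≠ p' := by
            rintro rfl
            exact hax (unique_of_encard (h1 (p, false)) hxA hx haA hpb)
          have hd := sep (n := n) hm hne
          rw [← hs, ← he] at hd
          rw [Qf_X] at hPa
          have hah : 11 / 8 ≤ a.1.2 ∧ a.1.2 < 11 / 8 + eta n m := by
            have := hpb.2
            have e5 : hoff ((p', false) : Fin m × Bool).2 = -(1 / 8) := rfl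
            rw [e5] at this
            constructor <;> linarith [this.1, this.2]
          apply hτ4
          · left
            rw [abs_le]; constructor <;> linarith [hah.1, hah.2, hxh.1, hxh.2]
          · have := (abs_le.mp hPa).1
            linarith
        | true =>
          have hne : q ≠ p' := by
            rintro rfl
            exact hay (unique_of_encard (h1 (q, true)) hyA hy haA hpb)
          have hd := sep (n := n) hm hne
          rw [← ht, ← he] at hd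
          rw [Qf_Y] at hPa
          have hah : 13 / 8 ≤ a.1.2 ∧ a.1.2 < 13 / 8 + eta n m := by
            have := hpb.2
            have e5 : hoff ((p', true) : Fin m × Bool).2 = 1 / 8 := rfl
            rw [e5] at this
            constructor <;> linarith [this.1, this.2]
          apply hτ4
          · right
            rw [abs_le]; constructor <;> linarith [hah.1, hah.2, hyh.1, hyh.2]
          · have := (abs_le.mp hPa).1
            linarith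
      · have := far hw hs0 hs1 ht0 ht1 (v := u + τ) (by rw [abs_le]; constructor <;> linarith) hbox
        linarith
    rw [hz x, hz a, hshift x, ← hR2, sub_self, zero_div]
    have : 0 < (Qf (cc n w s t) (3 / 2 + (u + τ)) a.1.1 a.1.2 - R2) / (a.1.2 * z.1.2) :=
      div_pos (by linarith) (mul_pos a.2 z.2)
    linarith

end

end Pool.Agent.Y979.AE
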