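import Pool.Agent.Y979.AE.Tube
import Pool.Agent.Y979.AE.Cluster

/-!
# Boxes, pieces and the core path
-/

set_option autoImplicit false

namespace Pool.Agent.Y979.AE

noncomputable section

/-- a piece of the partition of the upper half space -/
def piece {k : ℕ} (w : ℝ) (p : ℤ × (Fin k → ℤ)) : Set (HS k) :=
  {z | (∀ j, w * 2 ^ p.1 * p.2 j ≤ z.1.1 j ∧ z.1.1 j < w * 2 ^ p.1 * (p.2 j + 1)) ∧
    (2 : ℝ) ^ p.1 ≤ z.1.2 ∧ z.1.2 < 2 * (2 : ℝ) ^ p.1}

theorem piece_diam {k : ℕ} {w : ℝ} (hw : 0 < w) {p : ℤ × (Fin k → ℤ)} {z z' : HS k}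
    (hz : z ∈ piece w p) (hz' : z' ∈ piece w p) : F z z' ≤ k * w ^ 2 + 5 / 2 := by
  obtain ⟨h1, h2, h3⟩ := hz
  obtain ⟨h1', h2', h3'⟩ := hz'
  have hP : (0 : ℝ) < 2 ^ p.1 := by positivity
  have hz := z.2
  have hz' := z'.2
  unfold F
  rw [div_le_iff₀ (mul_pos hz hz')]
  have h4 : ∑ i, (z.1.1 i - z'.1.1 i) ^ 2 ≤ k * (w * 2 ^ p.1) ^ 2 := by
    have : ∑ i : Fin k, (z.1.1 i - z'.1.1 i) ^ 2 ≤ ∑ _i : Fin k, (w * 2 ^ p.1) ^ 2 := by
      refine Finset.sum_le_sum fun i _ => ?_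
      rw [← sq_abs]
      apply pow_le_pow_left₀ (abs_nonneg _)
      rw [abs_le]
      have e1 := h1 i
      have e2 := h1' i
      constructor <;> linarith [e1.1, e1.2, e2.1, e2.2]
    refine this.trans (le_of_eq ?_)
    rw [Finset.sum_const, Finset.card_univ, Fintype.card_fin, nsmul_eq_mul]
  have h5 : (2 : ℝ) ^ p.1 * 2 ^ p.1 ≤ z.1.2 * z'.1.2 := mul_le_mul h2 h2' hP.le hz.le
  have h6 : z.1.2 ^ 2 + z'.1.2 ^ 2 ≤ 5 / 2 * (z.1.2 * z'.1.2) := by
    have : 0 ≤ (2 * z.1.2 - z'.1.2) * (2 * z'.1.2 - z.1.2) :=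
      mul_nonneg (by linarith) (by linarith)
    linarith
  have h7 : (k : ℝ) * (w * 2 ^ p.1) ^ 2 ≤ k * w ^ 2 * (z.1.2 * z'.1.2) := by
    have : (k : ℝ) * (w * 2 ^ p.1) ^ 2 = k * w ^ 2 * ((2 : ℝ) ^ p.1 * 2 ^ p.1) := by ring
    rw [this]
    exact mul_le_mul_of_nonneg_left h5 (by positivity)
  linarith

variable {n : ℕ}

/-- the horizontal position of a node -/
def acv (n a : ℕ) (j : Fin (n + 2)) : ℤ := if j = 0 then (a : ℤ) else 0

/-- the height of the bottom of a node of level `l` -/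
def pw (θ l : ℕ) : ℝ := (2 : ℝ) ^ (-((2 * (θ : ℤ) + 1) * l))

theorem pw_pos (θ l : ℕ) : 0 < pw θ l := by unfold pw; positivity

theorem pw_succ (θ l : ℕ) : pw θ l = 2 * ((2 : ℝ) ^ θ) ^ 2 * pw θ (l + 1) := by
  unfold pw
  have e : (2 : ℝ) * ((2 : ℝ) ^ θ) ^ 2 = (2 : ℝ) ^ ((2 * (θ : ℤ) + 1)) := by
    rw [zpow_add₀ (two_ne_zero), zpow_one, zpow_mul, zpow_natCast, mul_comm]
    congr 1
    rw [← pow_mul, mul_comm θ 2, pow_mul]
    norm_cast
  rw [e, ← zpow_add₀ (two_ne_zero)]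
  congr 1
  push_cast
  ring

/-- the side of the boxes of level `l` -/
def side (w : ℝ) (θ l : ℕ) : ℝ := w * 8 * ((2 : ℝ) ^ θ) ^ 4 * pw θ l

theorem side_pos {w : ℝ} (hw : 0 < w) (θ l : ℕ) : 0 < side w θ l := by
  have := pw_pos θ l
  unfold side; positivity

theorem side_succ (w : ℝ) (θ l : ℕ) : side w θ l = 2 * ((2 : ℝ) ^ θ) ^ 2 * side w θ (l + 1) := by
  unfold side
  rw [pw_succ θ l]
  ring

/-- the box of a node -/
def nbox (n : ℕ) (w : ℝ) (θ : ℕ) (v : ℕ × ℕ) : Set (HS (n + 2)) :=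
  {z | (∀ j, side w θ v.1 * acv n v.2 j ≤ z.1.1 j ∧ z.1.1 j < side w θ v.1 * (acv n v.2 j + 1)) ∧
    pw θ v.1 ≤ z.1.2 ∧ z.1.2 < 2 * ((2 : ℝ) ^ θ) ^ 2 * pw θ v.1}

/-- the horizontal centre of a node -/
def cen (n : ℕ) (w : ℝ) (θ : ℕ) (v : ℕ × ℕ) (j : Fin (n + 2)) : ℝ :=
  side w θ v.1 * (acv n v.2 j + 1 / 2)

/-- the middle height -/
def hm (θ l : ℕ) : ℝ := (2 : ℝ) ^ θ * pw θ l

theorem hm_pos (θ l : ℕ) : 0 < hm θ l := by
  have := pw_pos θ l
  unfold hm; positivity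

/-- the central point of a node -/
def opt (n : ℕ) (w : ℝ) (θ : ℕ) (v : ℕ × ℕ) : HS (n + 2) := ⟨(cen n w θ v, hm θ v.1), hm_pos θ v.1⟩

/-- `v'` is a child of `v` -/
def IsChild (θ : ℕ) (v v' : ℕ × ℕ) : Prop :=
  v'.1 = v.1 + 1 ∧ 2 ^ (2 * θ + 1) * v.2 ≤ v'.2 ∧ v'.2 + 1 ≤ 2 ^ (2 * θ + 1) * (v.2 + 1)

theorem child_range {θ : ℕ} {v v' : ℕ × ℕ} (h : IsChild θ v v') {w : ℝ} (hw : 0 < w)
    (j : Fin (n + 2)) : side w θ v.1 * acv n v.2 j ≤ side w θ v'.1 * acv n v'.2 j ∧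
      side w θ v'.1 * (acv n v'.2 j + 1) ≤ side w θ v.1 * (acv n v.2 j + 1) := by
  obtain ⟨h1, h2, h3⟩ := h
  rw [side_succ w θ v.1, h1]
  have hs := side_pos hw θ (v.1 + 1)
  set q : ℝ := (2 : ℝ) ^ θ with hq
  have hq1 : 1 ≤ q := one_le_pow₀ (by norm_num)
  have e2 : ((2 ^ (2 * θ + 1) : ℕ) : ℝ) = 2 * q ^ 2 := by
    rw [hq]; push_cast; rw [pow_succ, mul_comm 2 θ, pow_mul]; ring
  by_cases hj : j = 0
  · have a1 : ((acv n v.2 j : ℤ) : ℝ) = v.2 := by simp [acv, hj]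
    have a2 : ((acv n v'.2 j : ℤ) : ℝ) = v'.2 := by simp [acv, hj]
    rw [a1, a2]
    have b1 : 2 * q ^ 2 * (v.2 : ℝ) ≤ v'.2 := by
      rw [← e2]; exact_mod_cast h2
    have b2 : (v'.2 : ℝ) + 1 ≤ 2 * q ^ 2 * (v.2 + 1) := by
      rw [← e2]; exact_mod_cast h3
    constructor
    · have := mul_le_mul_of_nonneg_left b1 hs.le
      linarith
    · have := mul_le_mul_of_nonneg_left b2 hs.le
      linarith
  · have a1 : ((acv n v.2 j : ℤ) : ℝ) = 0 := by simp [acv, hj]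
    have a2 : ((acv n v'.2 j : ℤ) : ℝ) = 0 := by simp [acv, hj]
    rw [a1, a2]
    constructor
    · simp
    · have hq2 : 1 ≤ 2 * q ^ 2 := by nlinarith
      have : side w θ (v.1 + 1) ≤ 2 * q ^ 2 * side w θ (v.1 + 1) :=
        le_mul_of_one_le_left hs.le hq2
      linarith

/-- the core path from `v` to its child `v'` -/
def core (n : ℕ) (w : ℝ) (θ : ℕ) (v v' : ℕ × ℕ) : Set (HS (n + 2)) :=
  {z | ∃ s ∈ Set.Icc (0 : ℝ) 1, (∀ j, z.1.1 j = (1 - s) * cen n w θ v j + s * cen n w θ v' j) ∧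
    z.1.2 = hm θ v.1} ∪
  {z | (∀ j, z.1.1 j = cen n w θ v' j) ∧ hm θ v'.1 ≤ z.1.2 ∧ z.1.2 ≤ hm θ v.1}

theorem opt_mem_core_left (w : ℝ) (θ : ℕ) (v v' : ℕ × ℕ) :
    opt n w θ v ∈ core n w θ v v' := by
  left
  exact ⟨0, ⟨le_rfl, zero_le_one⟩, fun j => by simp [opt], rfl⟩

theorem hm_succ_le (θ l : ℕ) : hm θ (l + 1) ≤ hm θ l := by
  unfold hm
  rw [pw_succ θ l]
  have h1 := pw_pos θ (l + 1)
  set q : ℝ := (2 : ℝ) ^ θ
  have hq1 : 1 ≤ q := one_le_pow₀ (by norm_num)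
  have hq2 : 1 ≤ 2 * q ^ 2 := by nlinarith
  have : pw θ (l + 1) ≤ 2 * q ^ 2 * pw θ (l + 1) := le_mul_of_one_le_left h1.le hq2
  exact mul_le_mul_of_nonneg_left this (by linarith)

theorem opt_mem_core_right (w : ℝ) {θ : ℕ} {v v' : ℕ × ℕ} (h : IsChild θ v v') :
    opt n w θ v' ∈ core n w θ v v' := by
  right
  refine ⟨fun j => rfl, le_rfl, ?_⟩
  show hm θ v'.1 ≤ hm θ v.1
  rw [h.1]
  exact hm_succ_le θ v.1

theorem isPreconnected_core (w : ℝ) {θ : ℕ} {v v' : ℕ × ℕ} (h : IsChild θ v v') :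
    IsPreconnected (core n w θ v v') := by
  have hle : hm θ v'.1 ≤ hm θ v.1 := by rw [h.1]; exact hm_succ_le θ v.1
  have hpos := hm_pos θ v.1
  let f : ℝ → HS (n + 2) := fun s =>
    ⟨(fun j => (1 - s) * cen n w θ v j + s * cen n w θ v' j, hm θ v.1), hpos⟩
  have hf : Continuous f := by
    apply Continuous.subtype_mk
    fun_prop
  let g : ℝ → HS (n + 2) := fun s =>
    ⟨(cen n w θ v', max s (hm θ v'.1)), lt_of_lt_of_le (hm_pos θ v'.1) (le_max_right _ _)⟩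
  have hg : Continuous g := by
    apply Continuous.subtype_mk
    fun_prop
  have e1 : {z : HS (n + 2) | ∃ s ∈ Set.Icc (0 : ℝ) 1,
      (∀ j, z.1.1 j = (1 - s) * cen n w θ v j + s * cen n w θ v' j) ∧ z.1.2 = hm θ v.1} =
      f '' Set.Icc 0 1 := by
    ext z
    constructor
    · rintro ⟨s, hs, h1, h2⟩
      refine ⟨s, hs, ?_⟩
      apply Subtype.ext
      exact Prod.ext (funext fun j => (h1 j).symm) h2.symm
    · rintro ⟨s, hs, rfl⟩
      exact ⟨s, hs, fun j => rfl, rfl⟩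
  have e2 : {z : HS (n + 2) | (∀ j, z.1.1 j = cen n w θ v' j) ∧ hm θ v'.1 ≤ z.1.2 ∧
      z.1.2 ≤ hm θ v.1} = g '' Set.Icc (hm θ v'.1) (hm θ v.1) := by
    ext z
    constructor
    · rintro ⟨h1, h2, h3⟩
      refine ⟨z.1.2, ⟨h2, h3⟩, ?_⟩
      apply Subtype.ext
      refine Prod.ext (funext fun j => (h1 j).symm) ?_
      exact max_eq_left h2
    · rintro ⟨s, hs, rfl⟩
      refine ⟨fun j => rfl, le_max_right _ _, max_le hs.2 hle⟩
  unfold core
  rw [e1, e2]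
  apply IsPreconnected.union (f 1)
  · exact ⟨1, ⟨zero_le_one, le_rfl⟩, rfl⟩
  · refine ⟨hm θ v.1, ⟨hle, le_rfl⟩, ?_⟩
    apply Subtype.ext
    refine Prod.ext (funext fun j => ?_) (max_eq_left hle)
    show cen n w θ v' j = (1 - 1) * cen n w θ v j + 1 * cen n w θ v' j
    ring
  · exact isPreconnected_Icc.image f hf.continuousOn
  · exact isPreconnected_Icc.image g hg.continuousOn

theorem tube_core {w : ℝ} (hw : 1 ≤ w) {θ : ℕ} {v v' : ℕ × ℕ} (h : IsChild θ v v') {T : ℝ}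
    (hT : T < (2 : ℝ) ^ θ) {t z : HS (n + 2)} (ht : t ∈ core n w θ v v') (hF : F t z ≤ T) :
    z ∈ nbox n w θ v ∪ nbox n w θ v' := by
  have hT2 : 2 ≤ T := (two_le_F t z).trans hF
  have hch := fun j => child_range (n := n) h (w := w) (by linarith) j
  have hl := h.1
  have hs1 := side_succ w θ v.1
  have hp1 := pw_succ θ v.1
  rw [← hl] at hs1 hp1
  have hpp := pw_pos θ v'.1
  have htz := height_le_of_F hF
  have hF' : F z t ≤ T := by rwa [F_comm]
  have hzt := height_le_of_F hF'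
  have hhz := fun j => horiz_le_of_F hF' j
  have htp := t.2
  have hzp := z.2
  obtain ⟨q, hq⟩ : ∃ q : ℝ, q = (2 : ℝ) ^ θ := ⟨_, rfl⟩
  have hside : side w θ v'.1 = w * 8 * q ^ 4 * pw θ v'.1 := by rw [hq]; rfl
  have hmv : hm θ v.1 = q * pw θ v.1 := by rw [hq]; rfl
  have hmv' : hm θ v'.1 = q * pw θ v'.1 := by rw [hq]; rfl
  rw [← hq] at hT hs1 hp1
  have hq2 : 2 < q := by linarith
  set P := pw θ v.1 with hP
  set P' := pw θ v'.1 with hP'
  set s := side w θ v.1 with hs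
  set s' := side w θ v'.1 with hs'
  have hPpos : 0 < P := pw_pos θ v.1
  have hs'pos : 0 < s' := side_pos (by linarith) θ v'.1
  -- half of the side of the child
  have hhalf : q ^ 2 * P ≤ s' / 2 := by
    rw [hside, hp1]
    have : q ^ 2 * (2 * q ^ 2 * P') = 2 * (q ^ 4 * P') := by ring
    rw [this]
    have h4 : 0 < q ^ 4 * P' := by positivity
    nlinarith
  rcases ht with ⟨σ, ⟨hσ0, hσ1⟩, htx, hth⟩ | ⟨htx, hth1, hth2⟩
  · -- the horizontal part
    left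
    rw [hmv] at hth
    refine ⟨fun j => ?_, ?_, ?_⟩
    · have h1 := hhz j
      have h2 : T * t.1.2 < q ^ 2 * P := by
        rw [hth]
        have : 0 < q * P := by positivity
        nlinarith
      have h3 := htx j
      obtain ⟨h4, h5⟩ := hch j
      have h6 : cen n w θ v j = s * (acv n v.2 j + 1 / 2) := rfl
      have h7 : cen n w θ v' j = s' * (acv n v'.2 j + 1 / 2) := rfl
      have h8 : s' ≤ s := by
        rw [hs1]; nlinarith
      have h9 : s * acv n v.2 j + s' / 2 ≤ t.1.1 j := by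
        rw [h3, h6, h7]
        nlinarith
      have h10 : t.1.1 j ≤ s * (acv n v.2 j + 1) - s' / 2 := by
        rw [h3, h6, h7]
        nlinarith
      rw [abs_le] at h1
      constructor
      · show s * acv n v.2 j ≤ z.1.1 j
        linarith [h1.1, h1.2]
      · show z.1.1 j < s * (acv n v.2 j + 1)
        linarith [h1.1, h1.2]
    · show P ≤ z.1.2
      rw [hth] at htz
      by_contra hcon
      push Not at hcon
      have : T * z.1.2 < q * P := by nlinarith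
      linarith
    · show z.1.2 < 2 * ((2 : ℝ) ^ θ) ^ 2 * P
      rw [← hq]
      rw [hth] at hzt
      have : T * (q * P) < q * (q * P) := by
        apply mul_lt_mul_of_pos_right hT (by positivity)
      nlinarith
  · -- the vertical part
    rw [hmv'] at hth1
    rw [hmv] at hth2
    have hx : ∀ j, s' * acv n v'.2 j ≤ z.1.1 j ∧ z.1.1 j < s' * (acv n v'.2 j + 1) := by
      intro j
      have h1 := hhz j
      have h2 : T * t.1.2 < q ^ 2 * P := by
        have e1 : T * t.1.2 ≤ T * (q * P) := mul_le_mul_of_nonneg_left hth2 (by linarith)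
        have e2 : T * (q * P) < q * (q * P) := mul_lt_mul_of_pos_right hT (by positivity)
        nlinarith
      have h7 : cen n w θ v' j = s' * (acv n v'.2 j + 1 / 2) := rfl
      rw [htx j, h7, abs_le] at h1
      constructor <;> linarith [h1.1, h1.2]
    have hlow : P' ≤ z.1.2 := by
      by_contra hcon
      push Not at hcon
      have : T * z.1.2 < q * P' := by nlinarith
      linarith
    have hhigh : z.1.2 < 2 * q ^ 2 * P := by
      have e1 : T * t.1.2 ≤ T * (q * P) := mul_le_mul_of_nonneg_left hth2 (by linarith)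
      have e2 : T * (q * P) < q * (q * P) := mul_lt_mul_of_pos_right hT (by positivity)
      nlinarith
    rcases lt_or_ge z.1.2 P with hcase | hcase
    · right
      refine ⟨hx, hlow, ?_⟩
      show z.1.2 < 2 * ((2 : ℝ) ^ θ) ^ 2 * P'
      rw [← hq, ← hp1]
      exact hcase
    · left
      refine ⟨fun j => ?_, hcase, ?_⟩
      · obtain ⟨h4, h5⟩ := hch j
        have := hx j
        exact ⟨h4.trans this.1, lt_of_lt_of_le this.2 h5⟩
      · show z.1.2 < 2 * ((2 : ℝ) ^ θ) ^ 2 * P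
        rw [← hq]
        exact hhigh

/-- the neighbourhood of the central point -/
theorem tube_opt {w : ℝ} (hw : 1 ≤ w) {θ : ℕ} {v : ℕ × ℕ} {T : ℝ}
    (hT : T < (2 : ℝ) ^ θ) {z : HS (n + 2)} (hF : F (opt n w θ v) z ≤ T) :
    z ∈ nbox n w θ v := by
  have hT2 : 2 ≤ T := (two_le_F _ z).trans hF
  have htz := height_le_of_F hF
  have hF' : F z (opt n w θ v) ≤ T := by rwa [F_comm]
  have hzt := height_le_of_F hF'
  have hhz := fun j => horiz_le_of_F hF' j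
  have hzp := z.2
  have e1 : (opt n w θ v).1.2 = hm θ v.1 := rfl
  have e2 : ∀ j, (opt n w θ v).1.1 j = cen n w θ v j := fun j => rfl
  rw [e1] at htz hzt
  obtain ⟨q, hq⟩ : ∃ q : ℝ, q = (2 : ℝ) ^ θ := ⟨_, rfl⟩
  have hside : side w θ v.1 = w * 8 * q ^ 4 * pw θ v.1 := by rw [hq]; rfl
  have hmv : hm θ v.1 = q * pw θ v.1 := by rw [hq]; rfl
  rw [← hq] at hT
  have hq2 : 2 < q := by linarith
  set P := pw θ v.1 with hP
  set s := side w θ v.1 with hs
  have hPpos : 0 < P := pw_pos θ v.1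
  rw [hmv] at htz hzt
  have hqP : T * (q * P) < q * (q * P) := mul_lt_mul_of_pos_right hT (by positivity)
  have hhalf : q * (q * P) ≤ s / 2 := by
    rw [hside]
    have h4 : 0 < q ^ 4 * P := by positivity
    have h5 : q * (q * P) ≤ q ^ 4 * P := by
      have : q * (q * P) = q ^ 2 * P := by ring
      rw [this]
      apply mul_le_mul_of_nonneg_right _ hPpos.le
      exact pow_le_pow_right₀ (by linarith) (by norm_num)
    nlinarith
  refine ⟨fun j => ?_, ?_, ?_⟩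
  · have h1 := hhz j
    rw [e1, e2, hmv] at h1
    have h7 : cen n w θ v j = s * (acv n v.2 j + 1 / 2) := rfl
    rw [h7, abs_le] at h1
    constructor
    · show s * acv n v.2 j ≤ z.1.1 j
      linarith [h1.1, h1.2]
    · show z.1.1 j < s * (acv n v.2 j + 1)
      linarith [h1.1, h1.2]
  · show P ≤ z.1.2
    by_contra hcon
    push Not at hcon
    have : T * z.1.2 < q * P := by nlinarith
    linarith
  · show z.1.2 < 2 * ((2 : ℝ) ^ θ) ^ 2 * P
    rw [← hq]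
    nlinarith

end

end Pool.Agent.Y979.AE
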