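import Pool.Agent.Y979.AE.Geo

/-!
# Convex combinations in the upper half space and star shaped cells
-/

set_option autoImplicit false

namespace Pool.Agent.Y979.AE

noncomputable section

variable {k : ℕ}

/-- the square of the Euclidean norm -/
def nsq (z : HS k) : ℝ := ∑ i, z.1.1 i ^ 2 + z.1.2 ^ 2

theorem F_expand (z w : HS k) : F z w * w.1.2 * z.1.2 =
    nsq z - 2 * ∑ i, z.1.1 i * w.1.1 i + nsq w := by
  have hz := z.2
  have hw := w.2
  unfold F nsq
  have : ∑ i, (z.1.1 i - w.1.1 i) ^ 2 =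
      ∑ i, z.1.1 i ^ 2 - 2 * ∑ i, z.1.1 i * w.1.1 i + ∑ i, w.1.1 i ^ 2 := by
    rw [Finset.mul_sum, ← Finset.sum_sub_distrib, ← Finset.sum_add_distrib]
    exact Finset.sum_congr rfl fun i _ => by ring
  rw [this]
  field_simp
  ring

/-- the point that corresponds to a combination of two points of the hyperboloid -/
theorem exists_comb (z w : HS k) (α β : ℝ) (hα : 0 ≤ α) (hβ : 0 ≤ β) (h : 0 < α + β) :
    ∃ (u : HS k) (c : ℝ), 0 < c ∧ c ^ 2 = α ^ 2 + β ^ 2 + α * β * F z w ∧
      ∀ p : HS k, c * F u p = α * F z p + β * F w p := by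
  have hz := z.2
  have hw := w.2
  set T : ℝ := α / z.1.2 + β / w.1.2 with hT
  have hTpos : 0 < T := by
    rcases hα.lt_or_eq with h1 | h1
    · have : 0 < α / z.1.2 := by positivity
      have : 0 ≤ β / w.1.2 := by positivity
      linarith
    · have hb : 0 < β := by linarith
      have : 0 < β / w.1.2 := by positivity
      have : 0 ≤ α / z.1.2 := by positivity
      linarith
  set a : ℝ := α / z.1.2 / T with ha
  set b : ℝ := β / w.1.2 / T with hb
  have ha0 : 0 ≤ a := by positivity
  have hb0 : 0 ≤ b := by positivity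
  have hab : a + b = 1 := by
    rw [ha, hb, ← add_div, ← hT, div_self hTpos.ne']
  set x : Fin k → ℝ := fun i => a * z.1.1 i + b * w.1.1 i with hx
  set M : ℝ := a * nsq z + b * nsq w with hM
  have hgap : ∑ i, x i ^ 2 + (a * z.1.2 ^ 2 + b * w.1.2 ^ 2) ≤ M := by
    have h1 : ∑ i, x i ^ 2 ≤ a * ∑ i, z.1.1 i ^ 2 + b * ∑ i, w.1.1 i ^ 2 := by
      rw [Finset.mul_sum, Finset.mul_sum, ← Finset.sum_add_distrib]
      refine Finset.sum_le_sum fun i _ => ?_
      have hb' : b = 1 - a := by linarith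
      simp only [hx]
      rw [hb']
      nlinarith [mul_nonneg ha0 (show 0 ≤ 1 - a by linarith), sq_nonneg (z.1.1 i - w.1.1 i)]
    rw [hM]
    unfold nsq
    linarith
  have hpos : 0 < a * z.1.2 ^ 2 + b * w.1.2 ^ 2 := by
    rcases ha0.lt_or_eq with h1 | h1
    · have : 0 < a * z.1.2 ^ 2 := by positivity
      have : 0 ≤ b * w.1.2 ^ 2 := by positivity
      linarith
    · have hb1 : 0 < b := by linarith
      have : 0 < b * w.1.2 ^ 2 := by positivity
      have : 0 ≤ a * z.1.2 ^ 2 := by positivity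
      linarith
  have hD : 0 < M - ∑ i, x i ^ 2 := by linarith
  set y : ℝ := √(M - ∑ i, x i ^ 2) with hy
  have hypos : 0 < y := Real.sqrt_pos.mpr hD
  have hysq : y ^ 2 = M - ∑ i, x i ^ 2 := Real.sq_sqrt hD.le
  let u : HS k := ⟨(x, y), hypos⟩
  have hlin : ∀ p : HS k, (T * y) * F u p = α * F z p + β * F w p := by
    intro p
    have hp := p.2
    have e1 := F_expand u p
    have e2 := F_expand z p
    have e3 := F_expand w p
    have e4 : nsq u = M := by
      show ∑ i, x i ^ 2 + y ^ 2 = M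
      rw [hysq]; ring
    have e5 : ∑ i, u.1.1 i * p.1.1 i =
        a * ∑ i, z.1.1 i * p.1.1 i + b * ∑ i, w.1.1 i * p.1.1 i := by
      rw [Finset.mul_sum, Finset.mul_sum, ← Finset.sum_add_distrib]
      refine Finset.sum_congr rfl fun i _ => ?_
      show (a * z.1.1 i + b * w.1.1 i) * p.1.1 i = _
      ring
    have e6 : u.1.2 = y := rfl
    rw [e4, e5, e6] at e1
    have haT : a * T = α / z.1.2 := by rw [ha]; field_simp
    have hbT : b * T = β / w.1.2 := by rw [hb]; field_simp
    have e7 : (T * y) * F u p * p.1.2 = (α * F z p + β * F w p) * p.1.2 := by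
      have f1 : T * (F u p * p.1.2 * y) =
          (a * T) * (nsq z - 2 * ∑ i, z.1.1 i * p.1.1 i + nsq p) +
          (b * T) * (nsq w - 2 * ∑ i, w.1.1 i * p.1.1 i + nsq p) := by
        rw [e1, hM]
        have : nsq p = (a + b) * nsq p := by rw [hab, one_mul]
        linear_combination T * this
      rw [← e2, ← e3, haT, hbT] at f1
      have f2 : α / z.1.2 * (F z p * p.1.2 * z.1.2) = α * F z p * p.1.2 := by
        field_simp
      have f3 : β / w.1.2 * (F w p * p.1.2 * w.1.2) = β * F w p * p.1.2 := by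
        field_simp
      rw [f2, f3] at f1
      linarith
    exact mul_right_cancel₀ hp.ne' e7
  refine ⟨u, T * y, by positivity, ?_, hlin⟩
  have g1 := hlin u
  have g2 := hlin z
  have g3 := hlin w
  rw [F_self] at g1 g2 g3
  rw [F_comm z u, F_comm w u] at g1
  rw [F_comm w z] at g2
  set c := T * y
  have g4 : 2 * c ^ 2 = α * (c * F u z) + β * (c * F u w) := by
    have : c * (c * 2) = c * (α * F u z + β * F u w) := by rw [g1]
    linarith
  rw [g2, g3] at g4
  linarith

/-- points of the geodesic from `y` to `z` -/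
theorem exists_mem_cell {A : Set (HS k)} {y z : HS k} (hz : z ∈ cell A y) {r : ℝ} (hr : 0 ≤ r)
    (hrz : r ≤ hdist z y) : ∃ z' ∈ cell A y, hdist z' y = r := by
  have hF := F_eq_of_hdist z y
  set Φ := F z y with hΦ
  have hΦ2 : 2 ≤ Φ := two_le_F z y
  -- the intermediate value theorem for the explicit function
  let f : ℝ → ℝ := fun s => (2 * (1 - s) + s * Φ) / √((1 - s) ^ 2 + s ^ 2 + (1 - s) * s * Φ)
  have hpos : ∀ s ∈ Set.Icc (0 : ℝ) 1, 0 < (1 - s) ^ 2 + s ^ 2 + (1 - s) * s * Φ := by
    rintro s ⟨h0, h1⟩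
    have : 0 ≤ (1 - s) * s * Φ := by
      apply mul_nonneg (mul_nonneg (by linarith) h0); linarith
    nlinarith [sq_nonneg (1 - s), sq_nonneg s, sq_nonneg (1 - 2 * s)]
  have hcont : ContinuousOn f (Set.Icc 0 1) := by
    apply ContinuousOn.div
    · fun_prop
    · fun_prop
    · intro s hs
      exact (Real.sqrt_pos.mpr (hpos s hs)).ne'
  have hf0 : f 0 = 2 := by simp [f]
  have hf1 : f 1 = Φ := by simp [f]
  have hcr : 2 ≤ 2 * Real.cosh r := by
    have := Real.one_le_cosh r
    linarith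
  have hcr2 : 2 * Real.cosh r ≤ Φ := by
    rw [hF]
    have : Real.cosh r ≤ Real.cosh (hdist z y) := by
      rw [Real.cosh_le_cosh, abs_of_nonneg hr, abs_of_nonneg (hr.trans hrz)]
      exact hrz
    linarith
  have hmem : 2 * Real.cosh r ∈ Set.Icc (f 0) (f 1) := by
    rw [hf0, hf1]; exact ⟨hcr, hcr2⟩
  obtain ⟨s, hs, hfs⟩ := intermediate_value_Icc zero_le_one hcont hmem
  obtain ⟨u, c, hc, hc2, hlin⟩ := exists_comb y z (1 - s) s (by linarith [hs.2]) hs.1 (by linarith)
  refine ⟨u, ?_, ?_⟩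
  · intro a ha
    rw [hdist_le_iff]
    have h1 := hlin y
    have h2 := hlin a
    rw [F_self] at h1
    have h3 := hdist_le_iff.mp (hz a ha)
    have h4 := two_le_F y a
    have h5 : c * F u y ≤ c * F u a := by
      rw [h1, h2]
      have : (1 - s) * 2 ≤ (1 - s) * F y a := mul_le_mul_of_nonneg_left h4 (by linarith [hs.2])
      have : s * F z y ≤ s * F z a := mul_le_mul_of_nonneg_left h3 hs.1
      linarith
    exact le_of_mul_le_mul_left h5 hc
  · have h1 := hlin y
    rw [F_self] at h1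
    have hcs : c = √((1 - s) ^ 2 + s ^ 2 + (1 - s) * s * Φ) := by
      rw [hΦ, F_comm z y, ← hc2, Real.sqrt_sq hc.le]
    have h2 : F u y = f s := by
      simp only [f]
      rw [← hcs, eq_div_iff hc.ne']
      linarith
    rw [hfs] at h2
    have h3 := F_eq_of_hdist u y
    have h4 : Real.cosh (hdist u y) = Real.cosh r := by linarith
    have h5 : |hdist u y| = |r| := by
      apply le_antisymm
      · rw [← Real.cosh_le_cosh, h4]
      · rw [← Real.cosh_le_cosh, h4]
    rwa [abs_of_nonneg (hdist_nonneg u y), abs_of_nonneg hr] at h5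

end

end Pool.Agent.Y979.AE
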