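import Mathlib

/-!
# Poisson-Voronoi graphs in real hyperbolic space and anchored expansion: definitions

Real hyperbolic space of dimension `k + 1` is the upper half space with its metric of curvature
`-1` and its volume measure `dx dy / y ^ (k + 1)`.
-/

set_option autoImplicit false

open MeasureTheory
open scoped ENNReal

namespace Pool.Agent.Y979.AE

/-- The upper half space of dimension `k + 1`: the points `(x, y)` with `x ∈ ℝ ^ k` and `y > 0`. -/
abbrev HS (k : ℕ) := {p : (Fin k → ℝ) × ℝ // 0 < p.2}

/-- the square of the Euclidean distance -/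
def esq {k : ℕ} (z w : HS k) : ℝ := ∑ i, (z.1.1 i - w.1.1 i) ^ 2 + (z.1.2 - w.1.2) ^ 2

/-- the hyperbolic distance (curvature `-1`) -/
noncomputable def hdist {k : ℕ} (z w : HS k) : ℝ :=
  2 * Real.arsinh (√(esq z w) / (2 * √(z.1.2 * w.1.2)))

/-- the hyperbolic volume `dx dy / y ^ (k + 1)` -/
noncomputable def hvol (k : ℕ) : Measure (HS k) :=
  Measure.comap Subtype.val
    (volume.withDensity fun p : (Fin k → ℝ) × ℝ => ENNReal.ofReal ((p.2 ^ (k + 1))⁻¹))

/-- `Q` is a Poisson point process with intensity measure `lam * μ`: the number of points in a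
measurable set `B` is a random variable, it has the Poisson law with mean `lam * μ B` when `B` has
finite measure, and the numbers of points in pairwise disjoint sets are independent. -/
structure IsPoissonProcess {Ω X : Type*} [MeasurableSpace Ω] [MeasurableSpace X] (P : Measure Ω)
    (μ : Measure X) (lam : ℝ) (Q : Ω → Set X) : Prop where
  measurable_count : ∀ B : Set X, MeasurableSet B → Measurable (fun ω => (Q ω ∩ B).encard)
  law_count : ∀ B : Set X, MeasurableSet B → μ B ≠ ⊤ → ∀ n : ℕ,
    P {ω | (Q ω ∩ B).encard = (n : ℕ∞)} =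
      ENNReal.ofReal (Real.exp (-(lam * (μ B).toReal)) * (lam * (μ B).toReal) ^ n /
        (n.factorial : ℝ))
  indep_count : ∀ (m : ℕ) (B : Fin m → Set X), (∀ i, MeasurableSet (B i)) →
    Pairwise (fun i j => Disjoint (B i) (B j)) →
    ProbabilityTheory.iIndepFun (fun i ω => (Q ω ∩ B i).encard) P

/-- the Voronoi cell of `x` for the point set `A` -/
def cell {k : ℕ} (A : Set (HS k)) (x : HS k) : Set (HS k) := {z | ∀ y ∈ A, hdist z x ≤ hdist z y}

/-- The dual graph of the Voronoi tessellation of the point set `A`. The vertices are the points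
of `A`. Two of them are adjacent when the intersection of their cells is a face of codimension one:
it contains a neighbourhood of some point `z` within the bisector of the two points. -/
def voronoiGraph {k : ℕ} (A : Set (HS k)) : SimpleGraph A where
  Adj x y := x ≠ y ∧ ∃ (z : HS k) (ε : ℝ), 0 < ε ∧ hdist z x = hdist z y ∧
    ∀ w : HS k, hdist w x = hdist w y → hdist w z < ε → w ∈ cell A x ∩ cell A y
  symm := ⟨fun _ _ ⟨h, z, ε, hε, hz, hw⟩ =>
    ⟨h.symm, z, ε, hε, hz.symm, fun w h1 h2 => (hw w h1.symm h2).symm⟩⟩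
  loopless := ⟨fun _ h => h.1 rfl⟩

/-- `|S|_E`: the sum of the degrees of the vertices in `S` -/
noncomputable def degSum {V : Type*} (G : SimpleGraph V) (S : Finset V) : ℕ∞ :=
  ∑ v ∈ S, (G.neighborSet v).encard

/-- the edges with exactly one endpoint in `S` -/
def edgeBoundary {V : Type*} (G : SimpleGraph V) (S : Finset V) : Set (Sym2 V) :=
  {e | e ∈ G.edgeSet ∧ ∃ v ∈ S, ∃ w ∉ S, e = s(v, w)}

/-- The infimum of `|∂_E S| / |S|_E` over all finite connected sets `S` of vertices that contain
`ρ` and satisfy `n ≤ |S|_E < ∞`. -/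
noncomputable def isoInf {V : Type*} (G : SimpleGraph V) (ρ : V) (n : ℕ) : ℝ≥0∞ :=
  ⨅ (S : Finset V) (_ : ρ ∈ S) (_ : (G.induce (S : Set V)).Connected) (_ : (n : ℕ∞) ≤ degSum G S)
    (_ : degSum G S < ⊤), ((edgeBoundary G S).encard : ℝ≥0∞) / (degSum G S : ℝ≥0∞)

end Pool.Agent.Y979.AE
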