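import Pool.Agent.Y979.AE.Pieces

/-!
# The deterministic construction
-/

set_option autoImplicit false

namespace Pool.Agent.Y979.AE

noncomputable section

variable {n : ℕ}

/-- the number of points in a piece is between `1` and `K0` -/
def OKp (w : ℝ) (K0 : ℕ) (A : Set (HS (n + 2))) (p : ℤ × (Fin (n + 2) → ℤ)) : Prop :=
  1 ≤ (A ∩ piece w p).encard ∧ (A ∩ piece w p).encard ≤ K0

/-- a good node -/
def Good (w : ℝ) (θ K0 : ℕ) (A : Set (HS (n + 2))) (v : ℕ × ℕ) : Prop :=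
  ∀ p ∈ Ifin n θ v, OKp w K0 A p

/-- a node with a cluster -/
def Special (w : ℝ) (θ K0 m : ℕ) (A : Set (HS (n + 2))) (v : ℕ × ℕ) : Prop :=
  (∀ p ∈ Ifin n θ v, p ≠ starp n θ v → OKp w K0 A p) ∧ ClusterOK w m A (starp n θ v)

/-- there is a path of good nodes of length `N` from `v` to a special node -/
def Ev (w : ℝ) (θ K0 m : ℕ) (A : Set (HS (n + 2))) : ℕ → ℕ × ℕ → Prop
  | 0, v => Special w θ K0 m A v
  | N + 1, v => Good w θ K0 A v ∧
      (Ev w θ K0 m A N (v.1 + 1, 2 ^ (2 * θ + 1) * v.2) ∨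
        Ev w θ K0 m A N (v.1 + 1, 2 ^ (2 * θ + 1) * v.2 + 1))

theorem isChild_left (θ : ℕ) (v : ℕ × ℕ) : IsChild θ v (v.1 + 1, 2 ^ (2 * θ + 1) * v.2) := by
  refine ⟨rfl, le_rfl, ?_⟩
  show 2 ^ (2 * θ + 1) * v.2 + 1 ≤ 2 ^ (2 * θ + 1) * (v.2 + 1)
  have : 1 ≤ 2 ^ (2 * θ + 1) := Nat.one_le_two_pow
  linarith

theorem isChild_right (θ : ℕ) (v : ℕ × ℕ) :
    IsChild θ v (v.1 + 1, 2 ^ (2 * θ + 1) * v.2 + 1) := by
  refine ⟨rfl, Nat.le_succ _, ?_⟩
  show 2 ^ (2 * θ + 1) * v.2 + 1 + 1 ≤ 2 ^ (2 * θ + 1) * (v.2 + 1)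
  have : 2 ≤ 2 ^ (2 * θ + 1) := by
    calc 2 = 2 ^ 1 := by norm_num
      _ ≤ 2 ^ (2 * θ + 1) := Nat.pow_le_pow_right (by norm_num) (by omega)
  linarith

/-- the boundary pairs -/
def bp {V : Type*} (G : SimpleGraph V) (S : Set V) : Set (V × V) :=
  {p | p.1 ∈ S ∧ p.2 ∉ S ∧ G.Adj p.1 p.2}

theorem encard_val_preimage {X : Type*} (A B : Set X) :
    {y : A | (y : X) ∈ B}.encard = (A ∩ B).encard := by
  have h : A ∩ B = Subtype.val '' {y : A | (y : X) ∈ B} := by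
    ext a
    constructor
    · rintro ⟨h1, h2⟩
      exact ⟨⟨a, h1⟩, h2, rfl⟩
    · rintro ⟨y, h1, rfl⟩
      exact ⟨y.2, h1⟩
  rw [h, Subtype.val_injective.encard_image]

theorem encard_of_pieces {w : ℝ} (hw : 0 < w) {θ K0 : ℕ} {A : Set (HS (n + 2))} {v : ℕ × ℕ}
    {B : Set (HS (n + 2))} (h : ∀ p ∈ Ifin n θ v, (A ∩ piece w p ∩ B).encard ≤ K0) :
    (A ∩ nbox n w θ v ∩ B).encard ≤ ((NI n θ * K0 : ℕ) : ℕ∞) := by
  have h1 : A ∩ nbox n w θ v ∩ B ⊆ ⋃ p ∈ Ifin n θ v, A ∩ piece w p ∩ B := by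
    rintro z ⟨⟨hz1, hz2⟩, hz3⟩
    obtain ⟨p, hp, hzp⟩ := exists_piece hw hz2
    simp only [Set.mem_iUnion]
    exact ⟨p, hp, ⟨hz1, hzp⟩, hz3⟩
  refine (Set.encard_le_encard h1).trans ((Finset.set_encard_biUnion_le _ _).trans ?_)
  refine (Finset.sum_le_sum h).trans ?_
  rw [Finset.sum_const, nsmul_eq_mul]
  have h2 : (Ifin n θ v).card * K0 ≤ NI n θ * K0 := Nat.mul_le_mul_right _ (card_Ifin_le θ v)
  exact_mod_cast h2

theorem cover_of_pieces {w D : ℝ} (hw : 0 < w) (hD : 0 ≤ D)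
    (hDw : ((n + 2 : ℕ) : ℝ) * w ^ 2 + 5 / 2 ≤ 2 * Real.cosh D) {θ : ℕ} {A : Set (HS (n + 2))}
    {v : ℕ × ℕ} (h : ∀ p ∈ Ifin n θ v, (A ∩ piece w p).Nonempty) {z : HS (n + 2)}
    (hz : z ∈ nbox n w θ v) : ∃ a ∈ A, hdist z a ≤ D := by
  obtain ⟨p, hp, hzp⟩ := exists_piece hw hz
  obtain ⟨a, ha, hap⟩ := h p hp
  exact ⟨a, ha, hdist_le_of_F hD ((piece_diam hw hzp hap).trans hDw)⟩

theorem special_nonempty {w : ℝ} {θ K0 m : ℕ} (hm : 0 < m) {A : Set (HS (n + 2))} {v : ℕ × ℕ}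
    (h : Special w θ K0 m A v) (hsub : ∀ pb : Fin m × Bool,
      tc w m (starp n θ v) pb ⊆ piece w (starp n θ v)) :
    ∀ p ∈ Ifin n θ v, (A ∩ piece w p).Nonempty := by
  intro p hp
  by_cases hps : p = starp n θ v
  · have h1 := h.2.1 (⟨0, hm⟩, false)
    obtain ⟨x, hx1, hx2⟩ : (A ∩ tc w m (starp n θ v) (⟨0, hm⟩, false)).Nonempty := by
      rw [← Set.encard_pos, h1]
      exact one_pos
    rw [hps]
    exact ⟨x, hx1, hsub _ hx2⟩
  · rw [← Set.encard_pos]
    exact lt_of_lt_of_le one_pos (h.1 p hp hps).1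

theorem tc_subset {w : ℝ} (hw : 1 ≤ w) {m : ℕ} (hm : 0 < m) (p : ℤ × (Fin (n + 2) → ℤ))
    (pb : Fin m × Bool) : tc w m p pb ⊆ piece w p := by
  rintro z ⟨h1, h2, h3⟩
  have hu : (0 : ℝ) < 2 ^ p.1 := by positivity
  have h4 := eta_pos (n := n) hm
  have h5 := eta_le (n := n) hm
  have h6 : (0 : ℝ) ≤ n := Nat.cast_nonneg n
  have h7 : eta n m ≤ 1 / 2048 := by nlinarith
  have hh : -(1 / 8) ≤ hoff pb.2 ∧ hoff pb.2 ≤ 1 / 8 := by
    unfold hoff
    cases pb.2 <;> simp only [if_true, Bool.false_eq_true, if_false] <;> constructor <;> norm_num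
  refine ⟨fun j => ?_, ?_, ?_⟩
  · obtain ⟨a1, a2⟩ := h1 j
    have b1 := off_nonneg (n := n) pb j
    have b2 := off_le (n := n) pb j
    constructor
    · refine le_trans ?_ a1
      have : w * 2 ^ p.1 * (p.2 j : ℝ) = 2 ^ p.1 * (w * p.2 j) := by ring
      rw [this]
      exact mul_le_mul_of_nonneg_left (by linarith) hu.le
    · refine lt_of_lt_of_le a2 ?_
      have : w * 2 ^ p.1 * ((p.2 j : ℝ) + 1) = 2 ^ p.1 * (w * p.2 j + w) := by ring
      rw [this]
      exact mul_le_mul_of_nonneg_left (by linarith) hu.le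
  · refine le_trans ?_ h2
    nlinarith [hh.1]
  · refine lt_of_lt_of_le h3 ?_
    nlinarith [hh.2]

/-- the data of a set `S` with small boundary that contains a cluster -/
structure Fam (w D : ℝ) (θ K m : ℕ) (A : Set (HS (n + 2))) (v : ℕ × ℕ) (S : Set A) (b : ℕ) :
    Prop where
  near : ∀ y : A, hdist (opt n w θ v) (y : HS (n + 2)) ≤ 3 * D + 3 → y ∈ S
  linked : ∀ x ∈ S, ∀ y ∈ S, Linked (voronoiGraph A) S x y
  bdry : (bp (voronoiGraph A) S).encard ≤ b
  rest : {y : A | (y : HS (n + 2)) ∈ nbox n w θ v ∧ y ∉ S}.encard ≤ K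
  fin : S.Finite
  cover : ∀ z ∈ nbox n w θ v, ∃ a ∈ A, hdist z a ≤ D
  clus : ∃ X Y : Fin m → A, Function.Injective X ∧ Function.Injective Y ∧ (∀ i, X i ∈ S) ∧
    ∀ i j, (voronoiGraph A).Adj (X i) (Y j)

theorem F_lt_of_hdist {D : ℝ} {θ : ℕ} (hθ : 2 * Real.cosh (5 * D + 5) < (2 : ℝ) ^ θ)
    {t z : HS (n + 2)} (h : hdist t z ≤ 5 * D + 5) : F t z ≤ 2 * Real.cosh (5 * D + 5) ∧
      2 * Real.cosh (5 * D + 5) < (2 : ℝ) ^ θ := ⟨F_le_of_hdist h, hθ⟩

theorem base_step {A : Set (HS (n + 2))} (hA : LocFin A) {w D : ℝ} (hw : 1 ≤ w) (hD : 0 ≤ D)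
    (hDw : ((n + 2 : ℕ) : ℝ) * w ^ 2 + 5 / 2 ≤ 2 * Real.cosh D) {θ K0 m : ℕ} (hm : 0 < m)
    (hθ : 2 * Real.cosh (5 * D + 5) < (2 : ℝ) ^ θ) {v : ℕ × ℕ}
    (h : Special w θ K0 m A v) :
    Fam w D θ (NI n θ * K0) m A v (nbd A {opt n w θ v} (3 * D + 3))
      ((NI n θ * K0 + 2 * m) * (NI n θ * K0)) := by
  have hw0 : 0 < w := by linarith
  set K := NI n θ * K0 with hK
  set S := nbd A {opt n w θ v} (3 * D + 3) with hS
  have hne := special_nonempty hm h (fun pb => tc_subset hw hm _ pb)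
  have hcover : ∀ z ∈ nbox n w θ v, ∃ a ∈ A, hdist z a ≤ D := fun z hz =>
    cover_of_pieces hw0 hD hDw hne hz
  have htube : ∀ z, hdist (opt n w θ v) z ≤ 5 * D + 5 → z ∈ nbox n w θ v := fun z hz =>
    tube_opt hw hθ (F_le_of_hdist hz)
  have hcov : ∀ z, hdist (opt n w θ v) z ≤ 5 * D + 5 → ∃ a ∈ A, hdist z a ≤ D := fun z hz =>
    hcover z (htube z hz)
  have hmemS : ∀ y : A, y ∈ S ↔ hdist (opt n w θ v) (y : HS (n + 2)) ≤ 3 * D + 3 := by
    intro y
    constructor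
    · rintro ⟨t, ht, hty⟩
      rw [Set.mem_singleton_iff] at ht
      rwa [ht] at hty
    · intro hy
      exact ⟨_, rfl, hy⟩
  have hstarS : ∀ y : A, (y : HS (n + 2)) ∈ piece w (starp n θ v) → y ∈ S := by
    intro y hy
    rw [hmemS]
    have h1 := piece_diam hw0 (opt_mem_star hw0 θ v) hy
    have h2 := hdist_le_of_F hD (h1.trans hDw)
    linarith
  -- the number of points that are not in the cluster
  have hrest : {y : A | (y : HS (n + 2)) ∈ nbox n w θ v ∧ y ∉ S}.encard ≤ (K : ℕ∞) := by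
    have h1 : {y : A | (y : HS (n + 2)) ∈ nbox n w θ v ∧ y ∉ S}.encard ≤
        (A ∩ nbox n w θ v ∩ (piece w (starp n θ v))ᶜ).encard := by
      rw [Set.inter_assoc, ← encard_val_preimage]
      apply Set.encard_le_encard
      rintro y ⟨h1, h2⟩
      exact ⟨h1, fun h3 => h2 (hstarS y h3)⟩
    refine h1.trans (encard_of_pieces hw0 fun p hp => ?_)
    by_cases hps : p = starp n θ v
    · rw [hps]
      have : A ∩ piece w (starp n θ v) ∩ (piece w (starp n θ v))ᶜ = ∅ := by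
        ext z
        simp
      rw [this, Set.encard_empty]
      exact zero_le
    · exact (Set.encard_le_encard Set.inter_subset_left).trans (h.1 p hp hps).2
  have hall : {y : A | (y : HS (n + 2)) ∈ nbox n w θ v}.encard ≤ ((K + 2 * m : ℕ) : ℕ∞) := by
    have h1 : {y : A | (y : HS (n + 2)) ∈ nbox n w θ v} ⊆
        {y : A | (y : HS (n + 2)) ∈ nbox n w θ v ∩ (piece w (starp n θ v))ᶜ} ∪
        {y : A | (y : HS (n + 2)) ∈ piece w (starp n θ v)} := by
      intro y hy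
      by_cases h3 : (y : HS (n + 2)) ∈ piece w (starp n θ v)
      · exact Or.inr h3
      · exact Or.inl ⟨hy, h3⟩
    refine (Set.encard_le_encard h1).trans ((Set.encard_union_le _ _).trans ?_)
    rw [encard_val_preimage, encard_val_preimage, ← Set.inter_assoc]
    push_cast
    apply add_le_add
    · have h2 := encard_of_pieces (A := A) (v := v) (θ := θ) (K0 := K0)
        (B := (piece w (starp n θ v))ᶜ) hw0 (fun p hp => by
        by_cases hps : p = starp n θ v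
        · rw [hps]
          have : A ∩ piece w (starp n θ v) ∩ (piece w (starp n θ v))ᶜ = ∅ := by
            ext z
            simp
          rw [this, Set.encard_empty]
          exact zero_le
        · exact (Set.encard_le_encard Set.inter_subset_left).trans (h.1 p hp hps).2)
      exact h2
    · have h2 : A ∩ piece w (starp n θ v) ⊆
          ⋃ pb ∈ (Finset.univ : Finset (Fin m × Bool)), A ∩ tc w m (starp n θ v) pb := by
        rintro a ⟨ha, hap⟩
        obtain ⟨pb, hpb⟩ := h.2.2 a ha hap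
        simp only [Set.mem_iUnion]
        exact ⟨pb, Finset.mem_univ _, ha, hpb⟩
      refine (Set.encard_le_encard h2).trans ((Finset.set_encard_biUnion_le _ _).trans ?_)
      rw [Finset.sum_congr rfl fun pb _ => h.2.1 pb, Finset.sum_const, Finset.card_univ,
        Fintype.card_prod, Fintype.card_fin, Fintype.card_bool, nsmul_eq_mul, mul_one]
      push_cast
      rw [mul_comm]
  have hSbox : ∀ y : A, y ∈ S → (y : HS (n + 2)) ∈ nbox n w θ v := by
    intro y hy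
    rw [hmemS] at hy
    exact htube _ (by linarith)
  have hfin : S.Finite := by
    apply Set.Finite.subset _ (fun y hy => hSbox y hy)
    apply Set.finite_of_encard_le_coe hall
  refine ⟨fun y hy => (hmemS y).mpr hy, ?_, ?_, hrest, hfin, hcover, ?_⟩
  · intro x hx y hy
    refine chain_core hA hD isPreconnected_singleton (fun t ht => ?_) hx hy
    rw [Set.mem_singleton_iff] at ht
    rw [ht]
    exact hcov _ (by rw [hdist_self]; linarith)
  · have h1 : bp (voronoiGraph A) S ⊆ {y : A | (y : HS (n + 2)) ∈ nbox n w θ v} ×ˢ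
        {y : A | (y : HS (n + 2)) ∈ nbox n w θ v ∧ y ∉ S} := by
      rintro ⟨x, y⟩ ⟨hx, hy, hadj⟩
      refine ⟨hSbox x hx, ?_, hy⟩
      have hx' := (hmemS x).mp hx
      exact htube _ (adj_near hD hcov hx' hadj)
    refine (Set.encard_le_encard h1).trans ?_
    rw [Set.encard_prod]
    push_cast
    push_cast at hall
    exact mul_le_mul' hall hrest
  · obtain ⟨X, hX1, hX2⟩ := cluster_points hm h.2 false
    obtain ⟨Y, hY1, hY2⟩ := cluster_points hm h.2 true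
    refine ⟨X, Y, hX1, hY1, fun i => hstarS _ (tc_subset hw hm _ _ (hX2 i)), fun i j => ?_⟩
    exact cluster_adj hA hw hm h.2 (hX2 i) (hY2 j)

theorem good_step {A : Set (HS (n + 2))} (hA : LocFin A) {w D : ℝ} (hw : 1 ≤ w) (hD : 0 ≤ D)
    (hDw : ((n + 2 : ℕ) : ℝ) * w ^ 2 + 5 / 2 ≤ 2 * Real.cosh D) {θ K0 m : ℕ}
    (hθ : 2 * Real.cosh (5 * D + 5) < (2 : ℝ) ^ θ) {v v' : ℕ × ℕ} (hv : IsChild θ v v')
    (h : Good w θ K0 A v) {S' : Set A} {b : ℕ} (hS' : Fam w D θ (NI n θ * K0) m A v' S' b) :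
    Fam w D θ (NI n θ * K0) m A v (S' ∪ nbd A (core n w θ v v') (3 * D + 3))
      (b + (2 * (NI n θ * K0)) * (2 * (NI n θ * K0))) := by
  have hw0 : 0 < w := by linarith
  set K := NI n θ * K0 with hK
  set C := core n w θ v v' with hC
  set Pn := nbd A C (3 * D + 3) with hPn
  have hne : ∀ p ∈ Ifin n θ v, (A ∩ piece w p).Nonempty := by
    intro p hp
    rw [← Set.encard_pos]
    exact lt_of_lt_of_le one_pos (h p hp).1
  have hcover : ∀ z ∈ nbox n w θ v, ∃ a ∈ A, hdist z a ≤ D := fun z hz =>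
    cover_of_pieces hw0 hD hDw hne hz
  have htube : ∀ t ∈ C, ∀ z, hdist t z ≤ 5 * D + 5 → z ∈ nbox n w θ v ∪ nbox n w θ v' :=
    fun t ht z hz => tube_core hw hv hθ ht (F_le_of_hdist hz)
  have hcov : ∀ t ∈ C, ∀ z, hdist t z ≤ 5 * D + 5 → ∃ a ∈ A, hdist z a ≤ D := by
    intro t ht z hz
    rcases htube t ht z hz with h1 | h1
    · exact hcover z h1
    · exact hS'.cover z h1
  have hcovC : ∀ t ∈ C, ∃ a ∈ A, hdist t a ≤ D := fun t ht =>
    hcov t ht t (by rw [hdist_self]; linarith)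
  have hnb : {y : A | (y : HS (n + 2)) ∈ nbox n w θ v}.encard ≤ (K : ℕ∞) := by
    rw [encard_val_preimage]
    have := encard_of_pieces (A := A) (v := v) (θ := θ) (K0 := K0) (B := Set.univ) hw0
      (fun p hp => by rw [Set.inter_univ]; exact (h p hp).2)
    rwa [Set.inter_univ] at this
  -- the relevant vertices
  set T : Set A := {y : A | ((y : HS (n + 2)) ∈ nbox n w θ v ∪ nbox n w θ v') ∧ y ∉ S'} with hT
  have hTcard : T.encard ≤ ((2 * K : ℕ) : ℕ∞) := by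
    have h1 : T ⊆ {y : A | (y : HS (n + 2)) ∈ nbox n w θ v} ∪
        {y : A | (y : HS (n + 2)) ∈ nbox n w θ v' ∧ y ∉ S'} := by
      rintro y ⟨h1 | h1, h2⟩
      · exact Or.inl h1
      · exact Or.inr ⟨h1, h2⟩
    refine (Set.encard_le_encard h1).trans ((Set.encard_union_le _ _).trans ?_)
    have h2 := add_le_add hnb hS'.rest
    refine h2.trans (le_of_eq ?_)
    push_cast
    ring
  have hPT : ∀ y ∈ Pn, y ∉ S' → y ∈ T := by
    rintro y ⟨t, ht, hty⟩ hy
    exact ⟨htube t ht _ (by linarith), hy⟩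
  have hoptC : opt n w θ v' ∈ C := opt_mem_core_right w hv
  -- a common vertex
  obtain ⟨a0, ha0, hda0⟩ := hcovC _ hoptC
  have hcommon : (⟨a0, ha0⟩ : A) ∈ S' ∧ (⟨a0, ha0⟩ : A) ∈ Pn :=
    ⟨hS'.near _ (by show hdist _ a0 ≤ _; linarith), ⟨_, hoptC, by show hdist _ a0 ≤ _; linarith⟩⟩
  refine ⟨?_, ?_, ?_, ?_, ?_, hcover, ?_⟩
  · intro y hy
    exact Or.inr ⟨_, opt_mem_core_left w θ v v', hy⟩
  · have key : ∀ x ∈ S' ∪ Pn, Linked (voronoiGraph A) (S' ∪ Pn) x ⟨a0, ha0⟩ := by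
      rintro x (hx | hx)
      · exact (hS'.linked x hx _ hcommon.1).mono Set.subset_union_left
      · exact (chain_core hA hD (isPreconnected_core w hv) hcovC hx hcommon.2).mono
          Set.subset_union_right
    intro x hx y hy
    exact (key x hx).trans (key y hy).symm
  · have h1 : bp (voronoiGraph A) (S' ∪ Pn) ⊆ bp (voronoiGraph A) S' ∪ T ×ˢ T := by
      rintro ⟨x, y⟩ ⟨hx, hy, hadj⟩
      simp only [Set.mem_union, not_or] at hy
      by_cases hxS : x ∈ S'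
      · exact Or.inl ⟨hxS, hy.1, hadj⟩
      · have hxP : x ∈ Pn := hx.resolve_left hxS
        right
        refine ⟨hPT x hxP hxS, ?_, hy.1⟩
        obtain ⟨t, ht, htx⟩ := hxP
        exact htube t ht _ (adj_near hD (hcov t ht) htx hadj)
    refine (Set.encard_le_encard h1).trans ((Set.encard_union_le _ _).trans ?_)
    rw [Set.encard_prod]
    have h2 := add_le_add hS'.bdry (mul_le_mul' hTcard hTcard)
    refine h2.trans (le_of_eq ?_)
    push_cast
    ring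
  · refine (Set.encard_le_encard ?_).trans hnb
    rintro y ⟨h1, -⟩
    exact h1
  · apply Set.Finite.union hS'.fin
    have h1 : Pn ⊆ S' ∪ T := by
      intro y hy
      by_cases hyS : y ∈ S'
      · exact Or.inl hyS
      · exact Or.inr (hPT y hy hyS)
    exact Set.Finite.subset (hS'.fin.union (Set.finite_of_encard_le_coe hTcard)) h1
  · obtain ⟨X, Y, hX, hY, hXS, hadj⟩ := hS'.clus
    exact ⟨X, Y, hX, hY, fun i => Or.inl (hXS i), hadj⟩

theorem exists_fam {A : Set (HS (n + 2))} (hA : LocFin A) {w D : ℝ} (hw : 1 ≤ w) (hD : 0 ≤ D)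
    (hDw : ((n + 2 : ℕ) : ℝ) * w ^ 2 + 5 / 2 ≤ 2 * Real.cosh D) {θ K0 m : ℕ} (hm : 0 < m)
    (hθ : 2 * Real.cosh (5 * D + 5) < (2 : ℝ) ^ θ) (N : ℕ) :
    ∀ v : ℕ × ℕ, Ev w θ K0 m A N v → ∃ S : Set A, Fam w D θ (NI n θ * K0) m A v S
      ((NI n θ * K0 + 2 * m) * (NI n θ * K0) + N * ((2 * (NI n θ * K0)) * (2 * (NI n θ * K0)))) := by
  induction N with
  | zero =>
    intro v hv
    refine ⟨nbd A {opt n w θ v} (3 * D + 3), ?_⟩
    have := base_step hA hw hD hDw hm hθ hv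
    simpa using this
  | succ N ih =>
    rintro v ⟨hg, hv | hv⟩
    · obtain ⟨S', hS'⟩ := ih _ hv
      have := good_step hA hw hD hDw hθ (isChild_left θ v) hg hS'
      exact ⟨_, by convert this using 1; ring⟩
    · obtain ⟨S', hS'⟩ := ih _ hv
      have := good_step hA hw hD hDw hθ (isChild_right θ v) hg hS'
      exact ⟨_, by convert this using 1; ring⟩

end

end Pool.Agent.Y979.AE
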