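import Pool.Agent.Y979.AE.Det

/-!
# From sets with small boundary to the anchored expansion constant
-/

set_option autoImplicit false

open scoped ENNReal

namespace Pool.Agent.Y979.AE

noncomputable section

variable {V : Type*} {G : SimpleGraph V}

theorem degSum_lt_top (hfin : ∀ v, (G.neighborSet v).Finite) (S : Finset V) : degSum G S < ⊤ := by
  unfold degSum
  rw [lt_top_iff_ne_top]
  intro h
  rw [ENat.sum_eq_top] at h
  obtain ⟨v, _, hv⟩ := h
  exact (Set.encard_lt_top_iff.mpr (hfin v)).ne hv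

theorem isoInf_le [DecidableEq V] (hfin : ∀ v, (G.neighborSet v).Finite) {S : Set V} (hS : S.Finite)
    (hl : ∀ x ∈ S, ∀ y ∈ S, Linked G S x y) {ρ q : V} (hq : q ∈ S) (W : G.Walk ρ q) {b c m : ℕ}
    (hb : (bp G S).encard ≤ b) (hc : ∑ v ∈ W.support.toFinset, (G.neighborSet v).encard ≤ c)
    {X Y : Fin m → V} (hX : Function.Injective X) (hY : Function.Injective Y)
    (hXS : ∀ i, X i ∈ S) (hadj : ∀ i j, G.Adj (X i) (Y j)) (N : ℕ) (hN : N ≤ m * m) :
    isoInf G ρ N ≤ ((b + c : ℕ) : ℝ≥0∞) / ((m * m : ℕ) : ℝ≥0∞) := by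
  set T : Finset V := hS.toFinset ∪ W.support.toFinset with hT
  have hTmem : ∀ v, v ∈ T ↔ v ∈ S ∨ v ∈ W.support := by
    intro v
    rw [hT, Finset.mem_union, Set.Finite.mem_toFinset, List.mem_toFinset]
  have hρT : ρ ∈ T := (hTmem ρ).mpr (Or.inr W.start_mem_support)
  -- connectedness
  have hlink : ∀ x ∈ T, Linked G (T : Set V) x q := by
    intro x hx
    rcases (hTmem x).mp hx with h | h
    · exact (hl x h q hq).mono fun v hv => (hTmem v).mpr (Or.inl hv)
    · refine ⟨W.dropUntil x h, fun u hu => (hTmem u).mpr (Or.inr ?_)⟩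
      exact SimpleGraph.Walk.support_dropUntil_subset_support W h hu
  have hconn : (G.induce (T : Set V)).Connected := by
    have key : ∀ x ∈ T, ∀ y ∈ T, Linked G (T : Set V) x y := fun x hx y hy =>
      (hlink x hx).trans (hlink y hy).symm
    refine { preconnected := ?_, nonempty := ⟨⟨ρ, hρT⟩⟩ }
    rintro ⟨x, hx⟩ ⟨y, hy⟩
    obtain ⟨p, hp⟩ := key x hx y hy
    exact ⟨p.induce (T : Set V) hp⟩
  -- degrees
  have hdeg : ((m * m : ℕ) : ℕ∞) ≤ degSum G T := by
    have h1 : ∀ i : Fin m, (m : ℕ∞) ≤ (G.neighborSet (X i)).encard := by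
      intro i
      have h2 : Set.range Y ⊆ G.neighborSet (X i) := by
        rintro _ ⟨j, rfl⟩
        exact hadj i j
      have h3 : (Set.range Y).encard = m := by
        rw [← Set.image_univ, hY.encard_image, Set.encard_univ]
        simp
      rw [← h3]
      exact Set.encard_le_encard h2
    have h4 : ∑ v ∈ Finset.univ.image X, (G.neighborSet v).encard ≤ degSum G T := by
      unfold degSum
      apply Finset.sum_le_sum_of_subset
      intro v hv
      rw [Finset.mem_image] at hv
      obtain ⟨i, _, rfl⟩ := hv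
      exact (hTmem _).mpr (Or.inl (hXS i))
    refine le_trans ?_ h4
    rw [Finset.sum_image fun i _ j _ h => hX h]
    refine le_trans ?_ (Finset.sum_le_sum fun i _ => h1 i)
    rw [Finset.sum_const, Finset.card_univ, Fintype.card_fin, nsmul_eq_mul]
    push_cast
    exact le_rfl
  -- the boundary
  have hbd : (edgeBoundary G T).encard ≤ ((b + c : ℕ) : ℕ∞) := by
    have h1 : edgeBoundary G T ⊆ (fun p : V × V => s(p.1, p.2)) ''
        (bp G S ∪ ⋃ v ∈ W.support.toFinset, (fun w => (v, w)) '' G.neighborSet v) := by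
      rintro e ⟨he, v, hv, w, hw, rfl⟩
      refine ⟨(v, w), ?_, rfl⟩
      rw [SimpleGraph.mem_edgeSet] at he
      rcases (hTmem v).mp hv with h | h
      · left
        refine ⟨h, fun h2 => hw ((hTmem w).mpr (Or.inl h2)), he⟩
      · right
        simp only [Set.mem_iUnion]
        exact ⟨v, List.mem_toFinset.mpr h, w, he, rfl⟩
    refine (Set.encard_le_encard h1).trans ((Set.encard_image_le _ _).trans
      ((Set.encard_union_le _ _).trans ?_))
    push_cast
    apply add_le_add hb
    refine (Finset.set_encard_biUnion_le _ _).trans (le_trans ?_ hc)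
    exact Finset.sum_le_sum fun v _ => Set.encard_image_le _ _
  unfold isoInf
  refine iInf_le_of_le T (iInf_le_of_le hρT (iInf_le_of_le hconn (iInf_le_of_le ?_
    (iInf_le_of_le (degSum_lt_top hfin T) ?_))))
  · refine le_trans ?_ hdeg
    exact_mod_cast hN
  · apply ENNReal.div_le_div
    · have : ((edgeBoundary G T).encard : ℝ≥0∞) ≤ (((b + c : ℕ) : ℕ∞) : ℝ≥0∞) := by
        exact_mod_cast hbd
      simpa using this
    · have : (((m * m : ℕ) : ℕ∞) : ℝ≥0∞) ≤ (degSum G T : ℝ≥0∞) := by
        exact_mod_cast hdeg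
      simpa using this

end

end Pool.Agent.Y979.AE
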