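import Pool.Agent.Y979.AE.LocFin
import Pool.Agent.Y979.AE.Ratio

/-!
# The anchored expansion constant vanishes almost surely
-/

set_option autoImplicit false

open MeasureTheory ProbabilityTheory Filter Topology
open scoped ENNReal

namespace Pool.Agent.Y979.AE

noncomputable section

variable {n : ℕ} {Ω : Type*} [mΩ : MeasurableSpace Ω] {P : Measure Ω} [IsProbabilityMeasure P]
  {lam : ℝ} {Q : Ω → Set (HS (n + 2))}

theorem prob_roots (hQ : IsPoissonProcess P (hvol (n + 2)) lam Q) {w : ℝ} (hw : 1 ≤ w)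
    {θ K0 m : ℕ} (hm : 0 < m) {N : ℕ}
    (h : ∀ a : ℕ, 1 / 2 ≤ P.real {ω | Ev w θ K0 m (Q ω) N (0, a)}) (r : ℕ) :
    MeasurableSet[sg w m Q (⋃ a ∈ Finset.range r, Usub n θ (0, a))]
      (⋂ a ∈ Finset.range r, {ω | Ev w θ K0 m (Q ω) N (0, a)}ᶜ) ∧
    P.real (⋂ a ∈ Finset.range r, {ω | Ev w θ K0 m (Q ω) N (0, a)}ᶜ) ≤ (1 / 2) ^ r := by
  induction r with
  | zero =>
    constructor
    · simp
    · simp
  | succ r ih =>
    obtain ⟨ih1, ih2⟩ := ih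
    have e : (⋂ a ∈ Finset.range (r + 1), {ω | Ev w θ K0 m (Q ω) N (0, a)}ᶜ) =
        (⋂ a ∈ Finset.range r, {ω | Ev w θ K0 m (Q ω) N (0, a)}ᶜ) ∩
          {ω | Ev w θ K0 m (Q ω) N (0, r)}ᶜ := by
      rw [Finset.range_add_one, Finset.set_biInter_insert, Set.inter_comm]
    have eU : (⋃ a ∈ Finset.range (r + 1), Usub n θ (0, a)) =
        (⋃ a ∈ Finset.range r, Usub n θ (0, a)) ∪ Usub n θ (0, r) := by
      rw [Finset.range_add_one, Finset.set_biUnion_insert, Set.union_comm]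
    have mE : MeasurableSet[sg w m Q (Usub n θ (0, r))] {ω | Ev w θ K0 m (Q ω) N (0, r)}ᶜ :=
      (meas_Ev hw hm θ K0 N (0, r)).compl
    have hdis : Disjoint (⋃ a ∈ Finset.range r, Usub n θ (0, a)) (Usub n θ (0, r)) := by
      rw [Set.disjoint_iUnion₂_left]
      intro a ha
      exact Usub_disjoint (Finset.mem_range.mp ha).ne
    have hi := (Indep_iff _ _ _).mp (sg_indep hQ hw hm hdis) _ _ ih1 mE
    rw [e, eU]
    constructor
    · exact (sg_mono Set.subset_union_left _ ih1).inter (sg_mono Set.subset_union_right _ mE)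
    · rw [measureReal_def, hi, ENNReal.toReal_mul, ← measureReal_def, ← measureReal_def,
        probReal_compl_eq_one_sub (sg_le hQ w m _ _ (meas_Ev hw hm θ K0 N (0, r))), pow_succ]
      have h1 := h r
      have h2 : P.real {ω | Ev w θ K0 m (Q ω) N (0, r)} ≤ 1 := measureReal_le_one
      exact mul_le_mul ih2 (by linarith) (by linarith) (by positivity)

/-- at least one of the first `r` roots starts a path to a special node -/
def Fr (w : ℝ) (θ K0 : ℕ) (A : Set (HS (n + 2))) (j r : ℕ) : Prop :=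
  ∃ a < r, Ev w θ K0 (j ^ 2) A (j ^ 3) (0, a)

theorem prob_Fr (hQ : IsPoissonProcess P (hvol (n + 2)) lam Q) (hlam : 0 < lam) {w : ℝ}
    (hw : 1 ≤ w) {θ K0 : ℕ} (hK : 0 < K0)
    (hδ : (NI n θ : ℝ) * dlt (n + 2) lam w K0 ≤ 1 / 10) :
    ∀ᶠ j : ℕ in atTop, ∀ r : ℕ, P {ω | ¬ Fr w θ K0 (Q ω) j r} ≤ ENNReal.ofReal ((1 / 2) ^ r) := by
  filter_upwards [growth (n := n) hlam w, eventually_ge_atTop 1] with j hj hj1 r
  have hm : 0 < j ^ 2 := by positivity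
  have hq0 := (qc_pos (n := n) hlam w hm).le
  have hgood := prob_good (P := P) hQ hlam hw hK hδ
  have hspec := prob_special (P := P) hQ hlam hw hm hK hδ
  have hq1 : 9 / 10 * qc n lam w (j ^ 2) ≤ 1 := (hspec (0, 0)).trans measureReal_le_one
  have hEv : ∀ a : ℕ, 1 / 2 ≤ P.real {ω | Ev w θ K0 (j ^ 2) (Q ω) (j ^ 3) (0, a)} := by
    intro a
    have h1 := prob_Ev (P := P) hQ hw hm (by positivity) hq1 hgood hspec (j ^ 3) (0, a)
    have h2 := (eseq_bound (by positivity) hq1 (j ^ 3)).2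
    rw [min_eq_left hj] at h2
    exact h2.trans h1
  have h3 := (prob_roots hQ hw hm hEv r).2
  have e : {ω | ¬ Fr w θ K0 (Q ω) j r} =
      ⋂ a ∈ Finset.range r, {ω | Ev w θ K0 (j ^ 2) (Q ω) (j ^ 3) (0, a)}ᶜ := by
    ext ω
    simp only [Set.mem_iInter, Finset.mem_range]
    constructor
    · intro h a ha hE
      exact h ⟨a, ha, hE⟩
    · rintro h ⟨a, ha, hE⟩
      exact h a ha hE
  rw [e, ← ENNReal.ofReal_toReal (measure_ne_top P _)]
  exact ENNReal.ofReal_le_ofReal h3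

theorem ae_Fr (hQ : IsPoissonProcess P (hvol (n + 2)) lam Q) (hlam : 0 < lam) {w : ℝ}
    (hw : 1 ≤ w) {θ K0 : ℕ} (hK : 0 < K0)
    (hδ : (NI n θ : ℝ) * dlt (n + 2) lam w K0 ≤ 1 / 10) :
    ∀ᵐ ω ∂P, ∃ r : ℕ, ∀ M : ℕ, ∃ j ≥ M, Fr w θ K0 (Q ω) j r := by
  obtain ⟨j0, hj0⟩ := eventually_atTop.mp (prob_Fr hQ hlam hw hK hδ)
  rw [ae_iff]
  have hr : ∀ r : ℕ, P {ω | ¬ ∃ r : ℕ, ∀ M : ℕ, ∃ j ≥ M, Fr w θ K0 (Q ω) j r} ≤
      ENNReal.ofReal ((1 / 2) ^ r) := by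
    intro r
    have hsub : {ω | ¬ ∃ r : ℕ, ∀ M : ℕ, ∃ j ≥ M, Fr w θ K0 (Q ω) j r} ⊆
        ⋃ M : ℕ, {ω | ∀ j ≥ M, ¬ Fr w θ K0 (Q ω) j r} := by
      intro ω hω
      have hω' : ¬ ∃ r : ℕ, ∀ M : ℕ, ∃ j ≥ M, Fr w θ K0 (Q ω) j r := hω
      push Not at hω'
      obtain ⟨M, hM⟩ := hω' r
      exact Set.mem_iUnion.mpr ⟨M, hM⟩
    have hmono : Monotone fun M : ℕ => {ω | ∀ j ≥ M, ¬ Fr w θ K0 (Q ω) j r} := by
      intro M M' hMM ω hω j hj
      exact hω j (hMM.trans hj)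
    refine (measure_mono hsub).trans ?_
    rw [hmono.measure_iUnion]
    refine iSup_le fun M => ?_
    refine le_trans (measure_mono ?_) (hj0 (max M j0) (le_max_right _ _) r)
    intro ω hω
    exact hω _ (le_max_left _ _)
  have hlim : Tendsto (fun r : ℕ => ENNReal.ofReal ((1 / 2 : ℝ) ^ r)) atTop (𝓝 0) := by
    have := ENNReal.tendsto_ofReal (tendsto_pow_atTop_nhds_zero_of_lt_one
      (by norm_num : (0 : ℝ) ≤ 1 / 2) (by norm_num))
    rwa [ENNReal.ofReal_zero] at this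
  exact le_antisymm (ge_of_tendsto' hlim hr) zero_le

/-- the deterministic conclusion -/
theorem isoInf_eq_zero {A : Set (HS (n + 2))} (hA : LocFin A)
    (hdeg : ∀ x : A, ((voronoiGraph A).neighborSet x).Finite) {w D : ℝ} (hw : 1 ≤ w)
    (hD : 0 ≤ D) (hDw : ((n + 2 : ℕ) : ℝ) * w ^ 2 + 5 / 2 ≤ 2 * Real.cosh D) {θ K0 : ℕ}
    (hθ : 2 * Real.cosh (5 * D + 5) < (2 : ℝ) ^ θ) {r : ℕ}
    (hF : ∀ M : ℕ, ∃ j ≥ M, Fr w θ K0 A j r) (ρ : A) (N' : ℕ) :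
    isoInf (voronoiGraph A) ρ N' = 0 := by
  classical
  have hconn := connected_of_locFin hA ⟨ρ, ρ.2⟩
  -- vertices close to the roots and walks to them
  have hq : ∀ a : ℕ, ∃ q : A, (∃ y : A, hdist (opt n w θ (0, a)) (y : HS (n + 2)) ≤ D) →
      hdist (opt n w θ (0, a)) (q : HS (n + 2)) ≤ D := by
    intro a
    by_cases h : ∃ y : A, hdist (opt n w θ (0, a)) (y : HS (n + 2)) ≤ D
    · obtain ⟨y, hy⟩ := h
      exact ⟨y, fun _ => hy⟩
    · exact ⟨ρ, fun h' => absurd h' h⟩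
  choose q hq using hq
  have hW : ∀ a : ℕ, ∃ (W : (voronoiGraph A).Walk ρ (q a)) (c : ℕ),
      ∑ v ∈ W.support.toFinset, ((voronoiGraph A).neighborSet v).encard ≤ c := by
    intro a
    obtain ⟨W⟩ := hconn ρ (q a)
    have hlt : ∑ v ∈ W.support.toFinset, ((voronoiGraph A).neighborSet v).encard < ⊤ :=
      degSum_lt_top hdeg W.support.toFinset
    exact ⟨W, _, (ENat.natCast_toNat hlt.ne).ge⟩
  choose W c hc using hW
  set C : ℕ := ∑ a ∈ Finset.range r, c a with hC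
  set K : ℕ := NI n θ * K0 with hK
  set C' : ℕ := K * K + 2 * K + (2 * K) * (2 * K) + C with hC'
  have hkey : ∀ j : ℕ, 1 ≤ j → N' ≤ j → Fr w θ K0 A j r →
      isoInf (voronoiGraph A) ρ N' ≤ (C' : ℝ≥0∞) * (j : ℝ≥0∞)⁻¹ := by
    rintro j hj1 hjN ⟨a, har, hEv⟩
    have hm : 0 < j ^ 2 := by positivity
    obtain ⟨S, hS⟩ := exists_fam hA hw hD hDw hm hθ (j ^ 3) (0, a) hEv
    obtain ⟨X, Y, hX, hY, hXS, hadj⟩ := hS.clus
    have hopt : opt n w θ (0, a) ∈ nbox n w θ (0, a) :=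
      tube_opt hw hθ (F_le_of_hdist (by rw [hdist_self]; linarith))
    obtain ⟨y, hyA, hy⟩ := hS.cover _ hopt
    have hqa := hq a ⟨⟨y, hyA⟩, hy⟩
    have hqS : q a ∈ S := hS.near _ (by linarith)
    have hN' : N' ≤ j ^ 2 * j ^ 2 := by
      have : j ≤ j ^ 2 * j ^ 2 := by
        have h1 : j ≤ j ^ 2 := by nlinarith
        have h2 : 1 ≤ j ^ 2 := by nlinarith
        nlinarith
      omega
    have h1 := isoInf_le hdeg hS.fin hS.linked hqS (W a) hS.bdry (hc a) hX hY hXS hadj N' hN'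
    refine h1.trans ?_
    have hca : c a ≤ C := Finset.single_le_sum (f := c) (fun _ _ => Nat.zero_le _)
      (Finset.mem_range.mpr har)
    have hnum : ((K + 2 * j ^ 2) * K + j ^ 3 * (2 * K * (2 * K))) + c a ≤ j ^ 3 * C' := by
      have h2 : j ^ 2 ≤ j ^ 3 := Nat.pow_le_pow_right hj1 (by norm_num)
      have h3 : 1 ≤ j ^ 3 := Nat.one_le_pow _ _ hj1
      rw [hC']
      have h4 : K * K ≤ j ^ 3 * (K * K) := Nat.le_mul_of_pos_left _ h3
      have h5 : 2 * K * j ^ 2 ≤ j ^ 3 * (2 * K) := by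
        rw [mul_comm (2 * K)]
        exact Nat.mul_le_mul_right _ h2
      have h6 : C ≤ j ^ 3 * C := Nat.le_mul_of_pos_left _ h3
      calc ((K + 2 * j ^ 2) * K + j ^ 3 * (2 * K * (2 * K))) + c a
          = K * K + 2 * K * j ^ 2 + j ^ 3 * (2 * K * (2 * K)) + c a := by ring
        _ ≤ j ^ 3 * (K * K) + j ^ 3 * (2 * K) + j ^ 3 * (2 * K * (2 * K)) + j ^ 3 * C := by
          omega
        _ = j ^ 3 * (K * K + 2 * K + 2 * K * (2 * K) + C) := by ring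
    have hden : j ^ 2 * j ^ 2 = j ^ 3 * j := by ring
    rw [hden]
    have hj3 : ((j ^ 3 : ℕ) : ℝ≥0∞) ≠ 0 := by
      have : j ^ 3 ≠ 0 := by positivity
      exact_mod_cast this
    calc ((((K + 2 * j ^ 2) * K + j ^ 3 * (2 * K * (2 * K))) + c a : ℕ) : ℝ≥0∞) /
          ((j ^ 3 * j : ℕ) : ℝ≥0∞) ≤ ((j ^ 3 * C' : ℕ) : ℝ≥0∞) / ((j ^ 3 * j : ℕ) : ℝ≥0∞) := by
          apply ENNReal.div_le_div _ le_rfl
          exact_mod_cast hnum
      _ = (C' : ℝ≥0∞) / (j : ℝ≥0∞) := by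
          rw [Nat.cast_mul (j ^ 3) C', Nat.cast_mul (j ^ 3) j]
          exact ENNReal.mul_div_mul_left _ _ hj3 (ENNReal.natCast_ne_top _)
      _ = (C' : ℝ≥0∞) * (j : ℝ≥0∞)⁻¹ := by rw [div_eq_mul_inv]
  by_contra hne
  have hpos : 0 < isoInf (voronoiGraph A) ρ N' := pos_iff_ne_zero.mpr hne
  have hlim : Tendsto (fun j : ℕ => (C' : ℝ≥0∞) * (j : ℝ≥0∞)⁻¹) atTop (𝓝 0) := by
    have := ENNReal.Tendsto.const_mul (a := (C' : ℝ≥0∞)) ENNReal.tendsto_inv_nat_nhds_zero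
      (Or.inr (ENNReal.natCast_ne_top _))
    rwa [mul_zero] at this
  obtain ⟨M, hM⟩ := eventually_atTop.mp (hlim.eventually (gt_mem_nhds hpos))
  obtain ⟨j, hj, hFj⟩ := hF (max M (max 1 N'))
  have h1 : M ≤ j := (le_max_left _ _).trans hj
  have h2 : 1 ≤ j := ((le_max_left _ _).trans (le_max_right _ _)).trans hj
  have h3 : N' ≤ j := ((le_max_right _ _).trans (le_max_right _ _)).trans hj
  exact absurd (hkey j h2 h3 hFj) (not_le.mpr (hM j h1))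

theorem infinite_of_Fr {A : Set (HS (n + 2))} (hA : LocFin A) {w D : ℝ} (hw : 1 ≤ w)
    (hD : 0 ≤ D) (hDw : ((n + 2 : ℕ) : ℝ) * w ^ 2 + 5 / 2 ≤ 2 * Real.cosh D) {θ K0 : ℕ}
    (hθ : 2 * Real.cosh (5 * D + 5) < (2 : ℝ) ^ θ) {r : ℕ}
    (hF : ∀ M : ℕ, ∃ j ≥ M, Fr w θ K0 A j r) : A.Infinite := by
  intro hfin
  obtain ⟨j, hj, a, har, hEv⟩ := hF (hfin.toFinset.card + 1)
  have hm : 0 < j ^ 2 := by
    have : 1 ≤ j := by omega
    positivity
  obtain ⟨S, hS⟩ := exists_fam hA hw hD hDw hm hθ (j ^ 3) (0, a) hEv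
  obtain ⟨X, Y, hX, hY, hXS, hadj⟩ := hS.clus
  have h1 : Fintype.card (Fin (j ^ 2)) ≤ hfin.toFinset.card := by
    rw [← Finset.card_univ]
    refine Finset.card_le_card_of_injOn (fun i => (X i : HS (n + 2))) (fun i _ => ?_)
      (fun i _ i' _ h => hX (Subtype.ext h))
    rw [Finset.mem_coe, Set.Finite.mem_toFinset]
    exact (X i).2
  rw [Fintype.card_fin] at h1
  have h2 : j ≤ j ^ 2 := by
    have : 1 ≤ j := by omega
    nlinarith
  omega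

/-- the main theorem -/
theorem main_ae (hQ : IsPoissonProcess P (hvol (n + 2)) lam Q) (hlam : 0 < lam) :
    ∀ᵐ ω ∂P, (Q ω).Infinite ∧ (voronoiGraph (Q ω)).Connected ∧
      (∀ x : Q ω, ((voronoiGraph (Q ω)).neighborSet x).Finite) ∧
      ∀ (ρ : Q ω) (m : ℕ), isoInf (voronoiGraph (Q ω)) ρ m = 0 := by
  obtain ⟨w, D, θ, K0, hw, hD, hK, hDw, hθ, hδ⟩ := exists_params n hlam
  filter_upwards [ae_locFin hQ hlam, ae_degrees hQ hlam, ae_Fr hQ hlam hw hK hδ]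
    with ω hA hdeg hFr
  obtain ⟨r, hr⟩ := hFr
  have hinf := infinite_of_Fr hA hw hD hDw hθ hr
  exact ⟨hinf, connected_of_locFin hA hinf.nonempty, hdeg, fun ρ m =>
    isoInf_eq_zero hA hdeg hw hD hDw hθ hr ρ m⟩

end

end Pool.Agent.Y979.AE
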