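import Pool.Agent.Y979.AE.Defs

/-!
# The upper half space: the hyperbolic metric
-/

set_option autoImplicit false

namespace Pool.Agent.Y979.AE

noncomputable section

variable {k : ℕ}

/-- twice the hyperbolic cosine of the distance -/
def F (z w : HS k) : ℝ :=
  (∑ i, (z.1.1 i - w.1.1 i) ^ 2 + z.1.2 ^ 2 + w.1.2 ^ 2) / (z.1.2 * w.1.2)

theorem F_comm (z w : HS k) : F z w = F w z := by
  unfold F
  have : ∑ i, (z.1.1 i - w.1.1 i) ^ 2 = ∑ i, (w.1.1 i - z.1.1 i) ^ 2 :=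
    Finset.sum_congr rfl fun i _ => by ring
  rw [this, mul_comm]
  ring

theorem F_self (z : HS k) : F z z = 2 := by
  unfold F
  have hz := z.2
  simp only [sub_self, ne_eq, OfNat.ofNat_ne_zero, not_false_eq_true, zero_pow,
    Finset.sum_const_zero, zero_add]
  field_simp
  norm_num

theorem F_eq_esq (z w : HS k) : F z w = esq z w / (z.1.2 * w.1.2) + 2 := by
  unfold F esq
  have hz := z.2
  have hw := w.2
  field_simp
  ring

theorem esq_nonneg (z w : HS k) : 0 ≤ esq z w :=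
  add_nonneg (Finset.sum_nonneg fun _ _ => sq_nonneg _) (sq_nonneg _)

theorem two_le_F (z w : HS k) : 2 ≤ F z w := by
  rw [F_eq_esq]
  have h1 := esq_nonneg z w
  have hz := z.2
  have hw := w.2
  have : 0 ≤ esq z w / (z.1.2 * w.1.2) := by positivity
  linarith

theorem eq_of_F_eq_two {z w : HS k} (h : F z w = 2) : z = w := by
  rw [F_eq_esq] at h
  have hz := z.2
  have hw := w.2
  have h0 : esq z w / (z.1.2 * w.1.2) = 0 := by linarith
  rw [div_eq_zero_iff] at h0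
  have h1 : esq z w = 0 := by
    rcases h0 with h0 | h0
    · exact h0
    · exact absurd h0 (mul_pos hz hw).ne'
  unfold esq at h1
  have h2 : 0 ≤ ∑ i, (z.1.1 i - w.1.1 i) ^ 2 := Finset.sum_nonneg fun _ _ => sq_nonneg _
  have h3 : 0 ≤ (z.1.2 - w.1.2) ^ 2 := sq_nonneg _
  have h4 : ∑ i, (z.1.1 i - w.1.1 i) ^ 2 = 0 := by linarith
  have h5 : (z.1.2 - w.1.2) ^ 2 = 0 := by linarith
  rw [Finset.sum_eq_zero_iff_of_nonneg fun _ _ => sq_nonneg _] at h4
  have h6 : z.1.2 = w.1.2 := by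
    have := pow_eq_zero_iff (two_ne_zero) |>.mp h5
    linarith
  apply Subtype.ext
  refine Prod.ext (funext fun i => ?_) h6
  have := pow_eq_zero_iff (two_ne_zero) |>.mp (h4 i (Finset.mem_univ i))
  linarith

theorem cosh_hdist (z w : HS k) : Real.cosh (hdist z w) = F z w / 2 := by
  unfold hdist
  have hz := z.2
  have hw := w.2
  rw [Real.cosh_two_mul, Real.cosh_sq, Real.sinh_arsinh, div_pow, mul_pow,
    Real.sq_sqrt (esq_nonneg z w), Real.sq_sqrt (mul_pos hz hw).le, F_eq_esq]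
  field_simp
  ring

theorem hdist_nonneg (z w : HS k) : 0 ≤ hdist z w := by
  unfold hdist
  have : 0 ≤ √(esq z w) / (2 * √(z.1.2 * w.1.2)) := by positivity
  have := Real.arsinh_nonneg_iff.mpr this
  linarith

theorem hdist_le_iff {z w u v : HS k} : hdist z w ≤ hdist u v ↔ F z w ≤ F u v := by
  have h1 := hdist_nonneg z w
  have h2 := hdist_nonneg u v
  have h3 := cosh_hdist z w
  have h4 := cosh_hdist u v
  have h5 : Real.cosh (hdist z w) ≤ Real.cosh (hdist u v) ↔ hdist z w ≤ hdist u v := by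
    rw [Real.cosh_le_cosh, abs_of_nonneg h1, abs_of_nonneg h2]
  rw [← h5, h3, h4]
  constructor <;> intro h <;> linarith

theorem hdist_lt_iff {z w u v : HS k} : hdist z w < hdist u v ↔ F z w < F u v := by
  rw [← not_le, ← not_le, hdist_le_iff]

theorem hdist_eq_iff {z w u v : HS k} : hdist z w = hdist u v ↔ F z w = F u v := by
  rw [le_antisymm_iff, le_antisymm_iff, hdist_le_iff, hdist_le_iff]

theorem hdist_comm (z w : HS k) : hdist z w = hdist w z := hdist_eq_iff.mpr (F_comm z w)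

theorem F_eq_of_hdist (z w : HS k) : F z w = 2 * Real.cosh (hdist z w) := by
  rw [cosh_hdist]; ring

theorem hdist_le_of_F {z w : HS k} {r : ℝ} (hr : 0 ≤ r) (h : F z w ≤ 2 * Real.cosh r) :
    hdist z w ≤ r := by
  have h1 := hdist_nonneg z w
  have h5 : Real.cosh (hdist z w) ≤ Real.cosh r := by
    rw [cosh_hdist]; linarith
  rwa [Real.cosh_le_cosh, abs_of_nonneg h1, abs_of_nonneg hr] at h5

theorem hdist_self (z : HS k) : hdist z z = 0 := by
  apply le_antisymm _ (hdist_nonneg z z)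
  apply hdist_le_of_F le_rfl
  rw [F_self, Real.cosh_zero]; norm_num

theorem eq_of_hdist {z w : HS k} (h : hdist z w = 0) : z = w := by
  apply eq_of_F_eq_two
  rw [F_eq_of_hdist, h, Real.cosh_zero]; norm_num

theorem F_le_of_hdist {z w : HS k} {r : ℝ} (h : hdist z w ≤ r) : F z w ≤ 2 * Real.cosh r := by
  have h1 := hdist_nonneg z w
  have h5 : Real.cosh (hdist z w) ≤ Real.cosh r := by
    rw [Real.cosh_le_cosh, abs_of_nonneg h1, abs_of_nonneg (h1.trans h)]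
    exact h
  rw [cosh_hdist] at h5
  linarith

/-- the Gram determinant of three points -/
theorem gram_identity {U V W hp hz hq : ℝ} (h1 : 0 < hp) (h2 : 0 < hz) (h3 : 0 < hq) :
    4 + ((U + hp ^ 2 + hz ^ 2) / (hp * hz)) * ((V + hq ^ 2 + hz ^ 2) / (hq * hz)) *
        ((U - 2 * W + V + hp ^ 2 + hq ^ 2) / (hp * hq)) -
      ((U + hp ^ 2 + hz ^ 2) / (hp * hz)) ^ 2 - ((V + hq ^ 2 + hz ^ 2) / (hq * hz)) ^ 2 -
      ((U - 2 * W + V + hp ^ 2 + hq ^ 2) / (hp * hq)) ^ 2 =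
    ((U * (V + hq ^ 2 - hz ^ 2) ^ 2 - 2 * W * (V + hq ^ 2 - hz ^ 2) * (U + hp ^ 2 - hz ^ 2) +
      V * (U + hp ^ 2 - hz ^ 2) ^ 2) + 4 * hz ^ 2 * (U * V - W ^ 2)) /
      (hp ^ 2 * hq ^ 2 * hz ^ 2) := by
  field_simp
  ring

theorem gram (p z q : HS k) :
    F p z ^ 2 + F q z ^ 2 + F p q ^ 2 ≤ 4 + F p z * F q z * F p q := by
  set U := ∑ i, (p.1.1 i - z.1.1 i) ^ 2 with hU
  set V := ∑ i, (q.1.1 i - z.1.1 i) ^ 2 with hV
  set W := ∑ i, (p.1.1 i - z.1.1 i) * (q.1.1 i - z.1.1 i) with hW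
  have hpq : ∑ i, (p.1.1 i - q.1.1 i) ^ 2 = U - 2 * W + V := by
    rw [hU, hV, hW, Finset.mul_sum, ← Finset.sum_sub_distrib, ← Finset.sum_add_distrib]
    exact Finset.sum_congr rfl fun i _ => by ring
  have hCS : W ^ 2 ≤ U * V := Finset.sum_mul_sq_le_sq_mul_sq _ _ _
  have hquad : ∀ m n : ℝ, 0 ≤ U * m ^ 2 - 2 * W * m * n + V * n ^ 2 := by
    intro m n
    have : U * m ^ 2 - 2 * W * m * n + V * n ^ 2 =
        ∑ i, ((p.1.1 i - z.1.1 i) * m - (q.1.1 i - z.1.1 i) * n) ^ 2 := by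
      rw [hU, hV, hW, Finset.sum_mul, Finset.sum_mul]
      have e : 2 * (∑ i, (p.1.1 i - z.1.1 i) * (q.1.1 i - z.1.1 i)) * m * n =
          ∑ i, 2 * ((p.1.1 i - z.1.1 i) * (q.1.1 i - z.1.1 i)) * m * n := by
        rw [Finset.mul_sum, Finset.sum_mul, Finset.sum_mul]
      rw [e, ← Finset.sum_sub_distrib, ← Finset.sum_add_distrib]
      exact Finset.sum_congr rfl fun i _ => by ring
    rw [this]
    exact Finset.sum_nonneg fun _ _ => sq_nonneg _
  have h1 := p.2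
  have h2 := z.2
  have h3 := q.2
  have key := gram_identity (U := U) (V := V) (W := W) h1 h2 h3
  have e1 : F p z = (U + p.1.2 ^ 2 + z.1.2 ^ 2) / (p.1.2 * z.1.2) := rfl
  have e2 : F q z = (V + q.1.2 ^ 2 + z.1.2 ^ 2) / (q.1.2 * z.1.2) := rfl
  have e3 : F p q = (U - 2 * W + V + p.1.2 ^ 2 + q.1.2 ^ 2) / (p.1.2 * q.1.2) := by
    unfold F; rw [hpq]
  rw [e1, e2, e3]
  have hrhs : 0 ≤ ((U * (V + q.1.2 ^ 2 - z.1.2 ^ 2) ^ 2 - 2 * W * (V + q.1.2 ^ 2 - z.1.2 ^ 2) *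
      (U + p.1.2 ^ 2 - z.1.2 ^ 2) + V * (U + p.1.2 ^ 2 - z.1.2 ^ 2) ^ 2) +
      4 * z.1.2 ^ 2 * (U * V - W ^ 2)) / (p.1.2 ^ 2 * q.1.2 ^ 2 * z.1.2 ^ 2) := by
    apply div_nonneg _ (by positivity)
    have a1 := hquad (V + q.1.2 ^ 2 - z.1.2 ^ 2) (U + p.1.2 ^ 2 - z.1.2 ^ 2)
    have a2 : 0 ≤ 4 * z.1.2 ^ 2 * (U * V - W ^ 2) := by
      apply mul_nonneg (by positivity)
      linarith
    linarith
  linarith

theorem hdist_triangle (p z q : HS k) : hdist p q ≤ hdist p z + hdist z q := by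
  have h1 := hdist_nonneg p z
  have h2 := hdist_nonneg z q
  apply hdist_le_of_F (by linarith)
  rw [Real.cosh_add]
  have e1 := F_eq_of_hdist p z
  have e2 : F q z = 2 * Real.cosh (hdist z q) := by rw [F_comm, F_eq_of_hdist]
  have s1 := Real.cosh_sq (hdist p z)
  have s2 := Real.cosh_sq (hdist z q)
  have n1 : 0 ≤ Real.sinh (hdist p z) := Real.sinh_nonneg_iff.mpr h1
  have n2 : 0 ≤ Real.sinh (hdist z q) := Real.sinh_nonneg_iff.mpr h2
  have hg := gram p z q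
  rw [e1, e2] at hg
  set X := Real.cosh (hdist p z)
  set Y := Real.cosh (hdist z q)
  set a := Real.sinh (hdist p z)
  set b := Real.sinh (hdist z q)
  set Z := F p q
  have h3 : (Z - 2 * X * Y) ^ 2 ≤ (2 * (a * b)) ^ 2 := by
    have : (2 * (a * b)) ^ 2 = 4 * ((X ^ 2 - 1) * (Y ^ 2 - 1)) := by
      have t1 : X ^ 2 - 1 = a ^ 2 := by linarith
      have t2 : Y ^ 2 - 1 = b ^ 2 := by linarith
      rw [t1, t2]; ring
    rw [this]
    nlinarith
  have h4 := abs_le_of_sq_le_sq h3 (by positivity)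
  have h5 := (abs_le.mp h4).2
  linarith

/-! ### heights and horizontal distances -/

theorem height_le_of_F {z w : HS k} {T : ℝ} (h : F z w ≤ T) : z.1.2 ≤ T * w.1.2 := by
  have hz := z.2
  have hw := w.2
  unfold F at h
  rw [div_le_iff₀ (mul_pos hz hw)] at h
  have h0 : 0 ≤ ∑ i, (z.1.1 i - w.1.1 i) ^ 2 := Finset.sum_nonneg fun _ _ => sq_nonneg _
  have h1 : z.1.2 * z.1.2 ≤ T * w.1.2 * z.1.2 := by nlinarith
  exact le_of_mul_le_mul_right h1 hz

theorem horiz_le_of_F {z w : HS k} {T : ℝ} (h : F z w ≤ T) (i : Fin k) :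
    |z.1.1 i - w.1.1 i| ≤ T * w.1.2 := by
  have hz := z.2
  have hw := w.2
  have h1 := height_le_of_F h
  have hT : 0 ≤ T := le_trans (by linarith [two_le_F z w]) h
  unfold F at h
  rw [div_le_iff₀ (mul_pos hz hw)] at h
  have h0 : (z.1.1 i - w.1.1 i) ^ 2 ≤ ∑ i, (z.1.1 i - w.1.1 i) ^ 2 :=
    Finset.single_le_sum (f := fun i => (z.1.1 i - w.1.1 i) ^ 2) (fun _ _ => sq_nonneg _)
      (Finset.mem_univ i)
  apply abs_le_of_sq_le_sq _ (by positivity)
  have h2 : T * (z.1.2 * w.1.2) ≤ T * (T * w.1.2 * w.1.2) :=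
    mul_le_mul_of_nonneg_left (mul_le_mul_of_nonneg_right h1 hw.le) hT
  nlinarith [sq_nonneg z.1.2, sq_nonneg w.1.2]

end

end Pool.Agent.Y979.AE
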