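import Pool.Agent.Y979.AE.Vol

/-!
# Independence of the events attached to disjoint sets of pieces
-/

set_option autoImplicit false

open MeasureTheory ProbabilityTheory
open scoped ENNReal

namespace Pool.Agent.Y979.AE

noncomputable section

variable {n : ℕ}

/-- the tiny cubes of a piece and the rest of the piece -/
def atom (w : ℝ) (m : ℕ) (i : (ℤ × (Fin (n + 2) → ℤ)) × Option (Fin m × Bool)) :
    Set (HS (n + 2)) :=
  match i.2 with
  | some pb => tc w m i.1 pb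
  | none => piece w i.1 \ ⋃ pb : Fin m × Bool, tc w m i.1 pb

theorem measurableSet_atom (w : ℝ) (m : ℕ)
    (i : (ℤ × (Fin (n + 2) → ℤ)) × Option (Fin m × Bool)) : MeasurableSet (atom w m i) := by
  rcases i with ⟨p, _ | pb⟩
  · exact (measurableSet_piece w p).diff (MeasurableSet.iUnion fun pb => measurableSet_tc w m p pb)
  · exact measurableSet_tc w m p pb

theorem atom_subset {w : ℝ} (hw : 1 ≤ w) {m : ℕ} (hm : 0 < m)
    (i : (ℤ × (Fin (n + 2) → ℤ)) × Option (Fin m × Bool)) : atom w m i ⊆ piece w i.1 := by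
  rcases i with ⟨p, _ | pb⟩
  · exact Set.sdiff_subset
  · exact tc_subset hw hm p pb

theorem piece_inj {k : ℕ} {w : ℝ} (hw : 0 < w) {p p' : ℤ × (Fin k → ℤ)} {z : HS k}
    (h : z ∈ piece w p) (h' : z ∈ piece w p') : p = p' := by
  obtain ⟨h1, h2, h3⟩ := h
  obtain ⟨h1', h2', h3'⟩ := h'
  have e1 : p.1 = p'.1 := by
    have a1 : (2 : ℝ) ^ p.1 < 2 ^ (p'.1 + 1) := by
      rw [zpow_add_one₀ (two_ne_zero)]; linarith
    have a2 : (2 : ℝ) ^ p'.1 < 2 ^ (p.1 + 1) := by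
      rw [zpow_add_one₀ (two_ne_zero)]; linarith
    have b1 := (zpow_lt_zpow_iff_right₀ (by norm_num : (1 : ℝ) < 2)).mp a1
    have b2 := (zpow_lt_zpow_iff_right₀ (by norm_num : (1 : ℝ) < 2)).mp a2
    omega
  refine Prod.ext e1 (funext fun j => ?_)
  have hu : 0 < w * (2 : ℝ) ^ p.1 := by positivity
  obtain ⟨a1, a2⟩ := h1 j
  obtain ⟨b1, b2⟩ := h1' j
  rw [← e1] at b1 b2
  have c1 := lt_of_mul_lt_mul_left (a1.trans_lt b2) hu.le
  have c2 := lt_of_mul_lt_mul_left (b1.trans_lt a2) hu.le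
  have d1 : p.2 j < p'.2 j + 1 := by exact_mod_cast c1
  have d2 : p'.2 j < p.2 j + 1 := by exact_mod_cast c2
  omega

theorem tc_disjoint {w : ℝ} {m : ℕ} (hm : 0 < m) (p : ℤ × (Fin (n + 2) → ℤ))
    {pb pb' : Fin m × Bool} (h : pb ≠ pb') : Disjoint (tc w m p pb) (tc w m p pb') := by
  rw [Set.disjoint_left]
  rintro z ⟨h1, h2, h3⟩ ⟨h1', h2', h3'⟩
  apply h
  have hu : (0 : ℝ) < 2 ^ p.1 := by positivity
  have h4 := eta_pos (n := n) hm
  have h5 := eta_small (n := n) hm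
  have hb : pb.2 = pb'.2 := by
    have c1 := lt_of_mul_lt_mul_left (h2.trans_lt h3') hu.le
    have c2 := lt_of_mul_lt_mul_left (h2'.trans_lt h3) hu.le
    unfold hoff at c1 c2
    cases hb1 : pb.2 <;> cases hb2 : pb'.2 <;>
      simp only [hb1, hb2, if_true, Bool.false_eq_true, if_false] at c1 c2 <;>
      first
      | rfl
      | (exfalso; linarith)
  have hi : pb.1 = pb'.1 := by
    by_contra hne
    have h7 := sep (n := n) hm hne
    have e1 : off n m pb (if pb.2 then 1 else 0) = ((pb.1 : ℕ) : ℝ) / (8 * m) := by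
      unfold off; rw [if_pos rfl]
    have e2 : off n m pb' (if pb.2 then 1 else 0) = ((pb'.1 : ℕ) : ℝ) / (8 * m) := by
      unfold off; rw [hb, if_pos rfl]
    obtain ⟨a1, a2⟩ := h1 (if pb.2 then 1 else 0)
    obtain ⟨b1, b2⟩ := h1' (if pb.2 then 1 else 0)
    rw [e1] at a1 a2
    rw [e2] at b1 b2
    have c1 := lt_of_mul_lt_mul_left (a1.trans_lt b2) hu.le
    have c2 := lt_of_mul_lt_mul_left (b1.trans_lt a2) hu.le
    have key : |((pb'.1 : ℕ) : ℝ) / (8 * m) - ((pb.1 : ℕ) : ℝ) / (8 * m)| < eta n m := by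
      rw [abs_lt]
      constructor <;> linarith
    have h8 : (((pb'.1 : ℕ) : ℝ) / (8 * m) - ((pb.1 : ℕ) : ℝ) / (8 * m)) ^ 2 < eta n m ^ 2 := by
      rw [← sq_abs]
      exact pow_lt_pow_left₀ key (abs_nonneg _) two_ne_zero
    have h6 : (0 : ℝ) ≤ n := Nat.cast_nonneg n
    nlinarith
  exact Prod.ext hi hb

theorem atom_disjoint {w : ℝ} (hw : 1 ≤ w) {m : ℕ} (hm : 0 < m) :
    Pairwise (fun i j : (ℤ × (Fin (n + 2) → ℤ)) × Option (Fin m × Bool) =>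
      Disjoint (atom w m i) (atom w m j)) := by
  rintro ⟨p, α⟩ ⟨p', α'⟩ hne
  by_cases hp : p = p'
  · subst hp
    rcases α with _ | pb <;> rcases α' with _ | pb'
    · exact absurd rfl hne
    · rw [Set.disjoint_left]
      rintro z ⟨_, hz⟩ hz'
      exact hz (Set.mem_iUnion.mpr ⟨pb', hz'⟩)
    · rw [Set.disjoint_left]
      rintro z hz' ⟨_, hz⟩
      exact hz (Set.mem_iUnion.mpr ⟨pb, hz'⟩)
    · exact tc_disjoint hm p fun h => hne (by rw [h])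
  · rw [Set.disjoint_left]
    intro z hz hz'
    exact hp (piece_inj (by linarith) (atom_subset hw hm _ hz) (atom_subset hw hm _ hz'))

theorem piece_eq_iUnion {w : ℝ} (hw : 1 ≤ w) {m : ℕ} (hm : 0 < m)
    (p : ℤ × (Fin (n + 2) → ℤ)) : piece w p = ⋃ α : Option (Fin m × Bool), atom w m (p, α) := by
  ext z
  rw [Set.mem_iUnion]
  constructor
  · intro hz
    by_cases h : z ∈ ⋃ pb : Fin m × Bool, tc w m p pb
    · obtain ⟨pb, hpb⟩ := Set.mem_iUnion.mp h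
      exact ⟨some pb, hpb⟩
    · exact ⟨none, hz, h⟩
  · rintro ⟨α, hα⟩
    exact atom_subset hw hm _ hα

theorem count_piece {w : ℝ} (hw : 1 ≤ w) {m : ℕ} (hm : 0 < m) (A : Set (HS (n + 2)))
    (p : ℤ × (Fin (n + 2) → ℤ)) : (A ∩ piece w p).encard =
      ∑ᶠ α : Option (Fin m × Bool), (A ∩ atom w m (p, α)).encard := by
  rw [piece_eq_iUnion hw hm, Set.inter_iUnion, Set.encard_iUnion_of_finite]
  intro α α' h
  refine (atom_disjoint hw hm (i := (p, α)) (j := (p, α')) fun h' => h ?_).mono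
    Set.inter_subset_right Set.inter_subset_right
  exact (Prod.ext_iff.mp h').2

theorem clusterOK_iff {w : ℝ} {m : ℕ} {A : Set (HS (n + 2))} {p : ℤ × (Fin (n + 2) → ℤ)} :
    ClusterOK w m A p ↔ (∀ pb : Fin m × Bool, (A ∩ atom w m (p, some pb)).encard = 1) ∧
      (A ∩ atom w m (p, none)).encard = 0 := by
  unfold ClusterOK
  constructor
  · rintro ⟨h1, h2⟩
    refine ⟨h1, ?_⟩
    rw [Set.encard_eq_zero, Set.eq_empty_iff_forall_notMem]
    rintro z ⟨hz1, hz2, hz3⟩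
    obtain ⟨pb, hpb⟩ := h2 z hz1 hz2
    exact hz3 (Set.mem_iUnion.mpr ⟨pb, hpb⟩)
  · rintro ⟨h1, h2⟩
    refine ⟨h1, fun a ha hap => ?_⟩
    rw [Set.encard_eq_zero, Set.eq_empty_iff_forall_notMem] at h2
    by_contra hcon
    push Not at hcon
    refine h2 a ⟨ha, hap, fun h => ?_⟩
    obtain ⟨pb, hpb⟩ := Set.mem_iUnion.mp h
    exact hcon pb hpb

variable {Ω : Type*} [mΩ : MeasurableSpace Ω] {P : Measure Ω} {lam : ℝ}
  {Q : Ω → Set (HS (n + 2))}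

/-- the events determined by the pieces in `U` -/
def sg (w : ℝ) (m : ℕ) (Q : Ω → Set (HS (n + 2))) (U : Set (ℤ × (Fin (n + 2) → ℤ))) :
    MeasurableSpace Ω :=
  ⨆ i ∈ {i : (ℤ × (Fin (n + 2) → ℤ)) × Option (Fin m × Bool) | i.1 ∈ U},
    MeasurableSpace.comap (fun ω => (Q ω ∩ atom w m i).encard) inferInstance

theorem sg_mono {w : ℝ} {m : ℕ} {U U' : Set (ℤ × (Fin (n + 2) → ℤ))} (h : U ⊆ U') :
    sg w m Q U ≤ sg w m Q U' :=
  iSup₂_le fun i hi => le_iSup₂_of_le i (h hi) le_rfl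

theorem sg_le (hQ : IsPoissonProcess P (hvol (n + 2)) lam Q) (w : ℝ) (m : ℕ)
    (U : Set (ℤ × (Fin (n + 2) → ℤ))) : sg w m Q U ≤ mΩ :=
  iSup₂_le fun i _ => (hQ.measurable_count _ (measurableSet_atom w m i)).comap_le

theorem sg_indep (hQ : IsPoissonProcess P (hvol (n + 2)) lam Q) {w : ℝ} (hw : 1 ≤ w) {m : ℕ}
    (hm : 0 < m) {U U' : Set (ℤ × (Fin (n + 2) → ℤ))} (h : Disjoint U U') :
    Indep (sg w m Q U) (sg w m Q U') P := by
  have h1 := hQ.iIndep (fun i => measurableSet_atom w m i) (atom_disjoint hw hm)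
  rw [iIndepFun_iff_iIndep] at h1
  unfold sg
  apply indep_iSup_of_disjoint _ h1
  · rw [Set.disjoint_left] at h ⊢
    intro i hi hi'
    exact h hi hi'
  · intro i
    exact (hQ.measurable_count _ (measurableSet_atom w m i)).comap_le

theorem meas_of_vector {w : ℝ} {m : ℕ} {U : Set (ℤ × (Fin (n + 2) → ℤ))}
    {p : ℤ × (Fin (n + 2) → ℤ)} (hp : p ∈ U) (R : (Option (Fin m × Bool) → ℕ∞) → Prop) :
    MeasurableSet[sg w m Q U] {ω | R fun α => (Q ω ∩ atom w m (p, α)).encard} := by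
  have h1 : @Measurable Ω (Option (Fin m × Bool) → ℕ∞) (sg w m Q U) _
      (fun ω => fun α => (Q ω ∩ atom w m (p, α)).encard) := by
    rw [@measurable_pi_iff]
    intro α
    have h2 : MeasurableSpace.comap (fun ω => (Q ω ∩ atom w m (p, α)).encard) inferInstance ≤
        sg w m Q U := le_iSup₂_of_le (p, α) hp le_rfl
    exact (comap_measurable _).mono h2 le_rfl
  exact h1 (Set.to_countable {V | R V}).measurableSet

theorem meas_OKp {w : ℝ} (hw : 1 ≤ w) {m : ℕ} (hm : 0 < m) (K0 : ℕ)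
    {U : Set (ℤ × (Fin (n + 2) → ℤ))} {p : ℤ × (Fin (n + 2) → ℤ)} (hp : p ∈ U) :
    MeasurableSet[sg w m Q U] {ω | OKp w K0 (Q ω) p} := by
  have := meas_of_vector (Q := Q) (w := w) (m := m) hp
    (fun V => 1 ≤ ∑ᶠ α, V α ∧ ∑ᶠ α, V α ≤ K0)
  convert this using 1
  ext ω
  show (1 ≤ (Q ω ∩ piece w p).encard ∧ (Q ω ∩ piece w p).encard ≤ K0) ↔ _
  rw [count_piece hw hm]
  rfl

theorem meas_cluster {w : ℝ} {m : ℕ} {U : Set (ℤ × (Fin (n + 2) → ℤ))}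
    {p : ℤ × (Fin (n + 2) → ℤ)} (hp : p ∈ U) :
    MeasurableSet[sg w m Q U] {ω | ClusterOK w m (Q ω) p} := by
  have := meas_of_vector (Q := Q) (w := w) (m := m) hp
    (fun V => (∀ pb : Fin m × Bool, V (some pb) = 1) ∧ V none = 0)
  convert this using 1
  ext ω
  exact clusterOK_iff

theorem meas_good {w : ℝ} (hw : 1 ≤ w) {m : ℕ} (hm : 0 < m) (θ K0 : ℕ) (v : ℕ × ℕ)
    {U : Set (ℤ × (Fin (n + 2) → ℤ))} (hU : (Ifin n θ v : Set _) ⊆ U) :
    MeasurableSet[sg w m Q U] {ω | Good w θ K0 (Q ω) v} := by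
  have e : {ω | Good w θ K0 (Q ω) v} = ⋂ p ∈ Ifin n θ v, {ω | OKp w K0 (Q ω) p} := by
    ext ω
    simp only [Good, Set.mem_iInter]
    rfl
  rw [e]
  exact MeasurableSet.biInter (Set.to_countable _) fun p hp => meas_OKp hw hm K0 (hU hp)

theorem meas_rest {w : ℝ} (hw : 1 ≤ w) {m : ℕ} (hm : 0 < m) (θ K0 : ℕ) (v : ℕ × ℕ)
    {U : Set (ℤ × (Fin (n + 2) → ℤ))} (hU : (Ifin n θ v : Set _) \ {starp n θ v} ⊆ U) :
    MeasurableSet[sg w m Q U] {ω | ∀ p ∈ Ifin n θ v, p ≠ starp n θ v → OKp w K0 (Q ω) p} := by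
  have e : {ω | ∀ p ∈ Ifin n θ v, p ≠ starp n θ v → OKp w K0 (Q ω) p} =
      ⋂ p ∈ (Ifin n θ v : Set _) \ {starp n θ v}, {ω | OKp w K0 (Q ω) p} := by
    ext ω
    simp only [Set.mem_iInter]
    constructor
    · intro h p hp
      exact h p hp.1 hp.2
    · intro h p hp hps
      exact h p ⟨hp, hps⟩
  rw [e]
  exact MeasurableSet.biInter (Set.to_countable _) fun p hp => meas_OKp hw hm K0 (hU hp)

theorem meas_special {w : ℝ} (hw : 1 ≤ w) {m : ℕ} (hm : 0 < m) (θ K0 : ℕ) (v : ℕ × ℕ)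
    {U : Set (ℤ × (Fin (n + 2) → ℤ))} (hU : (Ifin n θ v : Set _) ⊆ U) :
    MeasurableSet[sg w m Q U] {ω | Special w θ K0 m (Q ω) v} := by
  have e : {ω | Special w θ K0 m (Q ω) v} =
      {ω | ∀ p ∈ Ifin n θ v, p ≠ starp n θ v → OKp w K0 (Q ω) p} ∩
      {ω | ClusterOK w m (Q ω) (starp n θ v)} := rfl
  rw [e]
  exact (meas_rest hw hm θ K0 v (Set.sdiff_subset.trans hU)).inter
    (meas_cluster (hU (starp_mem θ v)))

/-- the pieces below a node -/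
def Usub (n θ : ℕ) (v : ℕ × ℕ) : Set (ℤ × (Fin (n + 2) → ℤ)) :=
  {p | ∃ r : ℕ, 1 ≤ r ∧ p.1 = (2 * θ + 1 : ℤ) - (2 * θ + 1) * v.1 - r ∧
    (2 : ℤ) ^ (2 * θ + 2 + r) * v.2 ≤ p.2 0 ∧ p.2 0 < (2 : ℤ) ^ (2 * θ + 2 + r) * (v.2 + 1)}

theorem Ifin_subset (θ : ℕ) (v : ℕ × ℕ) : (Ifin n θ v : Set _) ⊆ Usub n θ v := by
  intro p hp
  rw [Finset.mem_coe, mem_Ifin] at hp
  obtain ⟨r, hr, h1, h2⟩ := hp
  have h3 := h2 0
  have e : acv n v.2 0 = (v.2 : ℤ) := by simp [acv]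
  rw [e] at h3
  exact ⟨r, hr.1, h1, h3.1, h3.2⟩

theorem Usub_child {θ : ℕ} {v v' : ℕ × ℕ} (h : IsChild θ v v') : Usub n θ v' ⊆ Usub n θ v := by
  rintro p ⟨r, hr, h1, h2, h3⟩
  obtain ⟨c1, c2, c3⟩ := h
  have e : (2 : ℤ) ^ (2 * θ + 2 + (r + (2 * θ + 1))) =
      (2 : ℤ) ^ (2 * θ + 2 + r) * 2 ^ (2 * θ + 1) := by
    rw [← pow_add]; congr 1; ring
  have hp : (0 : ℤ) < (2 : ℤ) ^ (2 * θ + 2 + r) := by positivity
  have d2 : (2 : ℤ) ^ (2 * θ + 1) * v.2 ≤ v'.2 := by exact_mod_cast c2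
  have d3 : (v'.2 : ℤ) + 1 ≤ (2 : ℤ) ^ (2 * θ + 1) * (v.2 + 1) := by exact_mod_cast c3
  refine ⟨r + (2 * θ + 1), by omega, ?_, ?_, ?_⟩
  · rw [h1, c1]
    push_cast
    ring
  · rw [e, mul_assoc]
    exact (mul_le_mul_of_nonneg_left d2 hp.le).trans h2
  · rw [e, mul_assoc]
    exact lt_of_lt_of_le h3 (mul_le_mul_of_nonneg_left d3 hp.le)

theorem Ifin_disjoint_child {θ : ℕ} {v v' : ℕ × ℕ} (h : IsChild θ v v') :
    Disjoint (Ifin n θ v : Set _) (Usub n θ v') := by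
  rw [Set.disjoint_left]
  rintro p hp ⟨r', hr', h1', -⟩
  rw [Finset.mem_coe, mem_Ifin] at hp
  obtain ⟨r, hr, h1, -⟩ := hp
  have hc := h.1
  rw [h1'] at h1
  rw [hc] at h1
  push_cast at h1
  have : (r : ℤ) = (2 * θ + 1) + r' := by linarith
  omega

theorem Usub_disjoint {θ l a a' : ℕ} (h : a ≠ a') :
    Disjoint (Usub n θ (l, a)) (Usub n θ (l, a')) := by
  rw [Set.disjoint_left]
  rintro p ⟨r, hr, h1, h2, h3⟩ ⟨r', hr', h1', h2', h3'⟩
  apply h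
  have hrr : r = r' := by
    rw [h1] at h1'
    simp only at h1'
    omega
  subst hrr
  simp only at h2 h3 h2' h3'
  have hp : (0 : ℤ) < (2 : ℤ) ^ (2 * θ + 2 + r) := by positivity
  have c1 := lt_of_mul_lt_mul_left (h2.trans_lt h3') hp.le
  have c2 := lt_of_mul_lt_mul_left (h2'.trans_lt h3) hp.le
  omega

theorem meas_Ev {w : ℝ} (hw : 1 ≤ w) {m : ℕ} (hm : 0 < m) (θ K0 : ℕ) (N : ℕ) :
    ∀ v : ℕ × ℕ, MeasurableSet[sg w m Q (Usub n θ v)] {ω | Ev w θ K0 m (Q ω) N v} := by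
  induction N with
  | zero =>
    intro v
    exact meas_special hw hm θ K0 v (Ifin_subset θ v)
  | succ N ih =>
    intro v
    have e : {ω | Ev w θ K0 m (Q ω) (N + 1) v} = {ω | Good w θ K0 (Q ω) v} ∩
        ({ω | Ev w θ K0 m (Q ω) N (v.1 + 1, 2 ^ (2 * θ + 1) * v.2)} ∪
          {ω | Ev w θ K0 m (Q ω) N (v.1 + 1, 2 ^ (2 * θ + 1) * v.2 + 1)}) := rfl
    rw [e]
    exact (meas_good hw hm θ K0 v (Ifin_subset θ v)).inter
      ((sg_mono (Usub_child (isChild_left θ v)) _ (ih _)).union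
        (sg_mono (Usub_child (isChild_right θ v)) _ (ih _)))

end

end Pool.Agent.Y979.AE
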