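import Pool.Agent.Y979.AE.Params

/-!
# Almost surely the configuration is locally finite and all cells are bounded
-/

set_option autoImplicit false

open MeasureTheory ProbabilityTheory Filter Topology
open scoped ENNReal

namespace Pool.Agent.Y979.AE

noncomputable section

variable {n : ℕ} {Ω : Type*} [mΩ : MeasurableSpace Ω] {P : Measure Ω} [IsProbabilityMeasure P]
  {lam : ℝ} {Q : Ω → Set (HS (n + 2))}

/-- a large box -/
def HB (n g : ℕ) : Set (HS (n + 2)) :=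
  eb (fun _ => -(2 : ℝ) ^ g) (fun _ => (2 : ℝ) ^ g) ((2 : ℝ) ^ g)⁻¹ ((2 : ℝ) ^ g)

theorem mem_HB {g : ℕ} {z : HS (n + 2)} : z ∈ HB n g ↔
    (∀ j, -(2 : ℝ) ^ g ≤ z.1.1 j ∧ z.1.1 j < (2 : ℝ) ^ g) ∧ ((2 : ℝ) ^ g)⁻¹ ≤ z.1.2 ∧
      z.1.2 < (2 : ℝ) ^ g := Iff.rfl

theorem exists_HB (z : HS (n + 2)) (T : ℝ) : ∃ g : ℕ, ∀ y : HS (n + 2), F z y ≤ T → y ∈ HB n g := by
  have hz := z.2
  obtain ⟨M, hM⟩ : ∃ M : ℝ, ∀ j, |z.1.1 j| ≤ M := by
    refine ⟨∑ j, |z.1.1 j|, fun j => ?_⟩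
    exact Finset.single_le_sum (f := fun j => |z.1.1 j|) (fun _ _ => abs_nonneg _)
      (Finset.mem_univ j)
  have ht : Tendsto (fun g : ℕ => (2 : ℝ) ^ g) atTop atTop :=
    tendsto_pow_atTop_atTop_of_one_lt (by norm_num)
  obtain ⟨g, hg⟩ := (ht.eventually_gt_atTop (M + |T| * z.1.2 + |T| / z.1.2)).exists
  refine ⟨g, fun y hy => ?_⟩
  have hT2 : 2 ≤ T := (two_le_F z y).trans hy
  have hTa : |T| = T := abs_of_nonneg (by linarith)
  rw [hTa] at hg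
  have hM0 : 0 ≤ M := (abs_nonneg _).trans (hM 0)
  have h1 : y.1.2 ≤ T * z.1.2 := height_le_of_F (by rwa [F_comm])
  have h2 : z.1.2 ≤ T * y.1.2 := height_le_of_F hy
  have h3 := fun j => horiz_le_of_F (show F y z ≤ T by rwa [F_comm]) j
  have h4 : 0 < T / z.1.2 := by positivity
  have h5 : 0 < T * z.1.2 := by positivity
  have hpos : (0 : ℝ) < 2 ^ g := by positivity
  refine mem_HB.mpr ⟨fun j => ?_, ?_, ?_⟩
  · have a1 := h3 j
    have a2 := hM j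
    rw [abs_le] at a1 a2
    constructor <;> linarith [a1.1, a1.2, a2.1, a2.2]
  · rw [inv_le_comm₀ hpos y.2]
    have h6 : y.1.2⁻¹ ≤ T / z.1.2 := by
      rw [inv_eq_one_div, div_le_div_iff₀ y.2 hz]
      linarith
    linarith
  · linarith

theorem hvol_HB (g : ℕ) : hvol (n + 2) (HB n g) ≠ ⊤ := by
  have hpos : (0 : ℝ) < 2 ^ g := by positivity
  refine ((hvol_eb_le (s := 2 * 2 ^ g) (by positivity) (by positivity)
    fun j => by ring).trans_lt ENNReal.ofReal_lt_top).ne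

theorem ae_locFin (hQ : IsPoissonProcess P (hvol (n + 2)) lam Q) (hlam : 0 < lam) :
    ∀ᵐ ω ∂P, LocFin (Q ω) := by
  have h1 : ∀ g : ℕ, ∀ᵐ ω ∂P, (Q ω ∩ HB n g).Finite := fun g =>
    hQ.ae_finite hlam.le (measurableSet_eb _ _ _ _) (hvol_HB g)
  filter_upwards [ae_all_iff.mpr h1] with ω hω
  intro z R
  obtain ⟨g, hg⟩ := exists_HB z (2 * Real.cosh R)
  refine (hω g).subset ?_
  rintro y ⟨h2, h3⟩
  exact ⟨h2, hg y (F_le_of_hdist h3)⟩

/-- the indices of the pieces of scale `2 ^ r` in a large region -/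
def Jset (n g r : ℕ) : Finset (ℤ × (Fin (n + 2) → ℤ)) :=
  (Finset.Icc (-((g + n + 7 + 2 * r : ℕ) : ℤ)) ((g + n + 7 + 2 * r : ℕ) : ℤ)) ×ˢ
    (Fintype.piFinset fun _ => Finset.Icc (-((4 ^ (g + n + 7 + 2 * r) + 1 : ℕ) : ℤ))
      ((4 ^ (g + n + 7 + 2 * r) + 1 : ℕ) : ℤ))

theorem card_Jset_le (n g r : ℕ) : ((Jset n g r).card : ℝ) ≤
    (3 * 2 ^ (g + n + 7) * (5 * 4 ^ (g + n + 7)) ^ (n + 2)) * ((2 : ℝ) ^ r) ^ (4 * n + 10) := by
  unfold Jset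
  rw [Finset.card_product, Fintype.card_piFinset, Finset.prod_const, Finset.card_univ,
    Fintype.card_fin, Int.card_Icc, Int.card_Icc]
  obtain ⟨G, hG⟩ : ∃ G : ℕ, G = g + n + 7 := ⟨_, rfl⟩
  rw [← hG]
  have e1 : (((G + 2 * r : ℕ) : ℤ) + 1 - -((G + 2 * r : ℕ) : ℤ)).toNat = 2 * (G + 2 * r) + 1 := by
    omega
  have e2 : (((4 ^ (G + 2 * r) + 1 : ℕ) : ℤ) + 1 - -((4 ^ (G + 2 * r) + 1 : ℕ) : ℤ)).toNat =
      2 * 4 ^ (G + 2 * r) + 3 := by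
    omega
  rw [e1, e2]
  have h1 : 2 * (G + 2 * r) + 1 ≤ 3 * (2 ^ G * (2 ^ r) ^ 2) := by
    have h2 : G + 2 * r < 2 ^ (G + 2 * r) := Nat.lt_two_pow_self
    have h3 : 2 ^ (G + 2 * r) = 2 ^ G * (2 ^ r) ^ 2 := by
      rw [pow_add, ← pow_mul, mul_comm r 2]
    rw [← h3]
    omega
  have h4 : 2 * 4 ^ (G + 2 * r) + 3 ≤ 5 * (4 ^ G * (2 ^ r) ^ 4) := by
    have h5 : 4 ^ (G + 2 * r) = 4 ^ G * (2 ^ r) ^ 4 := by
      have : (4 : ℕ) = 2 ^ 2 := by norm_num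
      rw [pow_add, ← pow_mul, this, ← pow_mul, ← pow_mul]
      congr 2
      ring
    rw [← h5]
    have : 1 ≤ 4 ^ (G + 2 * r) := Nat.one_le_pow _ _ (by norm_num)
    omega
  have h6 : (2 * (G + 2 * r) + 1) * (2 * 4 ^ (G + 2 * r) + 3) ^ (n + 2) ≤
      (3 * (2 ^ G * (2 ^ r) ^ 2)) * (5 * (4 ^ G * (2 ^ r) ^ 4)) ^ (n + 2) :=
    Nat.mul_le_mul h1 (Nat.pow_le_pow_left h4 _)
  have h7 : (((2 * (G + 2 * r) + 1) * (2 * 4 ^ (G + 2 * r) + 3) ^ (n + 2) : ℕ) : ℝ) ≤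
      (((3 * (2 ^ G * (2 ^ r) ^ 2)) * (5 * (4 ^ G * (2 ^ r) ^ 4)) ^ (n + 2) : ℕ) : ℝ) := by
    exact_mod_cast h6
  refine h7.trans (le_of_eq ?_)
  push_cast
  have h8 : ((2 : ℝ) ^ r) ^ (4 * n + 10) = ((2 : ℝ) ^ r) ^ 2 * (((2 : ℝ) ^ r) ^ 4) ^ (n + 2) := by
    rw [← pow_mul (((2 : ℝ) ^ r)) 4, ← pow_add]
    congr 1
    ring
  rw [h8, mul_pow, mul_pow, mul_pow]
  ring

/-- all pieces of scale `2 ^ r` in a large region contain points -/
def FullJ (n g r : ℕ) (A : Set (HS (n + 2))) : Prop :=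
  ∀ p ∈ Jset n g r, (A ∩ piece ((2 : ℝ) ^ r) p).Nonempty

theorem prob_not_full (hQ : IsPoissonProcess P (hvol (n + 2)) lam Q) (hlam : 0 < lam) (g : ℕ) :
    Tendsto (fun r : ℕ => P {ω | ¬ FullJ n g r (Q ω)}) atTop (𝓝 0) := by
  have hc : 0 < lam / 2 ^ (n + 3) := by positivity
  have hlim := limit_zero (4 * n + 10)
    (3 * 2 ^ (g + n + 7) * (5 * 4 ^ (g + n + 7)) ^ (n + 2)) hc
  have hlim2 := ENNReal.tendsto_ofReal hlim
  rw [ENNReal.ofReal_zero] at hlim2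
  refine tendsto_of_tendsto_of_tendsto_of_le_of_le tendsto_const_nhds hlim2
    (fun r => zero_le) fun r => ?_
  have hsub : {ω | ¬ FullJ n g r (Q ω)} ⊆ ⋃ p ∈ Jset n g r, {ω | Q ω ∩ piece ((2 : ℝ) ^ r) p = ∅} := by
    intro ω hω
    have hω' : ¬ FullJ n g r (Q ω) := hω
    unfold FullJ at hω'
    push Not at hω'
    obtain ⟨p, hp, h⟩ := hω'
    simp only [Set.mem_iUnion]
    exact ⟨p, hp, h⟩
  refine (measure_mono hsub).trans ((measure_biUnion_finset_le _ _).trans ?_)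
  refine (Finset.sum_le_sum fun p _ => prob_empty hQ hlam (by positivity) p).trans ?_
  rw [Finset.sum_const, nsmul_eq_mul, ← ENNReal.ofReal_natCast,
    ← ENNReal.ofReal_mul (by positivity)]
  apply ENNReal.ofReal_le_ofReal
  apply mul_le_mul (card_Jset_le n g r) _ (Real.exp_pos _).le (by positivity)
  rw [Real.exp_le_exp]
  have hw1 : (1 : ℝ) ≤ 2 ^ r := one_le_pow₀ (by norm_num)
  have h3 : (2 : ℝ) ^ r ≤ ((2 : ℝ) ^ r) ^ (n + 2) := le_self_pow₀ hw1 (by omega)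
  have h4 : lam * (((2 : ℝ) ^ r) ^ (n + 2) / 2 ^ (n + 2 + 1)) =
      lam / 2 ^ (n + 3) * ((2 : ℝ) ^ r) ^ (n + 2) := by ring
  rw [h4]
  have := mul_le_mul_of_nonneg_left h3 hc.le
  linarith

/-- a point in a large region lies in one of the pieces -/
theorem exists_Jset {g r : ℕ} {x z : HS (n + 2)} (hx : x ∈ HB n g)
    (hF : F z x ≤ (2 : ℝ) ^ (n + 6 + 2 * r)) :
    ∃ p ∈ Jset n g r, z ∈ piece ((2 : ℝ) ^ r) p := by
  obtain ⟨hx1, hx2, hx3⟩ := mem_HB.mp hx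
  have hzp := z.2
  have hxp := x.2
  have hg0 : (0 : ℝ) < 2 ^ g := by positivity
  obtain ⟨T, hT⟩ : ∃ T : ℝ, T = (2 : ℝ) ^ (n + 6 + 2 * r) := ⟨_, rfl⟩
  rw [← hT] at hF
  have hT1 : 1 ≤ T := by rw [hT]; exact one_le_pow₀ (by norm_num)
  have h1 := height_le_of_F hF
  have h2 : x.1.2 ≤ T * z.1.2 := height_le_of_F (by rwa [F_comm])
  have h3 := fun j => horiz_le_of_F hF j
  obtain ⟨H, hH⟩ : ∃ H : ℝ, H = (2 : ℝ) ^ (g + n + 7 + 2 * r) := ⟨_, rfl⟩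
  have hHT : H = 2 * (T * 2 ^ g) := by
    rw [hH, hT, ← pow_add, ← pow_succ']
    congr 1
    ring
  have hHpos : 0 < H := by rw [hH]; positivity
  have hzup : z.1.2 < H := by
    rw [hHT]
    have : T * x.1.2 ≤ T * 2 ^ g := mul_le_mul_of_nonneg_left hx3.le (by linarith)
    have : 0 < T * 2 ^ g := by positivity
    linarith
  have hzlow : H⁻¹ < z.1.2 := by
    rw [inv_lt_comm₀ hHpos hzp]
    have a1 : ((2 : ℝ) ^ g)⁻¹ ≤ T * z.1.2 := hx2.trans h2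
    have a2 : z.1.2⁻¹ ≤ T * 2 ^ g := by
      rw [inv_le_comm₀ hzp (by positivity), mul_inv]
      have a3 : T⁻¹ * (T * z.1.2) = z.1.2 := by field_simp
      rw [← a3]
      exact mul_le_mul_of_nonneg_left a1 (by positivity)
    have : 0 < T * 2 ^ g := by positivity
    linarith
  have hhor : ∀ j, |z.1.1 j| ≤ H := by
    intro j
    have a1 := h3 j
    obtain ⟨a2, a3⟩ := hx1 j
    have a4 : T * x.1.2 ≤ T * 2 ^ g := mul_le_mul_of_nonneg_left hx3.le (by linarith)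
    have a5 : (2 : ℝ) ^ g ≤ T * 2 ^ g := le_mul_of_one_le_left hg0.le hT1
    rw [hHT]
    rw [abs_le] at a1 ⊢
    constructor <;> linarith [a1.1, a1.2]
  -- the index
  have hlog1 := Int.zpow_log_le_self (b := 2) (by norm_num) hzp
  have hlog2 := Int.lt_zpow_succ_log_self (b := 2) (by norm_num) z.1.2
  push_cast at hlog1 hlog2
  set i := Int.log 2 z.1.2 with hi
  obtain ⟨G, hG⟩ : ∃ G : ℕ, G = g + n + 7 + 2 * r := ⟨_, rfl⟩
  rw [← hG] at hH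
  have hHz : H = (2 : ℝ) ^ (G : ℤ) := by rw [hH, zpow_natCast]
  have hi1 : i < G := by
    have := hlog1.trans_lt hzup
    rw [hHz] at this
    exact (zpow_lt_zpow_iff_right₀ (by norm_num)).mp this
  have hi2 : -(G : ℤ) < i + 1 := by
    have := hzlow.trans hlog2
    rw [hHz, ← zpow_neg] at this
    exact (zpow_lt_zpow_iff_right₀ (by norm_num)).mp this
  have hu : (0 : ℝ) < 2 ^ i := by positivity
  have hw1 : (1 : ℝ) ≤ 2 ^ r := one_le_pow₀ (by norm_num)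
  have hwu : (0 : ℝ) < 2 ^ r * 2 ^ i := by positivity
  have hlow : H⁻¹ ≤ (2 : ℝ) ^ r * 2 ^ i := by
    have a1 : H⁻¹ ≤ 2 ^ i := by
      rw [hHz, ← zpow_neg]
      apply zpow_le_zpow_right₀ (by norm_num)
      omega
    have a2 : (2 : ℝ) ^ i ≤ 2 ^ r * 2 ^ i := le_mul_of_one_le_left hu.le hw1
    linarith
  have hH4 : H * H = ((4 ^ G : ℕ) : ℝ) := by
    rw [hH, ← pow_add]
    push_cast
    have : (4 : ℝ) = 2 ^ 2 := by norm_num
    rw [this, ← pow_mul]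
    congr 1
    ring
  have hquot : ∀ j, |z.1.1 j / (2 ^ r * 2 ^ i)| ≤ ((4 ^ G : ℕ) : ℝ) := by
    intro j
    rw [abs_div, abs_of_pos hwu, div_le_iff₀ hwu, ← hH4]
    have a1 : H ≤ H * H * (2 ^ r * 2 ^ i) := by
      have : H * H * H⁻¹ ≤ H * H * (2 ^ r * 2 ^ i) :=
        mul_le_mul_of_nonneg_left hlow (by positivity)
      have a2 : H * H * H⁻¹ = H := by field_simp
      linarith
    exact (hhor j).trans a1
  refine ⟨(i, fun j => ⌊z.1.1 j / (2 ^ r * 2 ^ i)⌋), ?_, ?_⟩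
  · unfold Jset
    rw [← hG, Finset.mem_product, Finset.mem_Icc, Fintype.mem_piFinset]
    refine ⟨⟨by show -(G : ℤ) ≤ i; omega, by show i ≤ (G : ℤ); omega⟩, fun j => ?_⟩
    rw [Finset.mem_Icc]
    have a1 := abs_le.mp (hquot j)
    constructor
    · show -((4 ^ G + 1 : ℕ) : ℤ) ≤ ⌊z.1.1 j / (2 ^ r * 2 ^ i)⌋
      rw [Int.le_floor]
      push_cast
      have := a1.1
      push_cast at this
      linarith
    · show ⌊z.1.1 j / (2 ^ r * 2 ^ i)⌋ ≤ ((4 ^ G + 1 : ℕ) : ℤ)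
      have a2 : ⌊z.1.1 j / (2 ^ r * 2 ^ i)⌋ < ((4 ^ G + 1 : ℕ) : ℤ) := by
        rw [Int.floor_lt]
        push_cast
        have := a1.2
        push_cast at this
        linarith
      exact a2.le
  · refine ⟨fun j => ?_, hlog1, ?_⟩
    · constructor
      · have := Int.floor_le (z.1.1 j / (2 ^ r * 2 ^ i))
        rw [le_div_iff₀ hwu] at this
        show 2 ^ r * 2 ^ i * (⌊z.1.1 j / (2 ^ r * 2 ^ i)⌋ : ℝ) ≤ _
        linarith
      · have := Int.lt_floor_add_one (z.1.1 j / (2 ^ r * 2 ^ i))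
        rw [div_lt_iff₀ hwu] at this
        show _ < 2 ^ r * 2 ^ i * ((⌊z.1.1 j / (2 ^ r * 2 ^ i)⌋ : ℝ) + 1)
        linarith
    · show z.1.2 < 2 * 2 ^ i
      rw [zpow_add_one₀ (two_ne_zero)] at hlog2
      linarith

/-- bounded cells -/
theorem cell_bounded {g r : ℕ} {A : Set (HS (n + 2))} (h : FullJ n g r A) {x z : HS (n + 2)}
    (hx : x ∈ HB n g) (hz : z ∈ cell A x) :
    hdist z x ≤ Real.log (((n : ℝ) + 5) * ((2 : ℝ) ^ r) ^ 2) := by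
  have hn0 : (0 : ℝ) ≤ n := Nat.cast_nonneg n
  obtain ⟨w, hw⟩ : ∃ w : ℝ, w = 2 ^ r := ⟨_, rfl⟩
  have hw1 : 1 ≤ w := by rw [hw]; exact one_le_pow₀ (by norm_num)
  rw [← hw]
  have hbase : 1 ≤ ((n : ℝ) + 5) * w ^ 2 := by nlinarith
  obtain ⟨D, hD⟩ : ∃ D : ℝ, D = Real.log (((n : ℝ) + 5) * w ^ 2) := ⟨_, rfl⟩
  have hD0 : 0 ≤ D := by rw [hD]; exact Real.log_nonneg hbase
  have hexpD : Real.exp D = ((n : ℝ) + 5) * w ^ 2 := by rw [hD]; exact Real.exp_log (by linarith)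
  rw [← hD]
  by_contra hcon
  push Not at hcon
  obtain ⟨z', h1, h2⟩ := exists_mem_cell hz hD0 hcon.le
  have hF := F_eq_of_hdist z' x
  rw [h2] at hF
  have hup : F z' x ≤ (2 : ℝ) ^ (n + 6 + 2 * r) := by
    rw [hF]
    have a1 := cosh_le_exp hD0
    rw [hexpD] at a1
    have h5 : ((n : ℝ) + 5) ≤ 2 ^ (n + 5) := by
      have : n + 5 ≤ 2 ^ (n + 5) := Nat.lt_two_pow_self.le
      exact_mod_cast this
    have h6 : ((n : ℝ) + 5) * w ^ 2 ≤ 2 ^ (n + 5) * w ^ 2 :=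
      mul_le_mul_of_nonneg_right h5 (by positivity)
    have h7 : (2 : ℝ) ^ (n + 6 + 2 * r) = 2 * (2 ^ (n + 5) * w ^ 2) := by
      rw [hw, ← pow_mul, ← pow_add, ← pow_succ']
      congr 1
      ring
    rw [h7]
    linarith
  obtain ⟨p, hp, hzp⟩ := exists_Jset hx hup
  obtain ⟨a, haA, hap⟩ := h p hp
  have h3 := piece_diam (by positivity) hzp hap
  have h4 := hdist_le_iff.mp (h1 a haA)
  have h5 := exp_le_two_cosh D
  rw [hexpD, ← hF] at h5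
  rw [← hw] at h3
  push_cast at h3
  nlinarith

theorem ae_full (hQ : IsPoissonProcess P (hvol (n + 2)) lam Q) (hlam : 0 < lam) :
    ∀ᵐ ω ∂P, ∀ g : ℕ, ∃ r : ℕ, FullJ n g r (Q ω) := by
  rw [ae_all_iff]
  intro g
  rw [ae_iff]
  have h1 : ∀ r : ℕ, P {ω | ¬ ∃ r, FullJ n g r (Q ω)} ≤ P {ω | ¬ FullJ n g r (Q ω)} := by
    intro r
    apply measure_mono
    intro ω hω hf
    exact hω ⟨r, hf⟩
  exact le_antisymm (ge_of_tendsto' (prob_not_full hQ hlam g) h1) zero_le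

theorem ae_degrees (hQ : IsPoissonProcess P (hvol (n + 2)) lam Q) (hlam : 0 < lam) :
    ∀ᵐ ω ∂P, ∀ x : Q ω, ((voronoiGraph (Q ω)).neighborSet x).Finite := by
  filter_upwards [ae_locFin hQ hlam, ae_full hQ hlam] with ω hA hfull
  intro x
  obtain ⟨g, hg⟩ := exists_HB (x : HS (n + 2)) 2
  have hx : (x : HS (n + 2)) ∈ HB n g := hg x (by rw [F_self])
  obtain ⟨r, hr⟩ := hfull g
  set D := Real.log (((n : ℝ) + 5) * ((2 : ℝ) ^ r) ^ 2)
  have h1 : ((voronoiGraph (Q ω)).neighborSet x) ⊆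
      Subtype.val ⁻¹' {y ∈ Q ω | hdist (x : HS (n + 2)) y ≤ 2 * D} := by
    intro y hy
    obtain ⟨z, hz1, hz2⟩ := exists_touch hy
    have a1 := cell_bounded hr hx hz1
    have a2 := hz2 x x.2
    have a3 := hdist_triangle (x : HS (n + 2)) z y
    rw [hdist_comm (x : HS (n + 2)) z] at a3
    exact ⟨y.2, by linarith⟩
  exact ((hA x (2 * D)).preimage Subtype.val_injective.injOn).subset h1

end

end Pool.Agent.Y979.AE
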