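import Pool.Agent.Y979.AE.Prob

/-!
# The choice of the parameters
-/

set_option autoImplicit false

open Filter Topology

namespace Pool.Agent.Y979.AE

noncomputable section

theorem limit_zero (A : ℕ) (C : ℝ) {c : ℝ} (hc : 0 < c) :
    Tendsto (fun ω : ℕ => C * ((2 : ℝ) ^ ω) ^ A * Real.exp (-(c * 2 ^ ω))) atTop (𝓝 0) := by
  have h1 := Real.tendsto_pow_mul_exp_neg_atTop_nhds_zero A
  have h2 : Tendsto (fun ω : ℕ => c * (2 : ℝ) ^ ω) atTop atTop :=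
    (tendsto_pow_atTop_atTop_of_one_lt (by norm_num : (1 : ℝ) < 2)).const_mul_atTop hc
  have h3 := (h1.comp h2).const_mul (C / c ^ A)
  rw [mul_zero] at h3
  refine h3.congr fun ω => ?_
  simp only [Function.comp]
  rw [mul_pow]
  field_simp

theorem cosh_le_exp {t : ℝ} (ht : 0 ≤ t) : Real.cosh t ≤ Real.exp t := by
  rw [Real.cosh_eq]
  have : Real.exp (-t) ≤ Real.exp t := by rw [Real.exp_le_exp]; linarith
  linarith

theorem exp_le_two_cosh (t : ℝ) : Real.exp t ≤ 2 * Real.cosh t := by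
  rw [Real.cosh_eq]
  have := Real.exp_pos (-t)
  linarith

theorem exists_params (n : ℕ) {lam : ℝ} (hlam : 0 < lam) :
    ∃ (w D : ℝ) (θ K0 : ℕ), 1 ≤ w ∧ 0 ≤ D ∧ 0 < K0 ∧
      ((n + 2 : ℕ) : ℝ) * w ^ 2 + 5 / 2 ≤ 2 * Real.cosh D ∧
      2 * Real.cosh (5 * D + 5) < (2 : ℝ) ^ θ ∧
      (NI n θ : ℝ) * dlt (n + 2) lam w K0 ≤ 1 / 10 := by
  have hn0 : (0 : ℝ) ≤ n := Nat.cast_nonneg n
  obtain ⟨B, hB⟩ : ∃ B : ℕ, B = 5 * (n + 5) + 9 := ⟨_, rfl⟩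
  obtain ⟨A, hA⟩ : ∃ A : ℕ, A = 20 + 40 * (n + 2) := ⟨_, rfl⟩
  obtain ⟨C, hC⟩ : ∃ C : ℕ, C = 2 * B + 1 + (4 * B + 3) * (n + 2) := ⟨_, rfl⟩
  have hc : 0 < lam / 2 ^ (n + 3) := by positivity
  have hlim := limit_zero A ((2 : ℝ) ^ C) hc
  obtain ⟨ω, hω⟩ := (hlim.eventually (gt_mem_nhds (show (0 : ℝ) < 1 / 20 by norm_num))).exists
  obtain ⟨w, hw⟩ : ∃ w : ℝ, w = 2 ^ ω := ⟨_, rfl⟩
  have hw1 : 1 ≤ w := by rw [hw]; exact one_le_pow₀ (by norm_num)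
  rw [← hw] at hω
  obtain ⟨θ, hθ⟩ : ∃ θ : ℕ, θ = 10 * ω + B := ⟨_, rfl⟩
  have hbase : 1 ≤ ((n : ℝ) + 5) * w ^ 2 := by nlinarith
  obtain ⟨D, hD⟩ : ∃ D : ℝ, D = Real.log (((n : ℝ) + 5) * w ^ 2) := ⟨_, rfl⟩
  have hD0 : 0 ≤ D := by rw [hD]; exact Real.log_nonneg hbase
  have hexpD : Real.exp D = ((n : ℝ) + 5) * w ^ 2 := by rw [hD]; exact Real.exp_log (by linarith)
  have hNI : (NI n θ : ℝ) ≤ (2 : ℝ) ^ C * w ^ A := by
    have h1 : NI n θ ≤ 2 ^ (C + A * ω) := by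
      unfold NI
      have h2 : 2 * θ + 1 ≤ 2 ^ (2 * θ + 1) := Nat.lt_two_pow_self.le
      refine (Nat.mul_le_mul_right _ h2).trans (le_of_eq ?_)
      rw [← pow_mul, ← pow_add]
      congr 1
      rw [hC, hA, hθ]
      ring
    have h3 : (NI n θ : ℝ) ≤ ((2 ^ (C + A * ω) : ℕ) : ℝ) := by exact_mod_cast h1
    refine h3.trans (le_of_eq ?_)
    push_cast
    rw [pow_add, hw, ← pow_mul, mul_comm A ω]
  -- the choice of `K0`
  obtain ⟨K0, hK0⟩ := exists_nat_gt (20 * ((NI n θ : ℝ) * (lam * w ^ (n + 2))))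
  have hK0p : (0 : ℝ) < K0 := lt_of_le_of_lt (by positivity) hK0
  refine ⟨w, D, θ, K0, hw1, hD0, by exact_mod_cast hK0p, ?_, ?_, ?_⟩
  · refine le_trans ?_ (exp_le_two_cosh D)
    rw [hexpD]
    push_cast
    nlinarith
  · have h1 : Real.cosh (5 * D + 5) ≤ Real.exp (5 * D + 5) := cosh_le_exp (by linarith)
    have h2 : Real.exp (5 * D + 5) = (((n : ℝ) + 5) * w ^ 2) ^ 5 * Real.exp 1 ^ 5 := by
      rw [← hexpD, ← Real.exp_nat_mul, ← Real.exp_nat_mul, ← Real.exp_add]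
      congr 1
      push_cast
      ring
    have h3 : Real.exp 1 ^ 5 ≤ 3 ^ 5 := by
      apply pow_le_pow_left₀ (Real.exp_pos 1).le
      have := Real.exp_one_lt_d9
      linarith
    have h4 : (((n : ℝ) + 5) * w ^ 2) ^ 5 ≤ (2 : ℝ) ^ (5 * (n + 5) + 10 * ω) := by
      have h5 : ((n : ℝ) + 5) ≤ 2 ^ (n + 5) := by
        have : n + 5 ≤ 2 ^ (n + 5) := Nat.lt_two_pow_self.le
        exact_mod_cast this
      have h6 : ((n : ℝ) + 5) * w ^ 2 ≤ 2 ^ (n + 5) * w ^ 2 :=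
        mul_le_mul_of_nonneg_right h5 (by positivity)
      refine (pow_le_pow_left₀ (by linarith) h6 5).trans (le_of_eq ?_)
      rw [mul_pow, hw, ← pow_mul, ← pow_mul, ← pow_mul, ← pow_add]
      congr 1
      ring
    have h7 : (2 : ℝ) ^ θ = (2 : ℝ) ^ (5 * (n + 5) + 10 * ω) * 2 ^ 9 := by
      rw [← pow_add, hθ, hB]
      congr 1
      ring
    rw [h7]
    have h8 : (0 : ℝ) < (2 : ℝ) ^ (5 * (n + 5) + 10 * ω) := by positivity
    have h9 : (((n : ℝ) + 5) * w ^ 2) ^ 5 * Real.exp 1 ^ 5 ≤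
        (2 : ℝ) ^ (5 * (n + 5) + 10 * ω) * 3 ^ 5 :=
      mul_le_mul h4 h3 (by positivity) h8.le
    rw [h2] at h1
    nlinarith
  · unfold dlt
    rw [mul_add]
    have h1 : (NI n θ : ℝ) * Real.exp (-(lam * (w ^ (n + 2) / 2 ^ (n + 2 + 1)))) ≤ 1 / 20 := by
      have h2 : Real.exp (-(lam * (w ^ (n + 2) / 2 ^ (n + 2 + 1)))) ≤
          Real.exp (-(lam / 2 ^ (n + 3) * w)) := by
        rw [Real.exp_le_exp]
        have h3 : w ≤ w ^ (n + 2) := le_self_pow₀ hw1 (by omega)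
        have h4 : lam * (w ^ (n + 2) / 2 ^ (n + 2 + 1)) = lam / 2 ^ (n + 3) * w ^ (n + 2) := by
          ring
        rw [h4]
        have := mul_le_mul_of_nonneg_left h3 hc.le
        linarith
      refine le_trans ?_ hω.le
      exact mul_le_mul hNI h2 (Real.exp_pos _).le (by positivity)
    have h5 : (NI n θ : ℝ) * (lam * w ^ (n + 2) / K0) ≤ 1 / 20 := by
      rw [mul_div_assoc', div_le_iff₀ hK0p]
      linarith
    linarith

end

end Pool.Agent.Y979.AE
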