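import Pool.Agent.Y979.AE.Boxes

/-!
# The pieces of a node, good nodes and special nodes
-/

set_option autoImplicit false

namespace Pool.Agent.Y979.AE

noncomputable section

variable {n : ℕ}

/-- the indices of the pieces of a node -/
def Ifin (n θ : ℕ) (v : ℕ × ℕ) : Finset (ℤ × (Fin (n + 2) → ℤ)) :=
  (Finset.Icc 1 (2 * θ + 1)).biUnion fun r =>
    (Fintype.piFinset fun j => Finset.Ico ((2 : ℤ) ^ (2 * θ + 2 + r) * acv n v.2 j)
      ((2 : ℤ) ^ (2 * θ + 2 + r) * (acv n v.2 j + 1))).image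
      fun c => ((2 * θ + 1 : ℤ) - (2 * θ + 1) * v.1 - r, c)

theorem mem_Ifin {θ : ℕ} {v : ℕ × ℕ} {p : ℤ × (Fin (n + 2) → ℤ)} : p ∈ Ifin n θ v ↔
    ∃ r : ℕ, (1 ≤ r ∧ r ≤ 2 * θ + 1) ∧ p.1 = (2 * θ + 1 : ℤ) - (2 * θ + 1) * v.1 - r ∧
      ∀ j, (2 : ℤ) ^ (2 * θ + 2 + r) * acv n v.2 j ≤ p.2 j ∧
        p.2 j < (2 : ℤ) ^ (2 * θ + 2 + r) * (acv n v.2 j + 1) := by
  unfold Ifin
  simp only [Finset.mem_biUnion, Finset.mem_Icc, Finset.mem_image, Fintype.mem_piFinset,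
    Finset.mem_Ico]
  constructor
  · rintro ⟨r, hr, c, hc, rfl⟩
    exact ⟨r, hr, rfl, hc⟩
  · rintro ⟨r, hr, h1, h2⟩
    exact ⟨r, hr, p.2, h2, Prod.ext h1.symm rfl⟩

/-- a bound for the number of pieces of a node -/
def NI (n θ : ℕ) : ℕ := (2 * θ + 1) * (2 ^ (4 * θ + 3)) ^ (n + 2)

theorem card_Ifin_le (θ : ℕ) (v : ℕ × ℕ) : (Ifin n θ v).card ≤ NI n θ := by
  unfold Ifin NI
  refine Finset.card_biUnion_le.trans ?_
  have h1 : ∀ r ∈ Finset.Icc 1 (2 * θ + 1),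
      ((Fintype.piFinset fun j => Finset.Ico ((2 : ℤ) ^ (2 * θ + 2 + r) * acv n v.2 j)
      ((2 : ℤ) ^ (2 * θ + 2 + r) * (acv n v.2 j + 1))).image
      fun c => ((2 * θ + 1 : ℤ) - (2 * θ + 1) * v.1 - r, c)).card ≤
        (2 ^ (4 * θ + 3)) ^ (n + 2) := by
    intro r hr
    rw [Finset.mem_Icc] at hr
    refine Finset.card_image_le.trans ?_
    rw [Fintype.card_piFinset]
    have h2 : ∀ j : Fin (n + 2), (Finset.Ico ((2 : ℤ) ^ (2 * θ + 2 + r) * acv n v.2 j)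
      ((2 : ℤ) ^ (2 * θ + 2 + r) * (acv n v.2 j + 1))).card = 2 ^ (2 * θ + 2 + r) := by
      intro j
      rw [Int.card_Ico]
      have : (2 : ℤ) ^ (2 * θ + 2 + r) * (acv n v.2 j + 1) -
          (2 : ℤ) ^ (2 * θ + 2 + r) * acv n v.2 j = ((2 ^ (2 * θ + 2 + r) : ℕ) : ℤ) := by
        push_cast; ring
      rw [this, Int.toNat_natCast]
    rw [Finset.prod_congr rfl fun j _ => h2 j, Finset.prod_const, Finset.card_univ,
      Fintype.card_fin]
    apply Nat.pow_le_pow_left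
    apply Nat.pow_le_pow_right (by norm_num)
    omega
  refine (Finset.sum_le_sum h1).trans ?_
  rw [Finset.sum_const, Nat.card_Icc, smul_eq_mul]
  simp

theorem scale_eq (w : ℝ) (θ l r : ℕ) :
    w * (2 : ℝ) ^ ((2 * θ + 1 : ℤ) - (2 * θ + 1) * l - r) * ((2 : ℤ) ^ (2 * θ + 2 + r) : ℤ) =
      side w θ l := by
  unfold side pw
  push_cast
  have e1 : (2 : ℝ) ^ (2 * θ + 2 + r) = (2 : ℝ) ^ ((2 * θ + 2 + r : ℕ) : ℤ) := by
    rw [zpow_natCast]
  have e2 : (8 : ℝ) * ((2 : ℝ) ^ θ) ^ 4 = (2 : ℝ) ^ ((4 * θ + 3 : ℕ) : ℤ) := by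
    rw [zpow_natCast, pow_add, mul_comm 4 θ, pow_mul]
    ring
  rw [e1, mul_assoc, ← zpow_add₀ (two_ne_zero), mul_assoc w 8, e2, mul_assoc,
    ← zpow_add₀ (two_ne_zero)]
  congr 2
  push_cast
  ring

theorem exists_piece {w : ℝ} (hw : 0 < w) {θ : ℕ} {v : ℕ × ℕ} {z : HS (n + 2)}
    (hz : z ∈ nbox n w θ v) : ∃ p ∈ Ifin n θ v, z ∈ piece w p := by
  obtain ⟨h1, h2, h3⟩ := hz
  have hzp := z.2
  have hlog1 := Int.zpow_log_le_self (b := 2) (by norm_num) hzp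
  have hlog2 := Int.lt_zpow_succ_log_self (b := 2) (by norm_num) z.1.2
  push_cast at hlog1 hlog2
  set i := Int.log 2 z.1.2 with hi
  have hlow : -((2 * (θ : ℤ) + 1) * v.1) < i + 1 := by
    unfold pw at h2
    have := h2.trans_lt hlog2
    exact (zpow_lt_zpow_iff_right₀ (by norm_num)).mp this
  have hhigh : i < (2 * (θ : ℤ) + 1) - (2 * θ + 1) * v.1 := by
    have e : (2 : ℝ) * ((2 : ℝ) ^ θ) ^ 2 * pw θ v.1 =
        (2 : ℝ) ^ ((2 * (θ : ℤ) + 1) - (2 * θ + 1) * v.1) := by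
      unfold pw
      have e' : (2 : ℝ) * ((2 : ℝ) ^ θ) ^ 2 = (2 : ℝ) ^ (2 * (θ : ℤ) + 1) := by
        rw [zpow_add₀ (two_ne_zero), zpow_one, zpow_mul, zpow_natCast, mul_comm]
        congr 1
        rw [← pow_mul, mul_comm θ 2, pow_mul]
        norm_cast
      rw [e', ← zpow_add₀ (two_ne_zero)]
      congr 1
    rw [e] at h3
    have := hlog1.trans_lt h3
    exact (zpow_lt_zpow_iff_right₀ (by norm_num)).mp this
  obtain ⟨r, hr⟩ : ∃ r : ℕ, (r : ℤ) = (2 * (θ : ℤ) + 1) - (2 * θ + 1) * v.1 - i :=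
    ⟨((2 * (θ : ℤ) + 1) - (2 * θ + 1) * v.1 - i).toNat, Int.toNat_of_nonneg (by omega)⟩
  have hi' : i = (2 * (θ : ℤ) + 1) - (2 * θ + 1) * v.1 - r := by omega
  have hw2 : 0 < w * (2 : ℝ) ^ i := by positivity
  have hsc := scale_eq w θ v.1 r
  rw [← hi'] at hsc
  refine ⟨(i, fun j => ⌊z.1.1 j / (w * 2 ^ i)⌋), ?_, ?_⟩
  · rw [mem_Ifin]
    refine ⟨r, ⟨by omega, by omega⟩, hi', fun j => ?_⟩
    obtain ⟨a1, a2⟩ := h1 j
    constructor
    · rw [Int.le_floor, le_div_iff₀ hw2]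
      push_cast
      push_cast at hsc
      rw [← hsc] at a1
      linarith
    · rw [Int.floor_lt, div_lt_iff₀ hw2]
      push_cast
      push_cast at hsc
      rw [← hsc] at a2
      linarith
  · refine ⟨fun j => ?_, hlog1, ?_⟩
    · constructor
      · have := Int.floor_le (z.1.1 j / (w * 2 ^ i))
        rw [le_div_iff₀ hw2] at this
        show w * 2 ^ i * (⌊z.1.1 j / (w * 2 ^ i)⌋ : ℝ) ≤ _
        linarith
      · have := Int.lt_floor_add_one (z.1.1 j / (w * 2 ^ i))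
        rw [div_lt_iff₀ hw2] at this
        show _ < w * 2 ^ i * ((⌊z.1.1 j / (w * 2 ^ i)⌋ : ℝ) + 1)
        linarith
    · show z.1.2 < 2 * 2 ^ i
      rw [zpow_add_one₀ (two_ne_zero)] at hlog2
      linarith

/-- the central piece of a node -/
def starp (n θ : ℕ) (v : ℕ × ℕ) : ℤ × (Fin (n + 2) → ℤ) :=
  ((θ : ℤ) - (2 * θ + 1) * v.1, fun j => 2 ^ (3 * θ + 2) * (2 * acv n v.2 j + 1))

theorem starp_mem (θ : ℕ) (v : ℕ × ℕ) : starp n θ v ∈ Ifin n θ v := by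
  rw [mem_Ifin]
  refine ⟨θ + 1, ⟨by omega, by omega⟩, ?_, fun j => ?_⟩
  · show (θ : ℤ) - (2 * θ + 1) * v.1 = _
    push_cast
    ring
  · have e : (2 : ℤ) ^ (2 * θ + 2 + (θ + 1)) = 2 * 2 ^ (3 * θ + 2) := by
      rw [← pow_succ']
      congr 1
      ring
    have hp : (0 : ℤ) < 2 ^ (3 * θ + 2) := by positivity
    show (2 : ℤ) ^ (2 * θ + 2 + (θ + 1)) * acv n v.2 j ≤ 2 ^ (3 * θ + 2) * (2 * acv n v.2 j + 1) ∧
      2 ^ (3 * θ + 2) * (2 * acv n v.2 j + 1) < (2 : ℤ) ^ (2 * θ + 2 + (θ + 1)) * (acv n v.2 j + 1)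
    rw [e]
    constructor <;> nlinarith

theorem opt_mem_star {w : ℝ} (hw : 0 < w) (θ : ℕ) (v : ℕ × ℕ) :
    opt n w θ v ∈ piece w (starp n θ v) := by
  have hcen : ∀ j, w * (2 : ℝ) ^ (starp n θ v).1 * ((starp n θ v).2 j : ℝ) = cen n w θ v j := by
    intro j
    have hsc := scale_eq w θ v.1 (θ + 1)
    have e1 : ((2 * θ + 1 : ℤ) - (2 * θ + 1) * v.1 - ((θ + 1 : ℕ) : ℤ)) = (starp n θ v).1 := by
      show _ = (θ : ℤ) - (2 * θ + 1) * v.1
      push_cast; ring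
    rw [e1] at hsc
    unfold cen
    rw [← hsc]
    have e2 : (((2 : ℤ) ^ (2 * θ + 2 + (θ + 1)) : ℤ) : ℝ) = 2 * 2 ^ (3 * θ + 2) := by
      push_cast
      rw [← pow_succ']
      congr 1
      ring
    rw [e2]
    show w * (2 : ℝ) ^ (starp n θ v).1 * (((2 ^ (3 * θ + 2) * (2 * acv n v.2 j + 1) : ℤ)) : ℝ) = _
    push_cast
    ring
  have hh : (2 : ℝ) ^ (starp n θ v).1 = hm θ v.1 := by
    unfold hm pw
    show (2 : ℝ) ^ ((θ : ℤ) - (2 * θ + 1) * v.1) = _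
    rw [sub_eq_add_neg, zpow_add₀ (two_ne_zero), zpow_natCast]
  refine ⟨fun j => ?_, ?_, ?_⟩
  · show w * (2 : ℝ) ^ (starp n θ v).1 * ((starp n θ v).2 j : ℝ) ≤ cen n w θ v j ∧
      cen n w θ v j < w * (2 : ℝ) ^ (starp n θ v).1 * ((starp n θ v).2 j + 1)
    rw [mul_add, hcen j]
    have : 0 < w * (2 : ℝ) ^ (starp n θ v).1 := by positivity
    constructor <;> linarith
  · show (2 : ℝ) ^ (starp n θ v).1 ≤ hm θ v.1
    rw [hh]
  · show hm θ v.1 < 2 * (2 : ℝ) ^ (starp n θ v).1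
    rw [hh]
    have := hm_pos θ v.1
    linarith

/-! ### the cluster in a piece -/

/-- a tiny cube in a piece -/
def tc (w : ℝ) (m : ℕ) (p : ℤ × (Fin (n + 2) → ℤ)) (pb : Fin m × Bool) : Set (HS (n + 2)) :=
  {z | (∀ j, 2 ^ p.1 * (w * p.2 j + (w / 2 + off n m pb j)) ≤ z.1.1 j ∧
      z.1.1 j < 2 ^ p.1 * (w * p.2 j + (w / 2 + off n m pb j + eta n m))) ∧
    2 ^ p.1 * (3 / 2 + hoff pb.2) ≤ z.1.2 ∧ z.1.2 < 2 ^ p.1 * (3 / 2 + hoff pb.2 + eta n m)}

/-- the configuration in a piece with a cluster -/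
def ClusterOK (w : ℝ) (m : ℕ) (A : Set (HS (n + 2))) (p : ℤ × (Fin (n + 2) → ℤ)) : Prop :=
  (∀ pb : Fin m × Bool, (A ∩ tc w m p pb).encard = 1) ∧
    ∀ a ∈ A, a ∈ piece w p → ∃ pb : Fin m × Bool, a ∈ tc w m p pb

/-- a similarity -/
def sim (u : ℝ) (hu : 0 < u) (b : Fin (n + 2) → ℝ) (z : HS (n + 2)) : HS (n + 2) :=
  ⟨(fun j => u * (b j + z.1.1 j), u * z.1.2), mul_pos hu z.2⟩

theorem F_sim (u : ℝ) (hu : 0 < u) (b : Fin (n + 2) → ℝ) (z z' : HS (n + 2)) :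
    F (sim u hu b z) (sim u hu b z') = F z z' := by
  have hz := z.2
  have hz' := z'.2
  unfold F sim
  simp only
  have : ∑ i, (u * (b i + z.1.1 i) - u * (b i + z'.1.1 i)) ^ 2 =
      u ^ 2 * ∑ i, (z.1.1 i - z'.1.1 i) ^ 2 := by
    rw [Finset.mul_sum]
    exact Finset.sum_congr rfl fun i _ => by ring
  rw [this]
  field_simp

theorem sim_injective (u : ℝ) (hu : 0 < u) (b : Fin (n + 2) → ℝ) :
    Function.Injective (sim u hu b : HS (n + 2) → HS (n + 2)) := by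
  intro z z' h
  apply eq_of_F_eq_two
  rw [← F_sim u hu b, h, F_self]

theorem sim_surjective (u : ℝ) (hu : 0 < u) (b : Fin (n + 2) → ℝ) :
    Function.Surjective (sim u hu b : HS (n + 2) → HS (n + 2)) := by
  intro a
  refine ⟨⟨(fun j => a.1.1 j / u - b j, a.1.2 / u), div_pos a.2 hu⟩, ?_⟩
  apply Subtype.ext
  refine Prod.ext (funext fun j => ?_) ?_
  · show u * (b j + (a.1.1 j / u - b j)) = a.1.1 j
    field_simp
    ring
  · show u * (a.1.2 / u) = a.1.2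
    field_simp

theorem cluster_adj {A : Set (HS (n + 2))} (hA : LocFin A) {w : ℝ} (hw : 1 ≤ w) {m : ℕ}
    (hm : 0 < m) {p : ℤ × (Fin (n + 2) → ℤ)} (h : ClusterOK w m A p) {i j : Fin m} {x y : A}
    (hx : (x : HS (n + 2)) ∈ tc w m p (i, false)) (hy : (y : HS (n + 2)) ∈ tc w m p (j, true)) :
    (voronoiGraph A).Adj x y := by
  have hu : (0 : ℝ) < 2 ^ p.1 := by positivity
  obtain ⟨u, hu'⟩ : ∃ u : ℝ, u = 2 ^ p.1 := ⟨_, rfl⟩
  obtain ⟨b, hb⟩ : ∃ b : Fin (n + 2) → ℝ, b = fun j => w * p.2 j := ⟨_, rfl⟩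
  rw [← hu'] at hu
  let σ : HS (n + 2) → HS (n + 2) := sim u hu b
  have hσi : Function.Injective σ := sim_injective u hu b
  have hσs : Function.Surjective σ := sim_surjective u hu b
  have hσF : ∀ z z', F (σ z) (σ z') = F z z' := F_sim u hu b
  have htc : ∀ (z : HS (n + 2)) (pb : Fin m × Bool), σ z ∈ tc w m p pb ↔ z ∈ tcu w m pb := by
    intro z pb
    unfold tc tcu
    rw [← hu']
    constructor
    · rintro ⟨h1, h2, h3⟩
      refine ⟨fun j => ?_, ?_, ?_⟩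
      · obtain ⟨a1, a2⟩ := h1 j
        have e : (σ z).1.1 j = u * (w * p.2 j + z.1.1 j) := by
          show u * (b j + z.1.1 j) = _
          rw [hb]
        rw [e] at a1 a2
        have a3 := le_of_mul_le_mul_left a1 hu
        have a4 := lt_of_mul_lt_mul_left a2 hu.le
        constructor <;> linarith
      · exact le_of_mul_le_mul_left h2 hu
      · exact lt_of_mul_lt_mul_left h3 hu.le
    · rintro ⟨h1, h2, h3⟩
      refine ⟨fun j => ?_, ?_, ?_⟩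
      · obtain ⟨a1, a2⟩ := h1 j
        have e : (σ z).1.1 j = u * (w * p.2 j + z.1.1 j) := by
          show u * (b j + z.1.1 j) = _
          rw [hb]
        rw [e]
        exact ⟨mul_le_mul_of_nonneg_left (by linarith) hu.le,
          mul_lt_mul_of_pos_left (by linarith) hu⟩
      · exact mul_le_mul_of_nonneg_left h2 hu.le
      · exact mul_lt_mul_of_pos_left h3 hu
  have hpc : ∀ z : HS (n + 2), z ∈ unitBox w → σ z ∈ piece w p := by
    intro z hz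
    unfold piece
    rw [← hu']
    obtain ⟨h1, h2, h3⟩ := hz
    refine ⟨fun j => ?_, ?_, ?_⟩
    · obtain ⟨a1, a2⟩ := h1 j
      have e : (σ z).1.1 j = u * (w * p.2 j + z.1.1 j) := by
        show u * (b j + z.1.1 j) = _
        rw [hb]
      rw [e]
      constructor <;> nlinarith
    · show u ≤ u * z.1.2
      nlinarith
    · show u * z.1.2 < 2 * u
      nlinarith
  obtain ⟨x', hx'⟩ := hσs x
  obtain ⟨y', hy'⟩ := hσs y
  rw [← hx', htc] at hx
  rw [← hy', htc] at hy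
  have hone : ∀ pb : Fin m × Bool, (σ ⁻¹' A ∩ tcu w m pb).encard = 1 := by
    intro pb
    have e : A ∩ tc w m p pb = σ '' (σ ⁻¹' A ∩ tcu w m pb) := by
      ext a
      constructor
      · rintro ⟨h1, h2⟩
        obtain ⟨a', rfl⟩ := hσs a
        exact ⟨a', ⟨h1, (htc a' pb).mp h2⟩, rfl⟩
      · rintro ⟨a', ⟨h1, h2⟩, rfl⟩
        exact ⟨h1, (htc a' pb).mpr h2⟩
    have := h.1 pb
    rw [e, hσi.encard_image] at this
    exact this
  have hcovb : ∀ a ∈ σ ⁻¹' A, a ∈ unitBox w → ∃ pb : Fin m × Bool, a ∈ tcu w m pb := by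
    intro a ha hab
    obtain ⟨pb, hpb⟩ := h.2 (σ a) ha (hpc a hab)
    exact ⟨pb, (htc a pb).mp hpb⟩
  have hxA : x' ∈ σ ⁻¹' A := by rw [Set.mem_preimage, hx']; exact x.2
  have hyA : y' ∈ σ ⁻¹' A := by rw [Set.mem_preimage, hy']; exact y.2
  obtain ⟨z, hz1, hz2⟩ := unit_cluster (A := σ ⁻¹' A) hw hm hone hcovb hxA hx hyA hy
  apply strict_adj hA (z := σ z)
  · rintro rfl
    have e : x' = y' := hσi (by rw [hx', hy'])
    rw [e] at hx
    have h1 := hx.2.2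
    have h2 := hy.2.1
    have h3 := eta_le (n := n) hm
    have h4 := eta_pos (n := n) hm
    have h5 : (0 : ℝ) ≤ n := Nat.cast_nonneg n
    simp only [hoff, Bool.false_eq_true, if_false, if_true] at h1 h2
    nlinarith
  · rw [← hx', ← hy', hσF, hσF]
    exact hz1
  · intro a ha h1 h2
    obtain ⟨a', rfl⟩ := hσs a
    rw [← hx', hσF, hσF]
    apply hz2 a' ha
    · rintro rfl
      exact h1 hx'
    · rintro rfl
      exact h2 hy'

/-- the two families of cluster points -/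
theorem cluster_points {A : Set (HS (n + 2))} {w : ℝ} {m : ℕ} (hm : 0 < m)
    {p : ℤ × (Fin (n + 2) → ℤ)} (h : ClusterOK w m A p) (b : Bool) :
    ∃ X : Fin m → A, Function.Injective X ∧ ∀ i, (X i : HS (n + 2)) ∈ tc w m p (i, b) := by
  have hex : ∀ i : Fin m, ∃ x : A, (x : HS (n + 2)) ∈ tc w m p (i, b) := by
    intro i
    have h1 := h.1 (i, b)
    obtain ⟨x, hx1, hx2⟩ : (A ∩ tc w m p (i, b)).Nonempty := by
      rw [← Set.encard_pos, h1]
      exact one_pos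
    exact ⟨⟨x, hx1⟩, hx2⟩
  choose X hX using hex
  refine ⟨X, fun i j hij => ?_, hX⟩
  by_contra hne
  have h1 := hX i
  have h2 := hX j
  rw [hij] at h1
  have hu : (0 : ℝ) < 2 ^ p.1 := by positivity
  have h3 := sep (n := n) hm hne
  have h4 := eta_pos (n := n) hm
  have h5 := eta_le (n := n) hm
  have h6 : (0 : ℝ) ≤ n := Nat.cast_nonneg n
  have key : |((j : ℕ) : ℝ) / (8 * m) - ((i : ℕ) : ℝ) / (8 * m)| < eta n m := by
    have hc : ∀ c : Fin (n + 2), c = (if b then 1 else 0) →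
        off n m (i, b) c = ((i : ℕ) : ℝ) / (8 * m) ∧ off n m (j, b) c = ((j : ℕ) : ℝ) / (8 * m) := by
      intro c hc
      unfold off
      simp only
      rw [if_pos hc, if_pos hc]
      exact ⟨rfl, rfl⟩
    obtain ⟨e1, e2⟩ := hc _ rfl
    obtain ⟨a1, a2⟩ := h1.1 (if b then 1 else 0)
    obtain ⟨b1, b2⟩ := h2.1 (if b then 1 else 0)
    rw [e1] at a1 a2
    rw [e2] at b1 b2
    have c1 := lt_of_mul_lt_mul_left (a1.trans_lt b2) hu.le
    have c2 := lt_of_mul_lt_mul_left (b1.trans_lt a2) hu.le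
    rw [abs_lt]
    constructor <;> linarith
  have h7 : (((j : ℕ) : ℝ) / (8 * m) - ((i : ℕ) : ℝ) / (8 * m)) ^ 2 < eta n m ^ 2 := by
    rw [← sq_abs]
    exact pow_lt_pow_left₀ key (abs_nonneg _) two_ne_zero
  nlinarith

end

end Pool.Agent.Y979.AE
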