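import Pool.Agent.Y979.AE.Defs

/-!
# Poisson processes: counts, void probabilities and independence
-/

set_option autoImplicit false

open Real MeasureTheory ProbabilityTheory
open scoped ENNReal

namespace Pool.Agent.Y979.AE

noncomputable section

variable {Ω X : Type*} [MeasurableSpace Ω] [MeasurableSpace X] {P : Measure Ω} {μm : Measure X}
  {lam : ℝ} {Q : Ω → Set X}

theorem IsPoissonProcess.lintegral_count [IsProbabilityMeasure P] (hQ : IsPoissonProcess P μm lam Q)
    (hlam : 0 ≤ lam) {B : Set X} (hB : MeasurableSet B) (hv : μm B ≠ ⊤) (g : ℕ∞ → ℝ≥0∞) :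
    ∫⁻ ω, g (Q ω ∩ B).encard ∂P = ∑' k : ℕ, g k *
      ENNReal.ofReal (Real.exp (-(lam * (μm B).toReal)) * (lam * (μm B).toReal) ^ k /
        (k.factorial : ℝ)) := by
  have hN := hQ.measurable_count B hB
  set μ : ℝ := lam * (μm B).toReal with hμ
  have hμ0 : 0 ≤ μ := by positivity
  have h1 : ∀ k : ℕ, (P.map (fun ω => (Q ω ∩ B).encard)) {(k : ℕ∞)} =
      ENNReal.ofReal (Real.exp (-μ) * μ ^ k / (k.factorial : ℝ)) := by
    intro k
    rw [Measure.map_apply hN (measurableSet_singleton _)]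
    exact hQ.law_count B hB hv k
  have h2 : ∑' k : ℕ, (P.map (fun ω => (Q ω ∩ B).encard)) {(k : ℕ∞)} = 1 := by
    simp_rw [h1]
    have h3 : HasSum (fun k : ℕ => Real.exp (-μ) * μ ^ k / (k.factorial : ℝ)) 1 :=
      ProbabilityTheory.hasSum_one_poissonMeasure ⟨μ, hμ0⟩
    rw [← ENNReal.ofReal_tsum_of_nonneg (fun n => by positivity) h3.summable, h3.tsum_eq,
      ENNReal.ofReal_one]
  have hprob : IsProbabilityMeasure (P.map (fun ω => (Q ω ∩ B).encard)) :=
    Measure.isProbabilityMeasure_map hN.aemeasurable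
  have htop : (P.map (fun ω => (Q ω ∩ B).encard)) {(⊤ : ℕ∞)} = 0 := by
    have hcov : (⋃ k : ℕ, {(k : ℕ∞)}) ∪ {(⊤ : ℕ∞)} = Set.univ := by
      ext x
      simp only [Set.mem_union, Set.mem_iUnion, Set.mem_singleton_iff, Set.mem_univ, iff_true]
      rcases eq_or_ne x ⊤ with h | h
      · exact Or.inr h
      · exact Or.inl ⟨x.toNat, (ENat.natCast_toNat h).symm⟩
    have hdis : Disjoint (⋃ k : ℕ, {(k : ℕ∞)}) {(⊤ : ℕ∞)} := by
      rw [Set.disjoint_left]
      intro x hx hx'
      rw [Set.mem_iUnion] at hx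
      obtain ⟨k, hk⟩ := hx
      rw [Set.mem_singleton_iff] at hk hx'
      rw [hx'] at hk
      exact ENat.natCast_ne_top k hk.symm
    have h4 : (P.map (fun ω => (Q ω ∩ B).encard)) ((⋃ k : ℕ, {(k : ℕ∞)}) ∪ {(⊤ : ℕ∞)}) = 1 := by
      rw [hcov]; exact measure_univ
    rw [measure_union hdis (measurableSet_singleton _), measure_iUnion, h2] at h4
    · have h5 : (1 : ℝ≥0∞) + (P.map (fun ω => (Q ω ∩ B).encard)) {(⊤ : ℕ∞)} = 1 + 0 := by
        rw [h4, add_zero]
      exact (ENNReal.add_right_inj ENNReal.one_ne_top).mp h5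
    · intro a b hab
      rw [Function.onFun, Set.disjoint_singleton]
      exact_mod_cast hab
    · intro k; exact measurableSet_singleton _
  have h5 : ∫⁻ ω, g (Q ω ∩ B).encard ∂P = ∫⁻ x, g x ∂(P.map (fun ω => (Q ω ∩ B).encard)) := by
    rw [lintegral_map (measurable_of_countable g) hN]
  rw [h5, lintegral_countable']
  have h6 : Function.Injective (Nat.cast : ℕ → ℕ∞) := Nat.cast_injective
  rw [← h6.tsum_eq (f := fun x : ℕ∞ => g x * (P.map (fun ω => (Q ω ∩ B).encard)) {x})]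
  · refine tsum_congr fun k => ?_
    rw [h1]
  · intro x hx
    rcases eq_or_ne x ⊤ with h | h
    · rw [Function.mem_support, h, htop, mul_zero] at hx
      exact absurd rfl hx
    · exact ⟨x.toNat, ENat.natCast_toNat h⟩

theorem IsPoissonProcess.void_prob (hQ : IsPoissonProcess P μm lam Q) {B : Set X}
    (hB : MeasurableSet B) (hv : μm B ≠ ⊤) :
    P {ω | Q ω ∩ B = ∅} = ENNReal.ofReal (Real.exp (-(lam * (μm B).toReal))) := by
  have := hQ.law_count B hB hv 0
  simpa [Set.encard_eq_zero] using this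

theorem IsPoissonProcess.ae_finite [IsProbabilityMeasure P] (hQ : IsPoissonProcess P μm lam Q)
    (hlam : 0 ≤ lam) {B : Set X} (hB : MeasurableSet B) (hv : μm B ≠ ⊤) :
    ∀ᵐ ω ∂P, (Q ω ∩ B).Finite := by
  have h := hQ.lintegral_count hlam hB hv (fun n => if n = ⊤ then 1 else 0)
  have h1 : ∑' k : ℕ, (fun n : ℕ∞ => if n = ⊤ then (1 : ℝ≥0∞) else 0) k *
      ENNReal.ofReal (Real.exp (-(lam * (μm B).toReal)) * (lam * (μm B).toReal) ^ k /
        (k.factorial : ℝ)) = 0 := by
    rw [ENNReal.tsum_eq_zero]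
    intro k
    simp
  rw [h1, lintegral_eq_zero_iff] at h
  · filter_upwards [h] with ω hω
    by_contra hcon
    have h2 : (Q ω ∩ B).encard = ⊤ := Set.Infinite.encard_eq hcon
    simp only [Pi.zero_apply, h2, if_true] at hω
    exact one_ne_zero hω
  · exact (measurable_of_countable (fun n : ℕ∞ => if n = ⊤ then (1 : ℝ≥0∞) else 0)).comp
      (hQ.measurable_count B hB)

theorem hasSum_fact (μ : ℝ) (j : ℕ) :
    HasSum (fun k : ℕ => ((k.descFactorial j : ℕ) : ℝ) *
      (Real.exp (-μ) * μ ^ k / (k.factorial : ℝ))) (μ ^ j) := by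
  have h0 : HasSum (fun k : ℕ => μ ^ k / (k.factorial : ℝ)) (Real.exp μ) := by
    have := NormedSpace.expSeries_div_hasSum_exp (𝔸 := ℝ) μ
    rwa [← Real.exp_eq_exp_ℝ] at this
  rw [← hasSum_nat_add_iff' j]
  have hz : ∑ i ∈ Finset.range j, ((i.descFactorial j : ℕ) : ℝ) *
      (Real.exp (-μ) * μ ^ i / (i.factorial : ℝ)) = 0 := by
    refine Finset.sum_eq_zero fun i hi => ?_
    rw [Nat.descFactorial_eq_zero_iff_lt.mpr (Finset.mem_range.mp hi)]
    simp
  rw [hz, sub_zero]
  have h1 := h0.mul_left (μ ^ j * Real.exp (-μ))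
  have h2 : μ ^ j * Real.exp (-μ) * Real.exp μ = μ ^ j := by
    rw [mul_assoc, ← Real.exp_add]; simp
  rw [h2] at h1
  have h3 : (fun k : ℕ => (((k + j).descFactorial j : ℕ) : ℝ) *
      (Real.exp (-μ) * μ ^ (k + j) / ((k + j).factorial : ℝ))) =
      fun k : ℕ => μ ^ j * Real.exp (-μ) * (μ ^ k / (k.factorial : ℝ)) := by
    funext k
    have h4 : (((k + j).factorial : ℕ) : ℝ) = (k.factorial : ℝ) * ((k + j).descFactorial j : ℕ) := by
      have := Nat.factorial_mul_descFactorial (Nat.le_add_left j k)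
      rw [Nat.add_sub_cancel] at this
      exact_mod_cast this.symm
    have h5 : ((k.factorial : ℕ) : ℝ) ≠ 0 := by positivity
    have h6 : (((k + j).descFactorial j : ℕ) : ℝ) ≠ 0 := by
      have : 0 < (k + j).descFactorial j := Nat.descFactorial_pos.mpr (Nat.le_add_left j k)
      positivity
    rw [h4, pow_add]
    field_simp
  rw [h3]
  exact h1

theorem hasSum_one (μ : ℝ) :
    HasSum (fun k : ℕ => (k : ℝ) * (Real.exp (-μ) * μ ^ k / (k.factorial : ℝ))) μ := by
  have h := hasSum_fact μ 1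
  rw [pow_one] at h
  simpa using h


/-- Markov's inequality for the number of points -/
theorem IsPoissonProcess.tail_le [IsProbabilityMeasure P] (hQ : IsPoissonProcess P μm lam Q)
    (hlam : 0 ≤ lam) {B : Set X} (hB : MeasurableSet B) (hv : μm B ≠ ⊤) {K : ℕ} (hK : 0 < K) :
    P {ω | ¬ (Q ω ∩ B).encard ≤ K} ≤ ENNReal.ofReal (lam * (μm B).toReal / K) := by
  have hμ0 : 0 ≤ lam * (μm B).toReal := by positivity
  have h := hQ.lintegral_count hlam hB hv (fun n => (n : ℝ≥0∞))
  have h1 : ∑' k : ℕ, ((fun n : ℕ∞ => (n : ℝ≥0∞)) k) *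
      ENNReal.ofReal (Real.exp (-(lam * (μm B).toReal)) * (lam * (μm B).toReal) ^ k /
        (k.factorial : ℝ)) = ENNReal.ofReal (lam * (μm B).toReal) := by
    have hs := hasSum_one (lam * (μm B).toReal)
    conv_rhs => rw [← hs.tsum_eq]
    rw [ENNReal.ofReal_tsum_of_nonneg _ hs.summable]
    · refine tsum_congr fun k => ?_
      rw [ENNReal.ofReal_mul (Nat.cast_nonneg k), ENNReal.ofReal_natCast]
      simp
    · intro k
      positivity
  rw [h1] at h
  have hmeas : Measurable fun ω => (((Q ω ∩ B).encard : ℕ∞) : ℝ≥0∞) :=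
    (measurable_of_countable (fun n : ℕ∞ => (n : ℝ≥0∞))).comp (hQ.measurable_count B hB)
  have h2 := mul_meas_ge_le_lintegral₀ (μ := P) hmeas.aemeasurable (K : ℝ≥0∞)
  rw [h] at h2
  have h3 : {ω | ¬ (Q ω ∩ B).encard ≤ K} ⊆ {ω | (K : ℝ≥0∞) ≤ (((Q ω ∩ B).encard : ℕ∞) : ℝ≥0∞)} := by
    intro ω hω
    have hω' : (K : ℕ∞) ≤ (Q ω ∩ B).encard := (not_le.mp hω).le
    show (K : ℝ≥0∞) ≤ _
    exact_mod_cast hω'
  have hK' : (0 : ℝ) < K := by exact_mod_cast hK
  have hK0 : (K : ℝ≥0∞) ≠ 0 := by exact_mod_cast hK.ne'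
  refine (measure_mono h3).trans ?_
  rw [ENNReal.ofReal_div_of_pos hK', ENNReal.ofReal_natCast,
    ENNReal.le_div_iff_mul_le (Or.inl hK0) (Or.inl (ENNReal.natCast_ne_top K)), mul_comm]
  exact h2

/-- independence of the counts for an arbitrary index type -/
theorem IsPoissonProcess.iIndep (hQ : IsPoissonProcess P μm lam Q) {ι : Type*} {B : ι → Set X}
    (hB : ∀ i, MeasurableSet (B i)) (hd : Pairwise (fun i j => Disjoint (B i) (B j))) :
    iIndepFun (fun i ω => (Q ω ∩ B i).encard) P := by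
  classical
  rw [iIndepFun_iff_measure_inter_preimage_eq_mul]
  intro S s hs
  let e : Fin S.card ≃ S := S.equivFin.symm
  have h1 := hQ.indep_count S.card (fun k => B (e k)) (fun k => hB _) (fun k l hkl => by
    apply hd
    intro h
    exact hkl (e.injective (Subtype.ext h)))
  rw [iIndepFun_iff_measure_inter_preimage_eq_mul] at h1
  have h2 := h1 Finset.univ (sets := fun k => s (e k)) (fun k _ => hs _ (e k).2)
  have e1 : (⋂ i ∈ S, (fun ω => (Q ω ∩ B i).encard) ⁻¹' s i) =
      ⋂ k ∈ (Finset.univ : Finset (Fin S.card)),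
        (fun ω => (Q ω ∩ B (e k)).encard) ⁻¹' s (e k) := by
    ext ω
    simp only [Set.mem_iInter, Finset.mem_univ, true_imp_iff]
    constructor
    · intro h k
      exact h _ (e k).2
    · intro h i hi
      have := h (e.symm ⟨i, hi⟩)
      rw [Equiv.apply_symm_apply] at this
      exact this
  rw [e1, h2, Finset.prod_equiv e (t := Finset.univ)
    (g := fun i : S => P ((fun ω => (Q ω ∩ B i).encard) ⁻¹' s i)) (by simp) (fun _ _ => rfl)]
  exact Finset.prod_coe_sort S (fun i => P ((fun ω => (Q ω ∩ B i).encard) ⁻¹' s i))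

end

end Pool.Agent.Y979.AE
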