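import Pool.Agent.Y979.AE.Indep

/-!
# Probabilities of the events and the growth of the tree
-/

set_option autoImplicit false

open MeasureTheory ProbabilityTheory Filter Topology
open scoped ENNReal

namespace Pool.Agent.Y979.AE

noncomputable section

variable {n : ℕ} {Ω : Type*} [mΩ : MeasurableSpace Ω] {P : Measure Ω} [IsProbabilityMeasure P]
  {lam : ℝ} {Q : Ω → Set (HS (n + 2))}

theorem hvol_piece_ne_top {k : ℕ} {w : ℝ} (hw : 0 ≤ w) (p : ℤ × (Fin k → ℤ)) :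
    hvol k (piece w p) ≠ ⊤ :=
  ((hvol_piece_le hw p).trans_lt ENNReal.ofReal_lt_top).ne

theorem toReal_piece_le {k : ℕ} {w : ℝ} (hw : 0 ≤ w) (p : ℤ × (Fin k → ℤ)) :
    (hvol k (piece w p)).toReal ≤ w ^ k :=
  ENNReal.toReal_le_of_le_ofReal (by positivity) (hvol_piece_le hw p)

theorem le_toReal_piece {k : ℕ} {w : ℝ} (hw : 0 ≤ w) (p : ℤ × (Fin k → ℤ)) :
    w ^ k / 2 ^ (k + 1) ≤ (hvol k (piece w p)).toReal := by
  rw [← ENNReal.toReal_ofReal (by positivity : 0 ≤ w ^ k / 2 ^ (k + 1))]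
  exact ENNReal.toReal_mono (hvol_piece_ne_top hw p) (le_hvol_piece hw p)

theorem prob_empty {k : ℕ} {Q : Ω → Set (HS k)} (hQ : IsPoissonProcess P (hvol k) lam Q)
    (hlam : 0 < lam) {w : ℝ} (hw : 0 ≤ w) (p : ℤ × (Fin k → ℤ)) :
    P {ω | Q ω ∩ piece w p = ∅} ≤ ENNReal.ofReal (Real.exp (-(lam * (w ^ k / 2 ^ (k + 1))))) := by
  rw [hQ.void_prob (measurableSet_piece w p) (hvol_piece_ne_top hw p)]
  apply ENNReal.ofReal_le_ofReal
  rw [Real.exp_le_exp]
  have := mul_le_mul_of_nonneg_left (le_toReal_piece hw p) hlam.le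
  linarith

/-- the probability that a piece is not good -/
def dlt (k : ℕ) (lam w : ℝ) (K0 : ℕ) : ℝ :=
  Real.exp (-(lam * (w ^ k / 2 ^ (k + 1)))) + lam * w ^ k / K0

theorem prob_not_OKp (hQ : IsPoissonProcess P (hvol (n + 2)) lam Q) (hlam : 0 < lam) {w : ℝ}
    (hw : 0 ≤ w) {K0 : ℕ} (hK : 0 < K0) (p : ℤ × (Fin (n + 2) → ℤ)) :
    P {ω | ¬ OKp w K0 (Q ω) p} ≤ ENNReal.ofReal (dlt (n + 2) lam w K0) := by
  have hK' : (0 : ℝ) < K0 := by exact_mod_cast hK
  have hsub : {ω | ¬ OKp w K0 (Q ω) p} ⊆ {ω | Q ω ∩ piece w p = ∅} ∪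
      {ω | ¬ (Q ω ∩ piece w p).encard ≤ K0} := by
    intro ω hω
    by_cases h : (Q ω ∩ piece w p).encard ≤ K0
    · left
      by_contra hne
      apply hω
      refine ⟨?_, h⟩
      rw [Set.one_le_encard_iff_nonempty]
      exact Set.nonempty_iff_ne_empty.mpr hne
    · exact Or.inr h
  refine (measure_mono hsub).trans ((measure_union_le _ _).trans ?_)
  unfold dlt
  rw [ENNReal.ofReal_add (by positivity) (by positivity)]
  apply add_le_add (prob_empty hQ hlam hw p)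
  refine (hQ.tail_le hlam.le (measurableSet_piece w p) (hvol_piece_ne_top hw p) hK).trans ?_
  apply ENNReal.ofReal_le_ofReal
  apply div_le_div_of_nonneg_right _ hK'.le
  exact mul_le_mul_of_nonneg_left (toReal_piece_le hw p) hlam.le

theorem prob_rest (hQ : IsPoissonProcess P (hvol (n + 2)) lam Q) (hlam : 0 < lam) {w : ℝ}
    (hw : 1 ≤ w) {θ K0 : ℕ} (hK : 0 < K0)
    (hδ : (NI n θ : ℝ) * dlt (n + 2) lam w K0 ≤ 1 / 10) (v : ℕ × ℕ) (E : Set Ω)
    (hE : MeasurableSet E)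
    (hEs : Eᶜ ⊆ ⋃ p ∈ Ifin n θ v, {ω | ¬ OKp w K0 (Q ω) p}) :
    9 / 10 ≤ P.real E := by
  have hK' : (0 : ℝ) < K0 := by exact_mod_cast hK
  have hd0 : 0 ≤ dlt (n + 2) lam w K0 := by unfold dlt; positivity
  have h1 : P Eᶜ ≤ ENNReal.ofReal (1 / 10) := by
    refine (measure_mono hEs).trans ((measure_biUnion_finset_le _ _).trans ?_)
    refine (Finset.sum_le_sum fun p _ => prob_not_OKp hQ hlam (by linarith) hK p).trans ?_
    rw [Finset.sum_const, nsmul_eq_mul, ← ENNReal.ofReal_natCast, ← ENNReal.ofReal_mul (by positivity)]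
    apply ENNReal.ofReal_le_ofReal
    refine le_trans ?_ hδ
    apply mul_le_mul_of_nonneg_right _ hd0
    exact_mod_cast card_Ifin_le θ v
  have h2 : P.real Eᶜ ≤ 1 / 10 := by
    rw [measureReal_def]
    exact ENNReal.toReal_le_of_le_ofReal (by norm_num) h1
  rw [probReal_compl_eq_one_sub hE] at h2
  linarith

theorem prob_good (hQ : IsPoissonProcess P (hvol (n + 2)) lam Q) (hlam : 0 < lam) {w : ℝ}
    (hw : 1 ≤ w) {θ K0 : ℕ} (hK : 0 < K0)
    (hδ : (NI n θ : ℝ) * dlt (n + 2) lam w K0 ≤ 1 / 10) (v : ℕ × ℕ) :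
    9 / 10 ≤ P.real {ω | Good w θ K0 (Q ω) v} := by
  apply prob_rest hQ hlam hw hK hδ v
  · exact sg_le hQ w 1 _ _ (meas_good hw one_pos θ K0 v (Ifin_subset θ v))
  · intro ω hω
    have hω' : ¬ Good w θ K0 (Q ω) v := hω
    unfold Good at hω'
    push Not at hω'
    obtain ⟨p, hp, h⟩ := hω'
    simp only [Set.mem_iUnion]
    exact ⟨p, hp, h⟩

/-- a lower bound for the probability of a cluster -/
def qc (n : ℕ) (lam w : ℝ) (m : ℕ) : ℝ :=
  Real.exp (-(lam * w ^ (n + 2))) *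
    (lam * (eta n m / 2) ^ (n + 3) * Real.exp (-lam)) ^ (2 * m)

theorem prob_cluster (hQ : IsPoissonProcess P (hvol (n + 2)) lam Q) (hlam : 0 < lam) {w : ℝ}
    (hw : 1 ≤ w) {m : ℕ} (hm : 0 < m) (p : ℤ × (Fin (n + 2) → ℤ)) :
    ENNReal.ofReal (qc n lam w m) ≤ P {ω | ClusterOK w m (Q ω) p} := by
  have hη := eta_pos (n := n) hm
  have hind := hQ.iIndep (fun i => measurableSet_atom w m i) (atom_disjoint (n := n) hw hm)
  have hd : Pairwise (fun α α' : Option (Fin m × Bool) =>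
      Disjoint (atom w m (p, α)) (atom w m (p, α'))) := fun α α' h =>
    atom_disjoint hw hm fun h' => h (Prod.ext_iff.mp h').2
  have hind2 := hQ.iIndep (fun α : Option (Fin m × Bool) => measurableSet_atom w m (p, α)) hd
  rw [iIndepFun_iff_measure_inter_preimage_eq_mul] at hind2
  let s : Option (Fin m × Bool) → Set ℕ∞ := fun α => match α with
    | some _ => {1}
    | none => {0}
  have h1 := hind2 Finset.univ (sets := s) (fun α _ => (Set.to_countable _).measurableSet)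
  have hset : {ω | ClusterOK w m (Q ω) p} = ⋂ α ∈ (Finset.univ : Finset (Option (Fin m × Bool))),
      (fun ω => (Q ω ∩ atom w m (p, α)).encard) ⁻¹' s α := by
    ext ω
    simp only [Set.mem_iInter, Finset.mem_univ, true_imp_iff]
    constructor
    · intro h α
      have h' := clusterOK_iff.mp h
      rcases α with _ | pb
      · exact h'.2
      · exact h'.1 pb
    · intro h
      exact clusterOK_iff.mpr ⟨fun pb => h (some pb), h none⟩
  rw [hset, h1, Fintype.prod_option]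
  -- the rest of the piece is empty
  have hnone : ENNReal.ofReal (Real.exp (-(lam * w ^ (n + 2)))) ≤
      P ((fun ω => (Q ω ∩ atom w m (p, none)).encard) ⁻¹' s none) := by
    have hle : hvol (n + 2) (atom w m (p, none)) ≤ hvol (n + 2) (piece w p) :=
      measure_mono (atom_subset hw hm (p, none))
    have hnt : hvol (n + 2) (atom w m (p, none)) ≠ ⊤ :=
      (hle.trans_lt (hvol_piece_ne_top (by linarith) p).lt_top).ne
    have h2 := hQ.law_count _ (measurableSet_atom w m (p, none)) hnt 0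
    have e : (fun ω => (Q ω ∩ atom w m (p, none)).encard) ⁻¹' s none =
        {ω | (Q ω ∩ atom w m (p, none)).encard = ((0 : ℕ) : ℕ∞)} := by
      ext ω
      simp [s]
    rw [e, h2]
    apply ENNReal.ofReal_le_ofReal
    rw [pow_zero, mul_one, Nat.factorial_zero, Nat.cast_one, div_one, Real.exp_le_exp]
    have h3 := toReal_piece_le (k := n + 2) (by linarith : 0 ≤ w) p
    have h4 := ENNReal.toReal_mono (hvol_piece_ne_top (by linarith) p) hle
    have h5 := mul_le_mul_of_nonneg_left (h4.trans h3) hlam.le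
    linarith
  have hsome : ∀ pb : Fin m × Bool,
      ENNReal.ofReal (lam * (eta n m / 2) ^ (n + 3) * Real.exp (-lam)) ≤
      P ((fun ω => (Q ω ∩ atom w m (p, some pb)).encard) ⁻¹' s (some pb)) := by
    intro pb
    have hle : hvol (n + 2) (tc w m p pb) ≤ ENNReal.ofReal 1 := hvol_tc_le hm p pb
    have hnt : hvol (n + 2) (tc w m p pb) ≠ ⊤ := (hle.trans_lt ENNReal.ofReal_lt_top).ne
    have h2 := hQ.law_count _ (measurableSet_tc w m p pb) hnt 1
    have e : (fun ω => (Q ω ∩ atom w m (p, some pb)).encard) ⁻¹' s (some pb) =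
        {ω | (Q ω ∩ tc w m p pb).encard = ((1 : ℕ) : ℕ∞)} := by
      ext ω
      simp [s, atom]
    rw [e, h2]
    apply ENNReal.ofReal_le_ofReal
    have h3 : (hvol (n + 2) (tc w m p pb)).toReal ≤ 1 :=
      ENNReal.toReal_le_of_le_ofReal zero_le_one hle
    have h4 : (eta n m / 2) ^ (n + 3) ≤ (hvol (n + 2) (tc w m p pb)).toReal := by
      rw [← ENNReal.toReal_ofReal (by positivity : 0 ≤ (eta n m / 2) ^ (n + 3))]
      exact ENNReal.toReal_mono hnt (le_hvol_tc hm p pb)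
    rw [pow_one, Nat.factorial_one, Nat.cast_one, div_one]
    have h5 : lam * (hvol (n + 2) (tc w m p pb)).toReal ≤ lam := by
      nlinarith
    have h6 : Real.exp (-lam) ≤ Real.exp (-(lam * (hvol (n + 2) (tc w m p pb)).toReal)) := by
      rw [Real.exp_le_exp]; linarith
    have h7 : lam * (eta n m / 2) ^ (n + 3) ≤ lam * (hvol (n + 2) (tc w m p pb)).toReal :=
      mul_le_mul_of_nonneg_left h4 hlam.le
    rw [mul_comm (Real.exp _)]
    exact mul_le_mul h7 h6 (Real.exp_pos _).le (by positivity)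
  unfold qc
  rw [ENNReal.ofReal_mul (Real.exp_pos _).le]
  apply mul_le_mul' hnone
  have h8 : ∏ _pb : Fin m × Bool, ENNReal.ofReal (lam * (eta n m / 2) ^ (n + 3) * Real.exp (-lam)) ≤
      ∏ pb : Fin m × Bool,
        P ((fun ω => (Q ω ∩ atom w m (p, some pb)).encard) ⁻¹' s (some pb)) :=
    Finset.prod_le_prod' fun pb _ => hsome pb
  refine le_trans (le_of_eq ?_) h8
  rw [Finset.prod_const, Finset.card_univ, Fintype.card_prod, Fintype.card_fin, Fintype.card_bool,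
    mul_comm m 2, ENNReal.ofReal_pow (by positivity)]

theorem qc_pos {lam : ℝ} (hlam : 0 < lam) (w : ℝ) {m : ℕ} (hm : 0 < m) : 0 < qc n lam w m := by
  have hη := eta_pos (n := n) hm
  unfold qc
  positivity

theorem prob_special (hQ : IsPoissonProcess P (hvol (n + 2)) lam Q) (hlam : 0 < lam) {w : ℝ}
    (hw : 1 ≤ w) {θ K0 m : ℕ} (hm : 0 < m) (hK : 0 < K0)
    (hδ : (NI n θ : ℝ) * dlt (n + 2) lam w K0 ≤ 1 / 10) (v : ℕ × ℕ) :
    9 / 10 * qc n lam w m ≤ P.real {ω | Special w θ K0 m (Q ω) v} := by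
  have e : {ω | Special w θ K0 m (Q ω) v} =
      {ω | ∀ p ∈ Ifin n θ v, p ≠ starp n θ v → OKp w K0 (Q ω) p} ∩
      {ω | ClusterOK w m (Q ω) (starp n θ v)} := rfl
  have hdis : Disjoint ((Ifin n θ v : Set (ℤ × (Fin (n + 2) → ℤ))) \ {starp n θ v})
      {starp n θ v} := Set.disjoint_sdiff_left
  have hind := sg_indep hQ hw hm hdis
  rw [Indep_iff] at hind
  have m1 := meas_rest (Q := Q) hw hm θ K0 v (U := (Ifin n θ v : Set _) \ {starp n θ v}) le_rfl
  have m2 := meas_cluster (Q := Q) (w := w) (m := m) (U := {starp n θ v})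
    (Set.mem_singleton (starp n θ v))
  have h1 := hind _ _ m1 m2
  have h2 : 9 / 10 ≤ P.real {ω | ∀ p ∈ Ifin n θ v, p ≠ starp n θ v → OKp w K0 (Q ω) p} := by
    apply prob_rest hQ hlam hw hK hδ v
    · exact sg_le hQ w m _ _ m1
    · intro ω hω
      have hω' : ¬ ∀ p ∈ Ifin n θ v, p ≠ starp n θ v → OKp w K0 (Q ω) p := hω
      push Not at hω'
      obtain ⟨p, hp, _, h⟩ := hω'
      simp only [Set.mem_iUnion]
      exact ⟨p, hp, h⟩
  have h3 : qc n lam w m ≤ P.real {ω | ClusterOK w m (Q ω) (starp n θ v)} := by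
    have := ENNReal.toReal_mono (measure_ne_top P _) (prob_cluster hQ hlam hw hm (starp n θ v))
    rwa [ENNReal.toReal_ofReal (qc_pos hlam w hm).le] at this
  rw [e, measureReal_def, h1, ENNReal.toReal_mul, ← measureReal_def, ← measureReal_def]
  exact mul_le_mul h2 h3 (qc_pos hlam w hm).le (by linarith)

/-- lower bounds for the probabilities -/
def eseq (q : ℝ) : ℕ → ℝ
  | 0 => q
  | N + 1 => 9 / 10 * (1 - (1 - eseq q N) ^ 2)

theorem eseq_bound {q : ℝ} (hq0 : 0 ≤ q) (hq1 : q ≤ 1) (N : ℕ) :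
    (0 ≤ eseq q N ∧ eseq q N ≤ 1) ∧ min (1 / 2) ((4 / 3) ^ N * q) ≤ eseq q N := by
  induction N with
  | zero =>
    refine ⟨⟨hq0, hq1⟩, ?_⟩
    rw [pow_zero, one_mul]
    exact min_le_right _ _
  | succ N ih =>
    obtain ⟨⟨h0, h1⟩, h2⟩ := ih
    have hx0 : 0 ≤ (4 / 3 : ℝ) ^ N * q := by positivity
    have e : (4 / 3 : ℝ) ^ (N + 1) * q = 4 / 3 * ((4 / 3) ^ N * q) := by ring
    rw [e]
    set x : ℝ := (4 / 3) ^ N * q
    set y := eseq q N
    have hy : eseq q (N + 1) = 9 / 10 * (1 - (1 - y) ^ 2) := rfl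
    rw [hy]
    refine ⟨⟨?_, ?_⟩, ?_⟩
    · nlinarith
    · nlinarith [sq_nonneg (1 - y)]
    · rcases le_total (1 / 2) x with hx | hx
      · have h3 : 1 / 2 ≤ y := by rwa [min_eq_left hx] at h2
        refine (min_le_left _ _).trans ?_
        nlinarith
      · have h3 : x ≤ y := by rwa [min_eq_right hx] at h2
        refine (min_le_right _ _).trans ?_
        nlinarith

theorem prob_Ev (hQ : IsPoissonProcess P (hvol (n + 2)) lam Q) {w : ℝ}
    (hw : 1 ≤ w) {θ K0 m : ℕ} (hm : 0 < m) {q : ℝ} (hq0 : 0 ≤ q) (hq1 : q ≤ 1)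
    (hgood : ∀ v, 9 / 10 ≤ P.real {ω | Good w θ K0 (Q ω) v})
    (hspec : ∀ v, q ≤ P.real {ω | Special w θ K0 m (Q ω) v}) (N : ℕ) :
    ∀ v, eseq q N ≤ P.real {ω | Ev w θ K0 m (Q ω) N v} := by
  induction N with
  | zero => exact hspec
  | succ N ih =>
    intro v
    set c1 : ℕ × ℕ := (v.1 + 1, 2 ^ (2 * θ + 1) * v.2) with hc1
    set c2 : ℕ × ℕ := (v.1 + 1, 2 ^ (2 * θ + 1) * v.2 + 1) with hc2
    set E1 := {ω | Ev w θ K0 m (Q ω) N c1} with hE1
    set E2 := {ω | Ev w θ K0 m (Q ω) N c2} with hE2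
    have e : {ω | Ev w θ K0 m (Q ω) (N + 1) v} = {ω | Good w θ K0 (Q ω) v} ∩ (E1 ∪ E2) := rfl
    have mE1 : MeasurableSet[sg w m Q (Usub n θ c1)] E1 := meas_Ev hw hm θ K0 N c1
    have mE2 : MeasurableSet[sg w m Q (Usub n θ c2)] E2 := meas_Ev hw hm θ K0 N c2
    have mE1' : MeasurableSet E1 := sg_le hQ w m _ _ mE1
    have mE2' : MeasurableSet E2 := sg_le hQ w m _ _ mE2
    have hdis1 : Disjoint (Usub n θ c1) (Usub n θ c2) :=
      Usub_disjoint (Nat.ne_of_lt (Nat.lt_succ_self _))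
    have hdis2 : Disjoint (Ifin n θ v : Set (ℤ × (Fin (n + 2) → ℤ)))
        (Usub n θ c1 ∪ Usub n θ c2) :=
      Set.disjoint_union_right.mpr ⟨Ifin_disjoint_child (isChild_left θ v),
        Ifin_disjoint_child (isChild_right θ v)⟩
    have hi1 := (Indep_iff _ _ _).mp (sg_indep hQ hw hm hdis1)
    have hi2 := (Indep_iff _ _ _).mp (sg_indep hQ hw hm hdis2)
    have h1 := hi1 E1ᶜ E2ᶜ mE1.compl mE2.compl
    have h2 := hi2 {ω | Good w θ K0 (Q ω) v} (E1 ∪ E2)
      (meas_good hw hm θ K0 v le_rfl)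
      ((sg_mono Set.subset_union_left _ mE1).union (sg_mono Set.subset_union_right _ mE2))
    have h3 : P.real (E1 ∪ E2) = 1 - (1 - P.real E1) * (1 - P.real E2) := by
      have h4 : P.real (E1ᶜ ∩ E2ᶜ) = P.real E1ᶜ * P.real E2ᶜ := by
        rw [measureReal_def, h1, ENNReal.toReal_mul, ← measureReal_def, ← measureReal_def]
      rw [← Set.compl_union, probReal_compl_eq_one_sub (mE1'.union mE2'),
        probReal_compl_eq_one_sub mE1', probReal_compl_eq_one_sub mE2'] at h4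
      linarith
    rw [e, measureReal_def, h2, ENNReal.toReal_mul, ← measureReal_def, ← measureReal_def, h3]
    obtain ⟨⟨e0, e1⟩, -⟩ := eseq_bound hq0 hq1 N
    have i1 := ih c1
    have i2 := ih c2
    have p1 : P.real E1 ≤ 1 := measureReal_le_one
    have p2 : P.real E2 ≤ 1 := measureReal_le_one
    have hy : eseq q (N + 1) = 9 / 10 * (1 - (1 - eseq q N) ^ 2) := rfl
    rw [hy]
    have h5 : (1 - P.real E1) * (1 - P.real E2) ≤ (1 - eseq q N) ^ 2 := by
      rw [sq]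
      exact mul_le_mul (by linarith) (by linarith) (by linarith) (by linarith)
    have h6 : 0 ≤ 1 - (1 - eseq q N) ^ 2 := by nlinarith
    have h7 := hgood v
    nlinarith

/-- the growth beats the cost of the cluster -/
theorem growth {lam : ℝ} (hlam : 0 < lam) (w : ℝ) :
    ∀ᶠ j : ℕ in atTop, 1 / 2 ≤ (4 / 3 : ℝ) ^ (j ^ 3) * (9 / 10 * qc n lam w (j ^ 2)) := by
  set c1 : ℝ := 9 / 10 * Real.exp (-(lam * w ^ (n + 2))) with hc1
  set c4 : ℝ := lam * (1 / (4096 * (n + 3))) ^ (n + 3) * Real.exp (-lam) with hc4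
  have hc1p : 0 < c1 := by positivity
  have hc4p : 0 < c4 := by positivity
  have ht := tendsto_pow_const_div_const_pow_of_one_lt (8 * (n + 3)) (by norm_num : (1 : ℝ) < 4 / 3)
  have hev1 := ht.eventually (gt_mem_nhds (show (0 : ℝ) < c4 ^ 2 / 2 by positivity))
  have ht2 : Tendsto (fun j : ℕ => (2 : ℝ) ^ j) atTop atTop :=
    tendsto_pow_atTop_atTop_of_one_lt (by norm_num)
  have hev2 := ht2.eventually_ge_atTop (1 / (2 * c1))
  filter_upwards [hev1, hev2, eventually_ge_atTop 1] with j h1 h2 h3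
  have hj : (1 : ℝ) ≤ j := by exact_mod_cast h3
  have hjp : (0 : ℝ) < j := by linarith
  have hη : (eta n (j ^ 2) / 2) ^ (n + 3) = (1 / (4096 * (n + 3))) ^ (n + 3) / (j : ℝ) ^ (4 * (n + 3)) := by
    have : eta n (j ^ 2) / 2 = (1 / (4096 * (n + 3))) / (j : ℝ) ^ 4 := by
      unfold eta
      push_cast
      field_simp
      ring
    rw [this, div_pow, ← pow_mul]
  have hbr : lam * (eta n (j ^ 2) / 2) ^ (n + 3) * Real.exp (-lam) = c4 / (j : ℝ) ^ (4 * (n + 3)) := by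
    rw [hη, hc4]; ring
  have hq : (4 / 3 : ℝ) ^ (j ^ 3) * (9 / 10 * qc n lam w (j ^ 2)) =
      c1 * ((4 / 3) ^ j * (c4 ^ 2 / (j : ℝ) ^ (8 * (n + 3)))) ^ (j ^ 2) := by
    have eA : (c4 / (j : ℝ) ^ (4 * (n + 3))) ^ (2 * j ^ 2) =
        (c4 ^ 2 / (j : ℝ) ^ (8 * (n + 3))) ^ (j ^ 2) := by
      rw [pow_mul, div_pow, ← pow_mul]
      have e2 : 4 * (n + 3) * 2 = 8 * (n + 3) := by ring
      rw [e2]
    have eB : (4 / 3 : ℝ) ^ (j ^ 3) = ((4 / 3) ^ j) ^ (j ^ 2) := by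
      rw [← pow_mul]
      congr 1
      ring
    unfold qc
    rw [hbr, eA, eB, mul_pow, hc1]
    ring
  rw [hq]
  have h4 : 2 ≤ (4 / 3 : ℝ) ^ j * (c4 ^ 2 / (j : ℝ) ^ (8 * (n + 3))) := by
    have hp1 : (0 : ℝ) < (4 / 3) ^ j := by positivity
    have hp2 : (0 : ℝ) < (j : ℝ) ^ (8 * (n + 3)) := by positivity
    rw [div_lt_iff₀ hp1] at h1
    rw [← mul_div_assoc, le_div_iff₀ hp2]
    linarith
  have h5 : (2 : ℝ) ^ j ≤ ((4 / 3 : ℝ) ^ j * (c4 ^ 2 / (j : ℝ) ^ (8 * (n + 3)))) ^ (j ^ 2) := by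
    calc (2 : ℝ) ^ j ≤ 2 ^ (j ^ 2) := pow_le_pow_right₀ (by norm_num) (by nlinarith)
      _ ≤ _ := pow_le_pow_left₀ (by norm_num) h4 _
  have h6 : 1 / (2 * c1) * c1 ≤
      ((4 / 3 : ℝ) ^ j * (c4 ^ 2 / (j : ℝ) ^ (8 * (n + 3)))) ^ (j ^ 2) * c1 :=
    mul_le_mul_of_nonneg_right (h2.trans h5) hc1p.le
  have h7 : 1 / (2 * c1) * c1 = 1 / 2 := by field_simp
  rw [h7] at h6
  linarith

end

end Pool.Agent.Y979.AE
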