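import Pool.Agent.Y979.AE.Comb

/-!
# Greedy routing in the Voronoi graph
-/

set_option autoImplicit false

namespace Pool.Agent.Y979.AE

noncomputable section

variable {k : ℕ}

/-- local finiteness -/
def LocFin (A : Set (HS k)) : Prop := ∀ (z : HS k) (R : ℝ), {y ∈ A | hdist z y ≤ R}.Finite

theorem exists_lower {X : Type*} {s : Set X} (hs : s.Finite) (f : X → ℝ) (hf : ∀ a ∈ s, 0 < f a) :
    ∃ δ : ℝ, 0 < δ ∧ δ ≤ 1 ∧ ∀ a ∈ s, δ ≤ f a := by
  rcases s.eq_empty_or_nonempty with h | h
  · exact ⟨1, one_pos, le_rfl, fun a ha => by rw [h] at ha; exact absurd ha (Set.notMem_empty a)⟩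
  · obtain ⟨a, ha, hmin⟩ := Set.exists_min_image s f hs h
    exact ⟨min (f a) 1, lt_min (hf a ha) one_pos, min_le_right _ _,
      fun b hb => (min_le_left _ _).trans (hmin b hb)⟩

theorem strict_adj {A : Set (HS k)} (hA : LocFin A) {x y : A} (hxy : x ≠ y) {z : HS k}
    (hz : F z x = F z y) (hs : ∀ a ∈ A, a ≠ (x : HS k) → a ≠ (y : HS k) → F z x < F z a) :
    (voronoiGraph A).Adj x y := by
  obtain ⟨δ, hδ, hδ1, hδs⟩ := exists_lower
    (s := {a ∈ A | hdist z a ≤ hdist z x + 1} \ {(x : HS k), (y : HS k)})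
    ((hA z (hdist z x + 1)).subset Set.sdiff_subset) (fun a => hdist z a - hdist z x) (by
      rintro a ⟨⟨h1, -⟩, h2⟩
      simp only [Set.mem_insert_iff, Set.mem_singleton_iff, not_or] at h2
      have := hdist_lt_iff.mpr (hs a h1 h2.1 h2.2)
      linarith)
  have hgap : ∀ a ∈ A, a ≠ (x : HS k) → a ≠ (y : HS k) → hdist z x + δ ≤ hdist z a := by
    intro a ha h1 h2
    rcases le_or_gt (hdist z a) (hdist z x + 1) with h | h
    · have := hδs a ⟨⟨ha, h⟩, by simp [h1, h2]⟩
      linarith
    · linarith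
  refine ⟨hxy, z, δ / 2, by positivity, hdist_eq_iff.mpr hz, fun w hw hwz => ?_⟩
  have hkey : ∀ a ∈ A, hdist w x ≤ hdist w a := by
    intro a ha
    by_cases h1 : a = x
    · rw [h1]
    by_cases h2 : a = y
    · rw [h2, hw]
    have h3 := hgap a ha h1 h2
    have h4 := hdist_triangle w z x
    have h5 := hdist_triangle z w a
    rw [hdist_comm z w] at h5
    linarith
  exact ⟨hkey, fun a ha => by rw [← hw]; exact hkey a ha⟩

/-- adjacent points have a common point of their cells -/
theorem exists_touch {A : Set (HS k)} {x y : A} (h : (voronoiGraph A).Adj x y) :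
    ∃ z : HS k, z ∈ cell A x ∧ z ∈ cell A y := by
  obtain ⟨-, z, ε, hε, hz, hw⟩ := h
  have := hw z hz (by rw [hdist_self]; exact hε)
  exact ⟨z, this.1, this.2⟩

/-! ### generic points -/

theorem interior_quadric (α γ : ℝ) (β : Fin k → ℝ) (hne : ¬(α = 0 ∧ (∀ i, β i = 0) ∧ γ = 0)) :
    interior {u : HS k | α * nsq u - 2 * ∑ i, u.1.1 i * β i + γ = 0} = ∅ := by
  by_contra hcon
  obtain ⟨u, hu⟩ := Set.nonempty_iff_ne_empty.mpr hcon
  apply hne
  have hmemZ : ∀ v ∈ {u : HS k | α * nsq u - 2 * ∑ i, u.1.1 i * β i + γ = 0},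
      α * nsq v - 2 * ∑ i, v.1.1 i * β i + γ = 0 := fun v hv => hv
  have hu0 : α * nsq u - 2 * ∑ i, u.1.1 i * β i + γ = 0 := hmemZ u (interior_subset hu)
  have hup := u.2
  have hα : α = 0 := by
    let φ : ℝ → HS k := fun δ => ⟨(u.1.1, u.1.2 + |δ|), by positivity⟩
    have hφ : Continuous φ := by
      apply Continuous.subtype_mk
      fun_prop
    have hφ0 : φ 0 = u := by
      apply Subtype.ext
      simp [φ]
    have hopen := (isOpen_interior (s := {u : HS k | α * nsq u - 2 * ∑ i, u.1.1 i * β i + γ = 0})).preimage hφ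
    obtain ⟨ε, hε, hball⟩ := Metric.isOpen_iff.mp hopen 0 (by
      show φ 0 ∈ interior _
      rw [hφ0]; exact hu)
    have hmem : (ε / 2) ∈ Metric.ball (0 : ℝ) ε := by
      rw [Metric.mem_ball, Real.dist_eq, sub_zero, abs_of_pos (by positivity)]
      linarith
    have h1 : α * nsq (φ (ε / 2)) - 2 * ∑ i, (φ (ε / 2)).1.1 i * β i + γ = 0 :=
      hmemZ _ (interior_subset (hball hmem))
    have h2 : nsq (φ (ε / 2)) = nsq u + (2 * u.1.2 * (ε / 2) + (ε / 2) ^ 2) := by
      unfold nsq
      simp only [φ]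
      rw [abs_of_pos (by positivity : 0 < ε / 2)]
      ring
    have h3 : ∑ i, (φ (ε / 2)).1.1 i * β i = ∑ i, u.1.1 i * β i := rfl
    rw [h2, h3] at h1
    have h4 : α * (2 * u.1.2 * (ε / 2) + (ε / 2) ^ 2) = 0 := by linarith
    have h5 : 0 < 2 * u.1.2 * (ε / 2) + (ε / 2) ^ 2 := by positivity
    rcases mul_eq_zero.mp h4 with h | h
    · exact h
    · exact absurd h h5.ne'
  have hβ : ∀ j, β j = 0 := by
    intro j
    let φ : ℝ → HS k := fun δ => ⟨(fun i => u.1.1 i + (if i = j then δ else 0), u.1.2), hup⟩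
    have hφ : Continuous φ := by
      apply Continuous.subtype_mk
      refine Continuous.prodMk (continuous_pi fun i => ?_) continuous_const
      by_cases h : i = j
      · simp only [h, if_true]; fun_prop
      · simp only [h, if_false]; fun_prop
    have hφ0 : φ 0 = u := by
      apply Subtype.ext
      simp [φ]
    have hopen := (isOpen_interior (s := {u : HS k | α * nsq u - 2 * ∑ i, u.1.1 i * β i + γ = 0})).preimage hφ
    obtain ⟨ε, hε, hball⟩ := Metric.isOpen_iff.mp hopen 0 (by
      show φ 0 ∈ interior _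
      rw [hφ0]; exact hu)
    have hmem : (ε / 2) ∈ Metric.ball (0 : ℝ) ε := by
      rw [Metric.mem_ball, Real.dist_eq, sub_zero, abs_of_pos (by positivity)]
      linarith
    have h1 : α * nsq (φ (ε / 2)) - 2 * ∑ i, (φ (ε / 2)).1.1 i * β i + γ = 0 :=
      hmemZ _ (interior_subset (hball hmem))
    have h3 : ∑ i, (φ (ε / 2)).1.1 i * β i = ∑ i, u.1.1 i * β i + (ε / 2) * β j := by
      have : ∀ i, (φ (ε / 2)).1.1 i * β i = u.1.1 i * β i + (if i = j then (ε / 2) * β i else 0) := by
        intro i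
        show (u.1.1 i + (if i = j then (ε / 2) else 0)) * β i = _
        split_ifs <;> ring
      simp_rw [this]
      rw [Finset.sum_add_distrib, Finset.sum_ite_eq' Finset.univ j]
      simp
    rw [hα, h3] at h1
    rw [hα] at hu0
    have h4 : (ε / 2) * β j = 0 := by linarith
    rcases mul_eq_zero.mp h4 with h | h
    · exact absurd h (by positivity)
    · exact h
  refine ⟨hα, hβ, ?_⟩
  rw [hα] at hu0
  simp only [hβ, mul_zero, Finset.sum_const_zero, zero_mul, sub_zero, zero_add] at hu0
  exact hu0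

theorem F_mul_height (u y : HS k) : F u y * u.1.2 =
    (nsq u - 2 * ∑ i, u.1.1 i * y.1.1 i + nsq y) / y.1.2 := by
  rw [← F_expand]
  have := y.2
  field_simp

theorem continuous_F (w : HS k) : Continuous fun u : HS k => F u w := by
  unfold F
  apply Continuous.div
  · fun_prop
  · fun_prop
  · intro u
    exact (mul_pos u.2 w.2).ne'

theorem generic_pair {x y y' : HS k} (hyy : y ≠ y') {g g' : ℝ}
    (hg : 0 < g) (hg' : 0 < g') :
    IsClosed {u : HS k | g' * (F u y - F u x) = g * (F u y' - F u x)} ∧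
    interior {u : HS k | g' * (F u y - F u x) = g * (F u y' - F u x)} = ∅ := by
  constructor
  · exact isClosed_eq
      (continuous_const.mul ((continuous_F y).sub (continuous_F x)))
      (continuous_const.mul ((continuous_F y').sub (continuous_F x)))
  set α : ℝ := g' * (1 / y.1.2 - 1 / x.1.2) - g * (1 / y'.1.2 - 1 / x.1.2) with hα
  set β : Fin k → ℝ := fun i => g' * (y.1.1 i / y.1.2 - x.1.1 i / x.1.2) -
    g * (y'.1.1 i / y'.1.2 - x.1.1 i / x.1.2) with hβ
  set γ : ℝ := g' * (nsq y / y.1.2 - nsq x / x.1.2) - g * (nsq y' / y'.1.2 - nsq x / x.1.2) with hγ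
  have hpoly : ∀ u : HS k, (g' * (F u y - F u x) - g * (F u y' - F u x)) * u.1.2 =
      α * nsq u - 2 * ∑ i, u.1.1 i * β i + γ := by
    intro u
    have e1 := F_mul_height u y
    have e2 := F_mul_height u x
    have e3 := F_mul_height u y'
    have e4 : ∑ i, u.1.1 i * β i = g' * ((∑ i, u.1.1 i * y.1.1 i) / y.1.2 -
        (∑ i, u.1.1 i * x.1.1 i) / x.1.2) - g * ((∑ i, u.1.1 i * y'.1.1 i) / y'.1.2 -
        (∑ i, u.1.1 i * x.1.1 i) / x.1.2) := by
      rw [Finset.sum_div, Finset.sum_div, Finset.sum_div, ← Finset.sum_sub_distrib,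
        ← Finset.sum_sub_distrib, Finset.mul_sum, Finset.mul_sum, ← Finset.sum_sub_distrib]
      refine Finset.sum_congr rfl fun i _ => ?_
      simp only [hβ]
      ring
    have e5 : (g' * (F u y - F u x) - g * (F u y' - F u x)) * u.1.2 =
        g' * (F u y * u.1.2 - F u x * u.1.2) - g * (F u y' * u.1.2 - F u x * u.1.2) := by ring
    rw [e5, e1, e2, e3, e4, hα, hγ]
    ring
  have hset : {u : HS k | g' * (F u y - F u x) = g * (F u y' - F u x)} =
      {u : HS k | α * nsq u - 2 * ∑ i, u.1.1 i * β i + γ = 0} := by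
    ext u
    simp only [Set.mem_ofPred_eq]
    rw [← hpoly u]
    constructor
    · intro h
      rw [h]; ring
    · intro h
      rcases mul_eq_zero.mp h with h | h
      · linarith
      · exact absurd h u.2.ne'
  rw [hset]
  apply interior_quadric
  rintro ⟨h1, h2, h3⟩
  have hall : ∀ u : HS k, g' * (F u y - F u x) = g * (F u y' - F u x) := by
    intro u
    have := hpoly u
    rw [h1, h3] at this
    simp only [h2, mul_zero, Finset.sum_const_zero, zero_mul, sub_zero, add_zero] at this
    rcases mul_eq_zero.mp this with h | h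
    · linarith
    · exact absurd h u.2.ne'
  have p1 := hall x
  have p2 := hall y
  have p3 := hall y'
  rw [F_self] at p1 p2 p3
  rw [F_comm y x] at p2
  rw [F_comm y' x, F_comm y' y] at p3
  have a2 := two_le_F x y
  have a3 := two_le_F x y'
  have a4 := two_le_F y y'
  set a := F x y
  set a' := F x y'
  set e := F y y'
  -- `g' (a - 2) = g (a' - 2)`, `g' (2 - a) = g (e - a)`, `g' (e - a') = g (2 - a')`
  have q1 : g * (e - a) = g * (2 - a') := by linarith
  have q2 : e - a = 2 - a' := mul_left_cancel₀ hg.ne' q1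
  have q3 : g' * (e - a') = g' * (2 - a) := by linarith
  have q4 : e - a' = 2 - a := mul_left_cancel₀ hg'.ne' q3
  have q5 : e = 2 := by linarith
  exact hyy (eq_of_F_eq_two q5)

theorem interior_biUnion {X ι : Type*} [TopologicalSpace X] (s : Finset ι) (Z : ι → Set X)
    (hc : ∀ i ∈ s, IsClosed (Z i)) (hi : ∀ i ∈ s, interior (Z i) = ∅) :
    interior (⋃ i ∈ s, Z i) = ∅ := by
  classical
  induction s using Finset.induction_on with
  | empty => simp
  | insert a s ha ih =>
    rw [Finset.set_biUnion_insert]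
    have h1 := ih (fun i hi' => hc i (Finset.mem_insert_of_mem hi'))
      (fun i hi' => hi i (Finset.mem_insert_of_mem hi'))
    rw [interior_union_isClosed_of_interior_empty (hc a (Finset.mem_insert_self a s)) h1]
    exact hi a (Finset.mem_insert_self a s)

theorem greedy {A : Set (HS k)} (hA : LocFin A) (x : A) (t : HS k)
    (h : ∃ y ∈ A, F t y < F t x) : ∃ y : A, (voronoiGraph A).Adj x y ∧ F t y < F t x := by
  classical
  have hYfin : {y ∈ A | F t y < F t x}.Finite :=
    (hA t (hdist t x)).subset fun y hy => ⟨hy.1, hdist_le_iff.mpr hy.2.le⟩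
  have hYne : {y ∈ A | F t y < F t x}.Nonempty := by
    obtain ⟨y, h1, h2⟩ := h
    exact ⟨y, h1, h2⟩
  set Y := {y ∈ A | F t y < F t x} with hY
  -- a ball around `x` inside the cell
  obtain ⟨δ, hδ, hδ1, hδs⟩ := exists_lower (s := {a ∈ A | hdist x a ≤ 1} \ {(x : HS k)})
    ((hA x 1).subset Set.sdiff_subset) (fun a => hdist x a) (by
      rintro a ⟨⟨h1, -⟩, h2⟩
      rcases (hdist_nonneg x a).lt_or_eq with h3 | h3
      · exact h3
      · exact absurd (eq_of_hdist h3.symm).symm h2)
  have hsep : ∀ a ∈ A, a ≠ (x : HS k) → δ ≤ hdist x a := by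
    intro a ha h1
    rcases le_or_gt (hdist x a) 1 with h | h
    · exact hδs a ⟨⟨ha, h⟩, h1⟩
    · linarith
  have hU : ∀ u : HS k, F u x < 2 * Real.cosh (δ / 2) → ∀ a ∈ A, a ≠ (x : HS k) →
      F u x < F u a := by
    intro u hu a ha h1
    have h2 : hdist u x < δ / 2 := by
      by_contra hcon
      push Not at hcon
      rw [F_eq_of_hdist] at hu
      have : Real.cosh (δ / 2) ≤ Real.cosh (hdist u x) := by
        rw [Real.cosh_le_cosh, abs_of_pos (by positivity), abs_of_nonneg (hdist_nonneg _ _)]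
        exact hcon
      linarith
    have h3 := hsep a ha h1
    have h4 := hdist_triangle x u a
    rw [hdist_comm (x : HS k) u] at h4
    exact hdist_lt_iff.mp (by linarith)
  have hUopen : IsOpen {u : HS k | F u x < 2 * Real.cosh (δ / 2)} :=
    isOpen_lt (continuous_F _) continuous_const
  have hcosh : 1 < Real.cosh (δ / 2) := Real.one_lt_cosh.mpr (half_pos hδ).ne'
  have hUx' : F (x : HS k) x < 2 * Real.cosh (δ / 2) := by
    rw [F_self]
    linarith only [hcosh]
  have hUx : (x : HS k) ∈ {u : HS k | F u x < 2 * Real.cosh (δ / 2)} := hUx'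
  -- a generic point
  let pairs : Finset (HS k × HS k) := (hYfin.toFinset ×ˢ hYfin.toFinset).filter
    fun p => p.1 ≠ p.2
  let Z : HS k × HS k → Set (HS k) := fun p =>
    {u | (F t x - F t p.2) * (F u p.1 - F u x) = (F t x - F t p.1) * (F u p.2 - F u x)}
  have hpairs : ∀ p ∈ pairs, (p.1 ∈ Y ∧ p.2 ∈ Y) ∧ p.1 ≠ p.2 := by
    intro p hp
    rw [Finset.mem_filter, Finset.mem_product, Set.Finite.mem_toFinset,
      Set.Finite.mem_toFinset] at hp
    exact hp
  have hint : interior (⋃ p ∈ pairs, Z p) = ∅ := by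
    apply interior_biUnion
    · intro p hp
      obtain ⟨⟨h1, h2⟩, h3⟩ := hpairs p hp
      exact (generic_pair (x := x) (g := F t x - F t p.1) (g' := F t x - F t p.2) h3
        (sub_pos.mpr h1.2) (sub_pos.mpr h2.2)).1
    · intro p hp
      obtain ⟨⟨h1, h2⟩, h3⟩ := hpairs p hp
      exact (generic_pair (x := x) (g := F t x - F t p.1) (g' := F t x - F t p.2) h3
        (sub_pos.mpr h1.2) (sub_pos.mpr h2.2)).2
  obtain ⟨u, huU, huZ⟩ : ∃ u, u ∈ {u : HS k | F u x < 2 * Real.cosh (δ / 2)} ∧
      u ∉ ⋃ p ∈ pairs, Z p := by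
    by_contra hcon
    push Not at hcon
    have hsub : {u : HS k | F u x < 2 * Real.cosh (δ / 2)} ⊆ interior (⋃ p ∈ pairs, Z p) :=
      interior_maximal hcon hUopen
    rw [hint] at hsub
    exact hsub hUx
  have hu := hU u huU
  -- the first bisector
  obtain ⟨ys, hys, hmin⟩ := Set.exists_min_image Y
    (fun y => (F u y - F u x) / (F t x - F t y)) hYfin hYne
  have hysx : ys ≠ (x : HS k) := by
    rintro rfl
    exact lt_irrefl _ hys.2
  have hf : 0 < F u ys - F u x := by linarith [hu ys hys.1 hysx]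
  have hg : 0 < F t x - F t ys := by linarith [hys.2]
  obtain ⟨z, c, hc, -, hlin⟩ := exists_comb u t (F t x - F t ys) (F u ys - F u x) hg.le hf.le
    (by linarith)
  have hz : F z x = F z ys := by
    have h1 := hlin x
    have h2 := hlin ys
    have h3 : c * F z x = c * F z ys := by rw [h1, h2]; ring
    exact mul_left_cancel₀ hc.ne' h3
  have hstrict : ∀ a ∈ A, a ≠ (x : HS k) → a ≠ ys → F z x < F z a := by
    intro a ha h1 h2
    have h3 := hlin x
    have h4 := hlin a
    have h5 := hu a ha h1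
    have h6 : c * F z x < c * F z a := by
      rw [h3, h4]
      by_cases haY : a ∈ Y
      · have h7 := hmin a haY
        have h8 : 0 < F t x - F t a := by linarith [haY.2]
        rw [div_le_div_iff₀ hg h8] at h7
        have h9 : (F t x - F t a) * (F u ys - F u x) ≠ (F t x - F t ys) * (F u a - F u x) := by
          intro h10
          apply huZ
          simp only [Set.mem_iUnion]
          refine ⟨(ys, a), ?_, h10⟩
          simp only [pairs, Finset.mem_filter, Finset.mem_product, Set.Finite.mem_toFinset]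
          exact ⟨⟨hys, haY⟩, fun h => h2 h.symm⟩
        have h11 : (F u ys - F u x) * (F t x - F t a) < (F u a - F u x) * (F t x - F t ys) := by
          apply lt_of_le_of_ne h7
          intro h12
          apply h9
          linarith
        nlinarith
      · have h7 : F t x ≤ F t a := by
          by_contra hcon
          push Not at hcon
          exact haY ⟨ha, hcon⟩
        have h8 : 0 < (F t x - F t ys) * (F u a - F u x) := mul_pos hg (by linarith)
        have h9 : 0 ≤ (F u ys - F u x) * (F t a - F t x) := mul_nonneg hf.le (by linarith)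
        nlinarith
    exact lt_of_mul_lt_mul_left h6 hc.le
  refine ⟨⟨ys, hys.1⟩, ?_, hys.2⟩
  exact strict_adj hA (x := x) (y := ⟨ys, hys.1⟩) (fun h => hysx (by rw [h])) hz hstrict

theorem route {A : Set (HS k)} (hA : LocFin A) (t : HS k) : ∀ (n : ℕ) (x : A),
    {y ∈ A | F t y < F t x}.ncard ≤ n → ∃ (y : A) (p : (voronoiGraph A).Walk x y),
      t ∈ cell A y ∧ ∀ u ∈ p.support, hdist t u ≤ hdist t x := by
  have hfin : ∀ x : A, {y ∈ A | F t y < F t x}.Finite := fun x =>
    (hA t (hdist t x)).subset fun y hy => ⟨hy.1, hdist_le_iff.mpr hy.2.le⟩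
  intro n
  induction n with
  | zero =>
    intro x hx
    have h1 : {y ∈ A | F t y < F t x} = ∅ := by
      rw [← Set.ncard_eq_zero (hfin x)]
      omega
    refine ⟨x, SimpleGraph.Walk.nil, fun a ha => ?_, fun u hu => ?_⟩
    · rw [hdist_le_iff]
      by_contra hcon
      push Not at hcon
      have : a ∈ {y ∈ A | F t y < F t x} := ⟨ha, hcon⟩
      rw [h1] at this
      exact this
    · rw [SimpleGraph.Walk.support_nil, List.mem_singleton] at hu
      rw [hu]
  | succ n ih =>
    intro x hx
    by_cases h : ∃ y ∈ A, F t y < F t x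
    · obtain ⟨y, hadj, hy⟩ := greedy hA x t h
      have hlt : {z ∈ A | F t z < F t y}.ncard < {z ∈ A | F t z < F t x}.ncard := by
        apply Set.ncard_lt_ncard _ (hfin x)
        refine ⟨fun z hz => ⟨hz.1, hz.2.trans hy⟩, fun hsub => ?_⟩
        have : (y : HS k) ∈ {z ∈ A | F t z < F t y} := hsub ⟨y.2, hy⟩
        exact lt_irrefl _ this.2
      obtain ⟨y', p, h1, h2⟩ := ih y (by omega)
      refine ⟨y', SimpleGraph.Walk.cons hadj p, h1, fun u hu => ?_⟩
      rw [SimpleGraph.Walk.support_cons, List.mem_cons] at hu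
      rcases hu with hu | hu
      · rw [hu]
      · exact (h2 u hu).trans (hdist_le_iff.mpr hy.le)
    · refine ⟨x, SimpleGraph.Walk.nil, fun a ha => ?_, fun u hu => ?_⟩
      · rw [hdist_le_iff]
        by_contra hcon
        push Not at hcon
        exact h ⟨a, ha, hcon⟩
      · rw [SimpleGraph.Walk.support_nil, List.mem_singleton] at hu
        rw [hu]

/-- routing to the cell of a point -/
theorem route_to {A : Set (HS k)} (hA : LocFin A) (t : HS k) (x : A) :
    ∃ (y : A) (p : (voronoiGraph A).Walk x y),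
      t ∈ cell A y ∧ ∀ u ∈ p.support, hdist t u ≤ hdist t x :=
  route hA t _ x le_rfl

/-- routing to a vertex -/
theorem route_vertex {A : Set (HS k)} (hA : LocFin A) (x y : A) :
    ∃ p : (voronoiGraph A).Walk x y, ∀ u ∈ p.support, hdist (y : HS k) u ≤ hdist (y : HS k) x := by
  obtain ⟨y', p, h1, h2⟩ := route_to hA (y : HS k) x
  have h3 := h1 y y.2
  rw [hdist_self] at h3
  have h4 : y = y' := by
    apply Subtype.ext
    exact eq_of_hdist (le_antisymm h3 (hdist_nonneg _ _))
  subst h4
  exact ⟨p, h2⟩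

theorem connected_of_locFin {A : Set (HS k)} (hA : LocFin A) (hne : A.Nonempty) :
    (voronoiGraph A).Connected := by
  obtain ⟨a, ha⟩ := hne
  exact { preconnected := fun x y => (route_vertex hA x y).elim fun p _ => ⟨p⟩
          nonempty := ⟨⟨a, ha⟩⟩ }

end

end Pool.Agent.Y979.AE
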