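import Pool.Agent.Y979.AE.Route

/-!
# Vertices close to a connected set on which the points are relatively dense
-/

set_option autoImplicit false

open Filter Topology

namespace Pool.Agent.Y979.AE

noncomputable section

/-- `x` and `y` are joined by a walk in `S` -/
def Linked {V : Type*} (G : SimpleGraph V) (S : Set V) (x y : V) : Prop :=
  ∃ p : G.Walk x y, ∀ u ∈ p.support, u ∈ S

theorem Linked.symm {V : Type*} {G : SimpleGraph V} {S : Set V} {x y : V} (h : Linked G S x y) :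
    Linked G S y x := by
  obtain ⟨p, hp⟩ := h
  exact ⟨p.reverse, fun u hu => hp u (by
    rwa [SimpleGraph.Walk.support_reverse, List.mem_reverse] at hu)⟩

theorem Linked.trans {V : Type*} {G : SimpleGraph V} {S : Set V} {x y z : V}
    (h : Linked G S x y) (h' : Linked G S y z) : Linked G S x z := by
  obtain ⟨p, hp⟩ := h
  obtain ⟨q, hq⟩ := h'
  refine ⟨p.append q, fun u hu => ?_⟩
  rcases SimpleGraph.Walk.mem_support_append_iff _ _ |>.mp hu with hu | hu
  · exact hp u hu
  · exact hq u hu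

theorem Linked.mono {V : Type*} {G : SimpleGraph V} {S T : Set V} {x y : V}
    (h : Linked G S x y) (hST : S ⊆ T) : Linked G T x y := by
  obtain ⟨p, hp⟩ := h
  exact ⟨p, fun u hu => hST (hp u hu)⟩

variable {k : ℕ}

/-- the vertices within distance `R` of `K` -/
def nbd (A : Set (HS k)) (K : Set (HS k)) (R : ℝ) : Set A := {y | ∃ t ∈ K, hdist t (y : HS k) ≤ R}

theorem home_linked {A : Set (HS k)} (hA : LocFin A) {D : ℝ} {K : Set (HS k)}
    {t t' : HS k} (ht' : t' ∈ K) (htt : hdist t t' ≤ 1) {y y' : A}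
    (hy : hdist t (y : HS k) ≤ D) (hy' : hdist t' (y' : HS k) ≤ D) :
    Linked (voronoiGraph A) (nbd A K (3 * D + 3)) y y' := by
  obtain ⟨p, hp⟩ := route_vertex hA y y'
  refine ⟨p, fun u hu => ⟨t', ht', ?_⟩⟩
  have h1 := hp u hu
  have h2 := hdist_triangle (y' : HS k) t' y
  have h3 := hdist_triangle t' t y
  have h4 := hdist_triangle t' y' u
  have h5 := hdist_comm (y' : HS k) t'
  have h6 := hdist_comm t' t
  linarith

theorem chain_core {A : Set (HS k)} (hA : LocFin A) {D : ℝ} (hD : 0 ≤ D) {K : Set (HS k)}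
    (hK : IsPreconnected K) (hcov : ∀ t ∈ K, ∃ a ∈ A, hdist t a ≤ D) {y y' : A}
    (hy : y ∈ nbd A K (3 * D + 3)) (hy' : y' ∈ nbd A K (3 * D + 3)) :
    Linked (voronoiGraph A) (nbd A K (3 * D + 3)) y y' := by
  -- going to a nucleus
  have hstep : ∀ y ∈ nbd A K (3 * D + 3), ∃ t ∈ K, ∃ y1 : A, hdist t (y1 : HS k) ≤ D ∧
      Linked (voronoiGraph A) (nbd A K (3 * D + 3)) y y1 := by
    rintro y ⟨t, ht, hty⟩
    obtain ⟨y1, p, h1, h2⟩ := route_to hA t y
    obtain ⟨a, ha, hta⟩ := hcov t ht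
    exact ⟨t, ht, y1, (h1 a ha).trans hta, p, fun u hu => ⟨t, ht, (h2 u hu).trans hty⟩⟩
  obtain ⟨t, ht, y1, h1, l1⟩ := hstep y hy
  obtain ⟨t', ht', y1', h1', l1'⟩ := hstep y' hy'
  have hQ : ∀ y y' : A, hdist t (y : HS k) ≤ D → hdist t' (y' : HS k) ≤ D →
      Linked (voronoiGraph A) (nbd A K (3 * D + 3)) y y' := by
    refine hK.induction₂ (fun t t' => ∀ y y' : A, hdist t (y : HS k) ≤ D →
      hdist t' (y' : HS k) ≤ D → Linked (voronoiGraph A) (nbd A K (3 * D + 3)) y y')
      ?_ ?_ ?_ ht ht'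
    · intro s hs
      have hcont := (continuous_F s).tendsto s
      have hlt : F s s < 2 * Real.cosh 1 := by
        rw [F_self]
        have : 1 < Real.cosh 1 := Real.one_lt_cosh.mpr one_ne_zero
        linarith
      have hev : ∀ᶠ s' in 𝓝 s, F s' s < 2 * Real.cosh 1 := hcont.eventually (gt_mem_nhds hlt)
      filter_upwards [nhdsWithin_le_nhds hev, self_mem_nhdsWithin] with s' hs' hs'K
      intro y y' hy hy'
      refine home_linked hA hs'K ?_ hy hy'
      rw [hdist_comm]
      exact hdist_le_of_F zero_le_one hs'.le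
    · intro a b c ha hb hc hab hbc y y' hy hy'
      obtain ⟨v, hv, hbv⟩ := hcov b hb
      exact (hab y ⟨v, hv⟩ hy hbv).trans (hbc ⟨v, hv⟩ y' hbv hy')
    · intro a b ha hb hab y y' hy hy'
      exact (hab y' y hy' hy).symm
  exact (l1.trans (hQ y1 y1' h1 h1')).trans l1'.symm

/-- cells of the vertices close to `K` are small -/
theorem cell_radius {A : Set (HS k)} {D : ℝ} (hD : 0 ≤ D) {t : HS k}
    (hcov : ∀ z, hdist t z ≤ 5 * D + 5 → ∃ a ∈ A, hdist z a ≤ D) {y : HS k}
    (hy : hdist t y ≤ 3 * D + 3) {z : HS k} (hz : z ∈ cell A y) : hdist z y ≤ D + 1 := by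
  by_contra hcon
  push Not at hcon
  obtain ⟨z', h1, h2⟩ := exists_mem_cell hz (r := D + 1) (by linarith) hcon.le
  have h3 := hdist_triangle t y z'
  rw [hdist_comm y z'] at h3
  obtain ⟨a, ha, h4⟩ := hcov z' (by linarith)
  have h5 := h1 a ha
  linarith

/-- their neighbours are close -/
theorem adj_near {A : Set (HS k)} {D : ℝ} (hD : 0 ≤ D) {t : HS k}
    (hcov : ∀ z, hdist t z ≤ 5 * D + 5 → ∃ a ∈ A, hdist z a ≤ D) {y y' : A}
    (hy : hdist t (y : HS k) ≤ 3 * D + 3) (h : (voronoiGraph A).Adj y y') :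
    hdist t (y' : HS k) ≤ 5 * D + 5 := by
  obtain ⟨z, hz1, hz2⟩ := exists_touch h
  have h1 := cell_radius hD hcov hy hz1
  have h2 := hz2 y y.2
  have h3 := hdist_triangle t y y'
  have h4 := hdist_triangle (y : HS k) z y'
  rw [hdist_comm (y : HS k) z] at h4
  linarith

end

end Pool.Agent.Y979.AE
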