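import Pool.Agent.Y979.AE.Det
import Pool.Agent.Y979.AE.Poisson

/-!
# Volumes of Euclidean boxes
-/

set_option autoImplicit false

open MeasureTheory
open scoped ENNReal

namespace Pool.Agent.Y979.AE

noncomputable section

/-- a Euclidean box -/
def eb {k : ℕ} (lo hi : Fin k → ℝ) (c d : ℝ) : Set (HS k) :=
  {z | (∀ j, lo j ≤ z.1.1 j ∧ z.1.1 j < hi j) ∧ c ≤ z.1.2 ∧ z.1.2 < d}

theorem eb_eq {k : ℕ} (lo hi : Fin k → ℝ) (c d : ℝ) : eb lo hi c d =
    Subtype.val ⁻¹' ((Set.pi Set.univ fun j => Set.Ico (lo j) (hi j)) ×ˢ Set.Ico c d) := by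
  ext z
  simp only [eb, Set.mem_preimage, Set.mem_prod, Set.mem_pi, Set.mem_univ, true_imp_iff,
    Set.mem_Ico]
  rfl

theorem measurableSet_eb {k : ℕ} (lo hi : Fin k → ℝ) (c d : ℝ) : MeasurableSet (eb lo hi c d) := by
  rw [eb_eq]
  exact measurable_subtype_coe
    ((MeasurableSet.univ_pi fun j => measurableSet_Ico).prod measurableSet_Ico)

theorem measurableSet_pos (k : ℕ) : MeasurableSet {p : (Fin k → ℝ) × ℝ | 0 < p.2} :=
  measurableSet_lt measurable_const measurable_snd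

theorem hvol_eb {k : ℕ} (lo hi : Fin k → ℝ) {c d : ℝ} (hc : 0 < c) :
    hvol k (eb lo hi c d) =
      ∫⁻ p in (Set.pi Set.univ fun j => Set.Ico (lo j) (hi j)) ×ˢ Set.Ico c d,
        ENNReal.ofReal (((p.2 : ℝ) ^ (k + 1))⁻¹) := by
  have hemb : MeasurableEmbedding (Subtype.val : HS k → (Fin k → ℝ) × ℝ) :=
    MeasurableEmbedding.subtype_coe (measurableSet_pos k)
  have hS : MeasurableSet ((Set.pi Set.univ fun j => Set.Ico (lo j) (hi j)) ×ˢ Set.Ico c d) :=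
    (MeasurableSet.univ_pi fun j => measurableSet_Ico).prod measurableSet_Ico
  have himg : Subtype.val '' (eb lo hi c d) =
      (Set.pi Set.univ fun j => Set.Ico (lo j) (hi j)) ×ˢ Set.Ico c d := by
    ext p
    constructor
    · rintro ⟨z, hz, rfl⟩
      rw [eb_eq] at hz
      exact hz
    · intro hp
      have hp0 : 0 < p.2 := lt_of_lt_of_le hc hp.2.1
      refine ⟨⟨p, hp0⟩, ?_, rfl⟩
      rw [eb_eq]
      exact hp
  unfold hvol
  rw [hemb.comap_apply, himg, withDensity_apply _ hS]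

theorem volume_prod_box {k : ℕ} {lo hi : Fin k → ℝ} {c d s : ℝ} (hs : 0 ≤ s)
    (h : ∀ j, hi j - lo j = s) :
    (volume : Measure ((Fin k → ℝ) × ℝ))
      ((Set.pi Set.univ fun j => Set.Ico (lo j) (hi j)) ×ˢ Set.Ico c d) =
      ENNReal.ofReal (s ^ k * (d - c)) := by
  rw [Measure.volume_eq_prod, Measure.prod_prod, Real.volume_pi_Ico, Real.volume_Ico,
    Finset.prod_congr rfl fun j _ => by rw [h j], Finset.prod_const, Finset.card_univ,
    Fintype.card_fin, ENNReal.ofReal_mul (by positivity), ENNReal.ofReal_pow hs]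

theorem hvol_eb_le {k : ℕ} {lo hi : Fin k → ℝ} {c d s : ℝ} (hc : 0 < c) (hs : 0 ≤ s)
    (h : ∀ j, hi j - lo j = s) :
    hvol k (eb lo hi c d) ≤ ENNReal.ofReal (s ^ k * (d - c) / c ^ (k + 1)) := by
  rw [hvol_eb lo hi hc]
  have h1 : ∫⁻ p in (Set.pi Set.univ fun j => Set.Ico (lo j) (hi j)) ×ˢ Set.Ico c d,
        ENNReal.ofReal (((p.2 : ℝ) ^ (k + 1))⁻¹) ≤
      ∫⁻ _p in (Set.pi Set.univ fun j => Set.Ico (lo j) (hi j)) ×ˢ Set.Ico c d,
        ENNReal.ofReal ((c ^ (k + 1))⁻¹) := by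
    refine setLIntegral_mono measurable_const fun p hp => ?_
    apply ENNReal.ofReal_le_ofReal
    apply inv_anti₀ (by positivity)
    exact pow_le_pow_left₀ hc.le hp.2.1 _
  refine h1.trans ?_
  rw [setLIntegral_const, volume_prod_box hs h, ← ENNReal.ofReal_mul (by positivity)]
  apply ENNReal.ofReal_le_ofReal
  rw [div_eq_mul_inv, mul_comm]

theorem le_hvol_eb {k : ℕ} {lo hi : Fin k → ℝ} {c d s : ℝ} (hc : 0 < c) (hcd : c ≤ d)
    (hs : 0 ≤ s) (h : ∀ j, hi j - lo j = s) :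
    ENNReal.ofReal (s ^ k * (d - c) / d ^ (k + 1)) ≤ hvol k (eb lo hi c d) := by
  rw [hvol_eb lo hi hc]
  have hd : 0 < d := lt_of_lt_of_le hc hcd
  have h1 : ∫⁻ _p in (Set.pi Set.univ fun j => Set.Ico (lo j) (hi j)) ×ˢ Set.Ico c d,
        ENNReal.ofReal ((d ^ (k + 1))⁻¹) ≤
      ∫⁻ p in (Set.pi Set.univ fun j => Set.Ico (lo j) (hi j)) ×ˢ Set.Ico c d,
        ENNReal.ofReal (((p.2 : ℝ) ^ (k + 1))⁻¹) := by
    refine setLIntegral_mono' ((MeasurableSet.univ_pi fun j => measurableSet_Ico).prod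
      measurableSet_Ico) fun p hp => ?_
    apply ENNReal.ofReal_le_ofReal
    have hp0 : 0 < p.2 := lt_of_lt_of_le hc hp.2.1
    apply inv_anti₀ (by positivity)
    exact pow_le_pow_left₀ hp0.le hp.2.2.le _
  refine le_trans ?_ h1
  rw [setLIntegral_const, volume_prod_box hs h, ← ENNReal.ofReal_mul (by positivity)]
  apply ENNReal.ofReal_le_ofReal
  rw [div_eq_mul_inv, mul_comm]

variable {n : ℕ}

theorem piece_eq_eb {k : ℕ} (w : ℝ) (p : ℤ × (Fin k → ℤ)) : piece w p =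
    eb (fun j => w * 2 ^ p.1 * p.2 j) (fun j => w * 2 ^ p.1 * (p.2 j + 1)) ((2 : ℝ) ^ p.1)
      (2 * (2 : ℝ) ^ p.1) := rfl

theorem measurableSet_piece {k : ℕ} (w : ℝ) (p : ℤ × (Fin k → ℤ)) : MeasurableSet (piece w p) := by
  rw [piece_eq_eb]; exact measurableSet_eb _ _ _ _

theorem hvol_piece_le {k : ℕ} {w : ℝ} (hw : 0 ≤ w) (p : ℤ × (Fin k → ℤ)) :
    hvol k (piece w p) ≤ ENNReal.ofReal (w ^ k) := by
  have hu : (0 : ℝ) < 2 ^ p.1 := by positivity
  rw [piece_eq_eb]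
  refine (hvol_eb_le (s := w * 2 ^ p.1) hu (by positivity) fun j => by ring).trans (le_of_eq ?_)
  congr 1
  set u : ℝ := 2 ^ p.1
  rw [mul_pow, pow_succ]
  field_simp
  ring

theorem le_hvol_piece {k : ℕ} {w : ℝ} (hw : 0 ≤ w) (p : ℤ × (Fin k → ℤ)) :
    ENNReal.ofReal (w ^ k / 2 ^ (k + 1)) ≤ hvol k (piece w p) := by
  have hu : (0 : ℝ) < 2 ^ p.1 := by positivity
  rw [piece_eq_eb]
  refine le_trans (le_of_eq ?_)
    (le_hvol_eb (s := w * 2 ^ p.1) hu (by linarith) (by positivity) fun j => by ring)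
  congr 1
  set u : ℝ := 2 ^ p.1
  rw [mul_pow, mul_pow, pow_succ u]
  field_simp
  ring

theorem tc_eq_eb (w : ℝ) (m : ℕ) (p : ℤ × (Fin (n + 2) → ℤ)) (pb : Fin m × Bool) :
    tc w m p pb = eb (fun j => 2 ^ p.1 * (w * p.2 j + (w / 2 + off n m pb j)))
      (fun j => 2 ^ p.1 * (w * p.2 j + (w / 2 + off n m pb j + eta n m)))
      (2 ^ p.1 * (3 / 2 + hoff pb.2)) (2 ^ p.1 * (3 / 2 + hoff pb.2 + eta n m)) := rfl

theorem measurableSet_tc (w : ℝ) (m : ℕ) (p : ℤ × (Fin (n + 2) → ℤ)) (pb : Fin m × Bool) :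
    MeasurableSet (tc w m p pb) := by
  rw [tc_eq_eb]; exact measurableSet_eb _ _ _ _

theorem hoff_bounds (b : Bool) : -(1 / 8) ≤ hoff b ∧ hoff b ≤ 1 / 8 := by
  unfold hoff
  cases b <;> simp only [if_true, Bool.false_eq_true, if_false] <;> constructor <;> norm_num

theorem eta_small {m : ℕ} (hm : 0 < m) : eta n m ≤ 1 / 2048 := by
  have h4 := eta_pos (n := n) hm
  have h5 := eta_le (n := n) hm
  have h6 : (0 : ℝ) ≤ n := Nat.cast_nonneg n
  nlinarith

theorem hvol_tc_le {w : ℝ} {m : ℕ} (hm : 0 < m) (p : ℤ × (Fin (n + 2) → ℤ))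
    (pb : Fin m × Bool) : hvol (n + 2) (tc w m p pb) ≤ ENNReal.ofReal 1 := by
  have hu : (0 : ℝ) < 2 ^ p.1 := by positivity
  obtain ⟨h1, h2⟩ := hoff_bounds pb.2
  have h3 := eta_pos (n := n) hm
  have h4 := eta_small (n := n) hm
  rw [tc_eq_eb]
  refine (hvol_eb_le (s := 2 ^ p.1 * eta n m) (by nlinarith) (by positivity)
    fun j => by ring).trans (ENNReal.ofReal_le_ofReal ?_)
  set u : ℝ := 2 ^ p.1
  have h5 : u * (3 / 2 + hoff pb.2 + eta n m) - u * (3 / 2 + hoff pb.2) = u * eta n m := by ring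
  have h6 : 0 < 3 / 2 + hoff pb.2 := by linarith
  rw [h5, ← pow_succ, div_le_one (by positivity)]
  apply pow_le_pow_left₀ (by positivity)
  apply mul_le_mul_of_nonneg_left _ hu.le
  linarith

theorem le_hvol_tc {w : ℝ} {m : ℕ} (hm : 0 < m) (p : ℤ × (Fin (n + 2) → ℤ))
    (pb : Fin m × Bool) :
    ENNReal.ofReal ((eta n m / 2) ^ (n + 3)) ≤ hvol (n + 2) (tc w m p pb) := by
  have hu : (0 : ℝ) < 2 ^ p.1 := by positivity
  obtain ⟨h1, h2⟩ := hoff_bounds pb.2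
  have h3 := eta_pos (n := n) hm
  have h4 := eta_small (n := n) hm
  rw [tc_eq_eb]
  refine le_trans (ENNReal.ofReal_le_ofReal ?_) (le_hvol_eb (s := 2 ^ p.1 * eta n m)
    (by nlinarith) (by nlinarith) (by positivity) fun j => by ring)
  set u : ℝ := 2 ^ p.1
  have h5 : u * (3 / 2 + hoff pb.2 + eta n m) - u * (3 / 2 + hoff pb.2) = u * eta n m := by ring
  have h6 : 0 < 3 / 2 + hoff pb.2 + eta n m := by linarith
  rw [h5, ← pow_succ, ← div_pow]
  apply pow_le_pow_left₀ (by positivity)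
  rw [div_le_div_iff₀ (by norm_num) (by positivity)]
  have : 0 < u * eta n m := by positivity
  nlinarith

end

end Pool.Agent.Y979.AE
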